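import Mathlib
import Pool.Agent.Run7.h257.Defs

/-!
Definitions for the general case: the harmonic numbers `H_k` with `k < p`, `p ∣ c k + a`, are not
congruent to a fixed rational number `- N / D` for a positive proportion of the primes
(port of `Run7.h257` / `Run7.h361` / `Run7.h510.B3` to general fractions `a / c`).
-/

namespace Run7.h510.G

noncomputable section

open PowerSeries Run7.h257

/-- The fraction `a / c`, and for each residue class modulo `c` the multiplier `L` of the first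
admitted pole: the poles of `G` at `c k + a = m p` with `m < L p` are assumed to be absent. -/
class CA where
  c : ℕ
  a : ℕ
  hc : 2 ≤ c
  ha : 0 < a
  hac : a < c
  hcop : Nat.Coprime a c
  L : ZMod c → ℕ
  hL0 : ∀ s, 0 < L s
  hL : ∀ s, L s ≤ 2 * c

/-- the two integers `D > 0` and `N` of the numerators `D H_k + N`. -/
class Val where
  D : ℕ
  N : ℤ
  hD : 0 < D

/-- the size of the parameters. -/
def Val.ht (P : Val) : ℝ := 1 + P.D + |(P.N : ℝ)|

lemma Val.one_le_ht (P : Val) : 1 ≤ P.ht := by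
  unfold Val.ht
  have h1 : (0 : ℝ) ≤ P.D := Nat.cast_nonneg _
  have h2 := abs_nonneg (P.N : ℝ)
  linarith

instance instNeZeroC [C : CA] : NeZero C.c := ⟨by have := C.hc; omega⟩

variable [C : CA] [P : Val]

/-- the multiplier of the first admitted pole at `p`. -/
def LL (p : ℕ) : ℕ := C.L (p : ZMod C.c)

omit P in
lemma LL_pos (p : ℕ) : 0 < LL p := C.hL0 _

omit P in
lemma LL_le (p : ℕ) : LL p ≤ 2 * C.c := C.hL _

/-- `D H_k + N`. -/
def hk (k : ℕ) : ℚ := P.D * harmonic k + P.N

/-- `p` is good: `p` divides `D H_k + N` whenever `c k + a` is a multiple of `p` below `L p`. -/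
def Good (p : ℕ) : Prop := ∀ k : ℕ, p ∣ C.c * k + C.a → C.c * k + C.a < LL p * p →
  padicNorm p (hk k) ≤ (p : ℚ)⁻¹

/-- `g_k = (D H_k + N) / (ck+a)`. -/
def gk (k : ℕ) : ℚ := hk k / (C.c * k + C.a)

/-- Coefficients (in `v`) of `G = ∑ g_k u^k`, `u = v/(1+v)`. -/
def gam : ℕ → ℚ
  | 0 => P.N / C.a
  | (m + 1) => ∑ k ∈ Finset.range (m + 1), (-1) ^ (m - k) * (m.choose k) * gk (k + 1)

/-- The three power series `1, log(1+X), G`. -/
def fs (i : ℕ) : ℚ⟦X⟧ := if i = 0 then 1 else if i = 1 then PowerSeries.mk lc else PowerSeries.mk gam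

/-- the `r`-th row, `(1+X)^j f_i`. -/
def row (M r : ℕ) : ℚ⟦X⟧ := (1 + X) ^ (dg M r) * fs (ty M r)

/-- the matrix with rows `row M r` and columns the coefficients of index `n t`. -/
def mat (M : ℕ) (n : Fin (30 * M) → ℕ) : Matrix (Fin (30 * M)) (Fin (30 * M)) ℚ :=
  Matrix.of fun r t => PowerSeries.coeff (n t) (row M r)

/-- the extra pole of the `G`-coefficients at `p`. -/
def dd (P₀ p n : ℕ) : ℕ :=
  if p ≤ P₀ ∨ LL p * p ≤ C.c * n + C.a then Nat.log p (C.c * n + C.a) else 0

/-- the `q`-adic side, `q ∣ c`: `G = (D B) * ℓ + R` with `B = ∑ bet k X^k`, `R = ∑ rr k X^k`. -/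
def bet : ℕ → ℚ
  | 0 => 1 / C.a
  | 1 => 1 / (C.c + C.a)
  | (k + 2) => -C.c * (k + 1) * bet (k + 1) / (C.c * (k + 2) + C.a)

/-- `D B`. -/
def bd (k : ℕ) : ℚ := P.D * bet k

def rr (k : ℕ) : ℚ :=
  if k = 0 then P.N / C.a else bet k * (P.D * (harmonic (k - 1) - C.c / C.a) + P.N)

/-- the integral part of the gain in the `q`-adic valuations of `bet` and `rr`. -/
def ee (q k : ℕ) : ℕ := padicValNat q C.c * k + k / (q - 1)

/-- loss in the `q`-adic valuations of `bet` and `rr`. -/
def cc (q k : ℕ) : ℕ := 2 * Nat.log q (k + 1) + padicValNat q C.c + 4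

end

end Run7.h510.G
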