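import Mathlib
import Pool.Agent.Run7.h510.G.Defs

/-!
Recurrence for `gam`.
-/

namespace Run7.h510.G

variable [C : CA] [P : Val]

omit P in
lemma ca_pos (k : ℚ) (hk : 0 ≤ k) : (0 : ℚ) < C.c * k + C.a := by
  have h1 : (0 : ℚ) < C.a := by exact_mod_cast C.ha
  have h2 : (0 : ℚ) ≤ C.c := by positivity
  positivity

theorem gam_zero : gam 0 = P.N / C.a := rfl

theorem gam_one : gam 1 = ((P.D : ℚ) + P.N) / (C.c + C.a) := by
  norm_num [gam, gk, hk, harmonic]

omit C in
/-- iterated differences of `hk`. -/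
theorem hk_diff (m a : ℕ) :
    (fwdDiff 1)^[m + 1] (hk : ℕ → ℚ) a =
      P.D * ((-1) ^ m * m.factorial * a.factorial / (a + m + 1).factorial) := by
  induction m generalizing a with
  | zero =>
    simp only [zero_add, Function.iterate_one, fwdDiff, hk, harmonic_succ, pow_zero, one_mul,
      Nat.factorial_zero, Nat.cast_one, add_zero, Nat.factorial_succ]
    have h1 : (a.factorial : ℚ) ≠ 0 := by positivity
    have h2 : ((a : ℚ) + 1) ≠ 0 := by positivity
    push_cast
    field_simp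
    ring
  | succ m ih =>
    rw [Function.iterate_succ_apply', fwdDiff, ih, ih]
    have e1 : (a + 1 + m + 1).factorial = (a + (m + 1) + 1).factorial := by
      congr 1; ring
    have e2 : (a + (m + 1) + 1).factorial = (a + m + 1 + 1) * (a + m + 1).factorial := by
      rw [show a + (m + 1) + 1 = (a + m + 1) + 1 by ring, Nat.factorial_succ]
    rw [e1, e2, Nat.factorial_succ m, Nat.factorial_succ a]
    have h1 : ((a + m + 1).factorial : ℚ) ≠ 0 := by positivity
    have h2 : ((a : ℚ) + m + 1 + 1) ≠ 0 := by positivity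
    push_cast
    field_simp
    ring

omit C in
theorem hk_alt_sum (m : ℕ) :
    ∑ k ∈ Finset.range (m + 2), (-1 : ℚ) ^ (m + 1 - k) * ((m + 1).choose k) * hk (k + 1) =
      P.D * ((-1) ^ m / ((m + 1) * (m + 2))) := by
  have h1 := fwdDiff_iter_eq_sum_shift (1 : ℕ) (hk : ℕ → ℚ) (m + 1) 1
  rw [hk_diff] at h1
  have h2 : ∑ k ∈ Finset.range (m + 2), (-1 : ℚ) ^ (m + 1 - k) * ((m + 1).choose k) *
      hk (k + 1) = ∑ k ∈ Finset.range (m + 1 + 1),
        ((-1 : ℤ) ^ (m + 1 - k) * (m + 1).choose k) • hk (1 + k • 1) := by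
    apply Finset.sum_congr rfl
    intro k hk
    rw [zsmul_eq_mul, smul_eq_mul, mul_one, add_comm 1 k]
    push_cast
    ring
  rw [h2, ← h1]
  have e1 : (1 + m + 1).factorial = (m + 2) * ((m + 1) * m.factorial) := by
    rw [show 1 + m + 1 = (m + 1) + 1 by ring, Nat.factorial_succ, Nat.factorial_succ]
  rw [e1, Nat.factorial_one]
  have h1 : (m.factorial : ℚ) ≠ 0 := by positivity
  push_cast
  field_simp

theorem gam_rec_aux (m : ℕ) :
    (C.c * ((m : ℚ) + 2) + C.a) * gam (m + 2) + C.c * (m + 1) * gam (m + 1) =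
      P.D * ((-1) ^ m / ((m + 1) * (m + 2))) := by
  rw [← hk_alt_sum m]
  have h1 : C.c * ((m : ℚ) + 1) * gam (m + 1) =
      - ∑ k ∈ Finset.range (m + 2), (-1 : ℚ) ^ (m + 1 - k) * (C.c * ((m : ℚ) + 1 - k)) *
        ((m + 1).choose k) * gk (k + 1) := by
    rw [Finset.sum_range_succ]
    have h2 : (-1 : ℚ) ^ (m + 1 - (m + 1)) * (C.c * ((m : ℚ) + 1 - ((m + 1 : ℕ) : ℚ))) *
        ((m + 1).choose (m + 1)) * gk (m + 1 + 1) = 0 := by
      push_cast; ring
    rw [h2, add_zero, gam, Finset.mul_sum, ← Finset.sum_neg_distrib]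
    apply Finset.sum_congr rfl
    intro k hk
    have hk' : k ≤ m := by have := Finset.mem_range.1 hk; omega
    have h3 : (m + 1) * m.choose k = (m + 1).choose k * (m + 1 - k) := by
      rw [mul_comm, Nat.choose_mul_succ_eq]
    have h4 : ((m : ℚ) + 1) * (m.choose k : ℚ) = ((m + 1).choose k : ℚ) * ((m : ℚ) + 1 - k) := by
      have h5 : (((m + 1) * m.choose k : ℕ) : ℚ) = (((m + 1).choose k * (m + 1 - k) : ℕ) : ℚ) := by
        rw [h3]
      rw [Nat.cast_mul, Nat.cast_mul, Nat.cast_sub (by omega)] at h5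
      push_cast at h5
      exact h5
    have h6 : (-1 : ℚ) ^ (m + 1 - k) = - (-1) ^ (m - k) := by
      rw [show m + 1 - k = (m - k) + 1 by omega, pow_succ]; ring
    rw [h6]
    linear_combination C.c * (-1 : ℚ) ^ (m - k) * gk (k + 1) * h4
  rw [h1, gam, Finset.mul_sum, ← Finset.sum_neg_distrib, ← Finset.sum_add_distrib]
  apply Finset.sum_congr rfl
  intro k _
  have h7 : (C.c * ((k : ℚ) + 1) + C.a) * gk (k + 1) = hk (k + 1) := by
    rw [gk]
    push_cast
    have : (C.c * ((k : ℚ) + 1) + C.a) ≠ 0 := (ca_pos _ (by positivity)).ne'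
    field_simp
  rw [← h7]
  ring

theorem gam_rec (n : ℕ) (hn : 2 ≤ n) :
    (C.c * n + C.a) * gam n + C.c * (n - 1) * gam (n - 1) =
      P.D * ((-1) ^ n / (n * (n - 1))) := by
  obtain ⟨m, rfl⟩ : ∃ m, n = m + 2 := ⟨n - 2, by omega⟩
  have h := gam_rec_aux m
  rw [show m + 2 - 1 = m + 1 by omega]
  have e1 : (-1 : ℚ) ^ (m + 2) = (-1) ^ m := by rw [pow_add]; norm_num
  rw [e1]
  push_cast
  rw [show (C.c * ((m : ℚ) + 2 - 1)) = C.c * (m + 1) by ring, h]
  congr 2
  ring

/-- the bound for the coefficients. -/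
def KK : ℚ := P.D + |(P.N : ℚ)|

omit C in
theorem KK_nonneg : 0 ≤ KK := by
  unfold KK
  positivity

theorem gam_abs (n : ℕ) : |gam n| ≤ KK := by
  have hD : (0 : ℚ) ≤ P.D := by positivity
  have hN : (0 : ℚ) ≤ |(P.N : ℚ)| := abs_nonneg _
  have ha1 : (1 : ℚ) ≤ C.a := by exact_mod_cast C.ha
  have hc2 : (2 : ℚ) ≤ C.c := by exact_mod_cast C.hc
  induction n with
  | zero =>
    rw [gam_zero, abs_div, abs_of_pos (by linarith : (0 : ℚ) < C.a), div_le_iff₀ (by linarith)]
    unfold KK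
    nlinarith
  | succ n ih =>
    rcases n with _ | m
    · rw [zero_add, gam_one, abs_div, abs_of_pos (by linarith : (0 : ℚ) < C.c + C.a)]
      have h1 : |(P.D : ℚ) + P.N| ≤ P.D + |(P.N : ℚ)| := by
        refine (abs_add_le _ _).trans ?_
        rw [abs_of_nonneg hD]
      unfold KK
      rw [div_le_iff₀ (by linarith)]
      nlinarith
    · have h := gam_rec_aux m
      have hm : (0 : ℚ) ≤ m := by positivity
      have hpos := ca_pos ((m : ℚ) + 2) (by positivity)
      have h1 : (C.c * ((m : ℚ) + 2) + C.a) * gam (m + 2) =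
        P.D * ((-1) ^ m / ((m + 1) * (m + 2))) - C.c * (m + 1) * gam (m + 1) := by
        linear_combination h
      have h2 : |(P.D : ℚ) * ((-1 : ℚ) ^ m / ((m + 1) * (m + 2)))| ≤ KK := by
        rw [abs_mul, abs_div, abs_pow, abs_neg, abs_one, one_pow, abs_of_nonneg hD,
          abs_of_pos (by positivity : (0 : ℚ) < (m + 1) * (m + 2))]
        have h3 : 1 / (((m : ℚ) + 1) * (m + 2)) ≤ 1 := by
          rw [div_le_one (by positivity)]
          nlinarith
        have h4 := mul_le_mul_of_nonneg_left h3 hD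
        unfold KK
        linarith
      have h3 : |C.c * ((m : ℚ) + 1) * gam (m + 1)| ≤ C.c * (m + 1) * KK := by
        rw [abs_mul, abs_of_pos (by positivity : (0 : ℚ) < C.c * ((m : ℚ) + 1))]
        exact mul_le_mul_of_nonneg_left ih (by positivity)
      have h4 : |(C.c * ((m : ℚ) + 2) + C.a) * gam (m + 2)| ≤ KK + C.c * (m + 1) * KK := by
        rw [h1]
        exact (abs_sub _ _).trans (add_le_add h2 h3)
      rw [abs_mul, abs_of_pos hpos] at h4
      have h6 := KK_nonneg (P := P)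
      by_contra h7
      push Not at h7
      have h8 : (C.c * ((m : ℚ) + 2) + C.a) * KK < (C.c * ((m : ℚ) + 2) + C.a) * |gam (m + 2)| :=
        mul_lt_mul_of_pos_left h7 hpos
      nlinarith

end Run7.h510.G
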