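import Mathlib
import Pool.Agent.Run7.h257.Gan
import Pool.Agent.Run7.h510.G.Defs
import Pool.Agent.Run7.h510.G.Rec

/-! The analytic function `Gan` near `0`. -/

namespace Run7.h510.G

noncomputable section

open PowerSeries Filter Topology Metric
open Run7.h257 (summable_nat_geo lc)

variable [C : CA] [P : Val]

/-- the analytic function `G(v) = ∑ gam n v^n` near `0`. -/
def Gan (v : ℂ) : ℂ := ∑' n : ℕ, (gam n : ℂ) * v ^ n

/-- the termwise derivative of `Gan`. -/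
def Gan' (v : ℂ) : ℂ := ∑' n : ℕ, (gam n : ℂ) * (n * v ^ (n - 1))

omit C in
theorem KK_nonneg' : (0 : ℝ) ≤ ((KK : ℚ) : ℝ) := by exact_mod_cast KK_nonneg

theorem gam_norm_le (n : ℕ) : ‖(gam n : ℂ)‖ ≤ ((KK : ℚ) : ℝ) := by
  have h1 : ‖(gam n : ℂ)‖ = ((|gam n| : ℚ) : ℝ) := by
    rw [show ((gam n : ℚ) : ℂ) = (((gam n : ℚ) : ℝ) : ℂ) by norm_cast, Complex.norm_real,
      Real.norm_eq_abs]
    norm_cast
  rw [h1]
  exact_mod_cast gam_abs n

theorem gan_summable {v : ℂ} (hv : ‖v‖ < 1) :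
    Summable (fun n : ℕ => (gam n : ℂ) * v ^ n) := by
  refine Summable.of_norm_bounded (g := fun n => ((KK : ℚ) : ℝ) * ‖v‖ ^ n)
    ((summable_geometric_of_lt_one (norm_nonneg _) hv).mul_left _) (fun n => ?_)
  rw [norm_mul, norm_pow]
  gcongr
  exact gam_norm_le n

theorem gan'_summable {v : ℂ} (hv : ‖v‖ < 1) :
    Summable (fun n : ℕ => (gam n : ℂ) * (n * v ^ (n - 1))) := by
  refine Summable.of_norm_bounded (g := fun n : ℕ => ((KK : ℚ) : ℝ) * ((n : ℝ) * ‖v‖ ^ (n - 1)))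
    ((summable_nat_geo (norm_nonneg _) hv).mul_left _) (fun n => ?_)
  rw [norm_mul, norm_mul, norm_pow, Complex.norm_natCast]
  gcongr
  exact gam_norm_le n

theorem gan_hasDerivAt {v : ℂ} (hv : ‖v‖ < 1) :
    HasDerivAt Gan (Gan' v) v := by
  obtain ⟨r, hr1, hr2⟩ := exists_between hv
  have hr0 : 0 < r := lt_of_le_of_lt (norm_nonneg v) hr1
  have := hasDerivAt_tsum_of_isPreconnected (𝕜 := ℂ) (F := ℂ)
    (g := fun (n : ℕ) (v : ℂ) => (gam n : ℂ) * v ^ n)
    (g' := fun (n : ℕ) (v : ℂ) => (gam n : ℂ) * (n * v ^ (n - 1)))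
    (u := fun n : ℕ => ((KK : ℚ) : ℝ) * ((n : ℝ) * r ^ (n - 1))) (t := ball 0 r) (y₀ := 0) (y := v)
    ((summable_nat_geo hr0.le hr2).mul_left _) isOpen_ball (convex_ball 0 r).isPreconnected
    (fun n y _ => (hasDerivAt_pow n y).const_mul _)
    (fun n y hy => by
      have hy' : ‖y‖ < r := by simpa using hy
      rw [norm_mul, norm_mul, norm_pow, Complex.norm_natCast]
      have := KK_nonneg' (P := P)
      gcongr
      exact gam_norm_le n)
    (mem_ball_self hr0) (gan_summable (by simp)) (by simpa using hr1)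
  exact this

theorem gan_analyticAt {v : ℂ} (hv : ‖v‖ < 1) :
    AnalyticAt ℂ Gan v := by
  have h1 : DifferentiableOn ℂ Gan (ball 0 1) := fun w hw =>
    (gan_hasDerivAt (by simpa using hw)).differentiableAt.differentiableWithinAt
  exact h1.analyticAt (isOpen_ball.mem_nhds (by simpa using hv))

/-- the differential equation of `Gan`. -/
theorem gan_ode {v : ℂ} (hv : ‖v‖ < 1) :
    C.a * Gan v + C.c * v * (1 + v) * Gan' v =
      (1 + v) * (P.D * Complex.log (1 + v) + P.N) := by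
  have ha0 : (C.a : ℂ) ≠ 0 := by
    have := C.ha
    exact_mod_cast this.ne'
  have hca0 : (C.c : ℂ) + C.a ≠ 0 := by
    have := C.ha
    exact_mod_cast (by omega : C.c + C.a ≠ 0)
  have hS : HasSum (fun n : ℕ => (gam n : ℂ) * v ^ n) (Gan v) := (gan_summable hv).hasSum
  have hS' : HasSum (fun n : ℕ => (gam n : ℂ) * (n * v ^ (n - 1))) (Gan' v) :=
    (gan'_summable hv).hasSum
  have hL := Complex.hasSum_taylorSeries_log hv
  have hS1 : HasSum (fun n : ℕ => (gam (n + 1) : ℂ) * v ^ (n + 1)) (Gan v - P.N / C.a) := by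
    have := (hasSum_nat_add_iff' (f := fun n : ℕ => (gam n : ℂ) * v ^ n) 1).2 hS
    simpa [gam_zero] using this
  have hS2 : HasSum (fun n : ℕ => v * ((gam (n + 1) : ℂ) * ((n + 1 : ℕ) * v ^ n)))
      (v * Gan' v) := by
    have := (hasSum_nat_add_iff' (f := fun n : ℕ => (gam n : ℂ) * (n * v ^ (n - 1))) 1).2 hS'
    have h2 := this.mul_left v
    simpa using h2
  have hS3 : HasSum (fun n : ℕ => v ^ 2 * ((gam n : ℂ) * (n * v ^ (n - 1)))) (v ^ 2 * Gan' v) :=
    hS'.mul_left _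
  have hL1 : HasSum (fun n : ℕ => (-1) ^ (n + 1 + 1) * v ^ (n + 1) / ((n + 1 : ℕ) : ℂ))
      (Complex.log (1 + v)) := by
    have := (hasSum_nat_add_iff' (f := fun n : ℕ => (-1 : ℂ) ^ (n + 1) * v ^ n / (n : ℂ)) 1).2 hL
    simpa using this
  have hL2 : HasSum (fun n : ℕ => v * ((-1) ^ (n + 1) * v ^ n / (n : ℂ)))
      (v * Complex.log (1 + v)) := hL.mul_left _
  have hL3 : HasSum (fun n : ℕ => if n = 0 then (P.N : ℂ) * v else 0) ((P.N : ℂ) * v) := by
    have := hasSum_single (f := fun n : ℕ => if n = 0 then (P.N : ℂ) * v else 0) 0 (by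
      intro n hn
      simp [hn])
    simpa using this
  have hA := ((hS1.mul_left (C.a : ℂ)).add (hS2.mul_left (C.c : ℂ))).add (hS3.mul_left (C.c : ℂ))
  have hB := ((hL1.add hL2).mul_left (P.D : ℂ)).add hL3
  have hAB : ∀ n : ℕ, (C.a : ℂ) * ((gam (n + 1) : ℂ) * v ^ (n + 1)) +
      C.c * (v * ((gam (n + 1) : ℂ) * ((n + 1 : ℕ) * v ^ n))) +
      C.c * (v ^ 2 * ((gam n : ℂ) * (n * v ^ (n - 1)))) =
      (P.D : ℂ) * ((-1) ^ (n + 1 + 1) * v ^ (n + 1) / ((n + 1 : ℕ) : ℂ) +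
      v * ((-1) ^ (n + 1) * v ^ n / (n : ℂ))) + (if n = 0 then (P.N : ℂ) * v else 0) := by
    intro n
    rcases Nat.eq_zero_or_pos n with rfl | hn
    · simp [gam_one]
      field_simp
      ring
    · have h1 := gam_rec (n + 1) (by omega)
      have h2 : v ^ 2 * v ^ (n - 1) = v ^ (n + 1) := by
        rw [← pow_add]; congr 1; omega
      have h3 : ((C.c * ((n : ℂ) + 1) + C.a) * (gam (n + 1) : ℂ) + C.c * n * (gam n : ℂ)) =
          P.D * ((-1) ^ (n + 1) / ((n + 1) * n)) := by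
        have h4 := congrArg (fun q : ℚ => (q : ℂ)) h1
        simp only [Nat.add_sub_cancel] at h4
        push_cast at h4
        rw [show ((n : ℂ) + 1 - 1) = n by ring] at h4
        exact h4
      have hn' : (n : ℂ) ≠ 0 := by exact_mod_cast hn.ne'
      have hn'' : (n : ℂ) + 1 ≠ 0 := by exact_mod_cast (Nat.succ_ne_zero n)
      have h5 : (C.a : ℂ) * ((gam (n + 1) : ℂ) * v ^ (n + 1)) +
          C.c * (v * ((gam (n + 1) : ℂ) * ((n + 1 : ℕ) * v ^ n))) +
          C.c * (v ^ 2 * ((gam n : ℂ) * (n * v ^ (n - 1)))) =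
          ((C.c * ((n : ℂ) + 1) + C.a) * (gam (n + 1) : ℂ) + C.c * n * (gam n : ℂ)) *
            v ^ (n + 1) := by
        rw [← h2]
        push_cast
        rw [show v * ((gam (n + 1) : ℂ) * (((n : ℂ) + 1) * v ^ n)) =
          (gam (n + 1) : ℂ) * ((n : ℂ) + 1) * (v ^ 2 * v ^ (n - 1)) by
            rw [h2, pow_succ]; ring]
        ring
      rw [h5, h3, pow_succ v n, if_neg hn.ne']
      push_cast
      field_simp
      ring
  have hA' : HasSum (fun n : ℕ => (P.D : ℂ) * ((-1) ^ (n + 1 + 1) * v ^ (n + 1) /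
      ((n + 1 : ℕ) : ℂ) + v * ((-1) ^ (n + 1) * v ^ n / (n : ℂ))) +
      (if n = 0 then (P.N : ℂ) * v else 0))
      (C.a * (Gan v - P.N / C.a) + C.c * (v * Gan' v) + C.c * (v ^ 2 * Gan' v)) := by
    refine hA.congr_fun ?_ |> fun h => h
    intro n
    exact (hAB n).symm
  have := hA'.unique hB
  have e9 : (C.a : ℂ) * (P.N / C.a) = P.N := by field_simp
  linear_combination this + e9

end

end Run7.h510.G
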