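import Mathlib
import Pool.Agent.Run7.h510.G.Gan

/-! Piece L (`Near`): near `0` the function `Γ` is `G(e^h - 1)`. -/

namespace Run7.h510.G

noncomputable section

open PowerSeries Filter Topology Metric

variable [C : CA] [P : Val]

omit P in
/-- an analytic solution of the homogeneous equation vanishes near `0`. -/
theorem near_homog (h D : ℂ → ℂ) (hh : AnalyticAt ℂ h 0) (h0 : h 0 = 0) (h1 : deriv h 0 ≠ 0)
    (hD : AnalyticAt ℂ D 0)
    (hode : ∀ᶠ s in 𝓝 (0 : ℂ),
      C.a * deriv h s * Complex.exp (-h s) * D s + C.c * (1 - Complex.exp (-h s)) * deriv D s = 0) :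
    ∀ᶠ s in 𝓝 (0 : ℂ), D s = 0 := by
  by_contra hne
  obtain ⟨m, g, hg, hg0, hDg⟩ := hD.exists_eventuallyEq_pow_smul_nonzero_iff.2 hne
  simp only [sub_zero, smul_eq_mul] at hDg
  have hD' : ∀ᶠ s in 𝓝 (0 : ℂ), deriv D s = deriv (fun z => z ^ m * g z) s :=
    (Filter.EventuallyEq.deriv (hDg : D =ᶠ[𝓝 0] fun z => z ^ m * g z))
  have hgd : ∀ᶠ s in 𝓝 (0 : ℂ), DifferentiableAt ℂ g s := by
    filter_upwards [hg.eventually_analyticAt] with s hs using hs.differentiableAt
  -- the main identity away from `0`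
  have key : ∀ᶠ s in 𝓝[≠] (0 : ℂ), C.a * deriv h s * Complex.exp (-h s) * g s +
      C.c * ((1 - Complex.exp (-h s)) / s) * (m * g s + s * deriv g s) = 0 := by
    rw [eventually_nhdsWithin_iff]
    filter_upwards [hode, hDg, hD', hgd] with s h1 h2 h3 h4 hs
    have hs0 : s ≠ 0 := hs
    have h5 : deriv (fun z => z ^ m * g z) s = m * s ^ (m - 1) * g s + s ^ m * deriv g s := by
      have := ((hasDerivAt_pow m s).mul h4.hasDerivAt).deriv
      exact this
    rw [h3, h5, h2] at h1
    have h6 : s * (m * s ^ (m - 1) : ℂ) = m * s ^ m := by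
      rcases Nat.eq_zero_or_pos m with rfl | hm
      · simp
      · rw [show s ^ m = s * s ^ (m - 1) by rw [← pow_succ']; congr 1; omega]
        ring
    have h7 : s ^ (m + 1) * (C.a * deriv h s * Complex.exp (-h s) * g s +
        C.c * ((1 - Complex.exp (-h s)) / s) * (m * g s + s * deriv g s)) = 0 := by
      have h8 : s * (C.a * deriv h s * Complex.exp (-h s) * (s ^ m * g s) +
          C.c * (1 - Complex.exp (-h s)) * (m * s ^ (m - 1) * g s + s ^ m * deriv g s)) = 0 := by
        rw [h1, mul_zero]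
      have h9 : s * (C.a * deriv h s * Complex.exp (-h s) * (s ^ m * g s) +
          C.c * (1 - Complex.exp (-h s)) * (m * s ^ (m - 1) * g s + s ^ m * deriv g s)) =
          s ^ (m + 1) * (C.a * deriv h s * Complex.exp (-h s) * g s) +
          C.c * (1 - Complex.exp (-h s)) * ((s * (m * s ^ (m - 1))) * g s +
            s * s ^ m * deriv g s) := by ring
      rw [h9, h6] at h8
      have hB : s * ((1 - Complex.exp (-h s)) / s) = 1 - Complex.exp (-h s) := by field_simp
      linear_combination h8 + C.c * s ^ m * (m * g s + s * deriv g s) * hB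
    exact (mul_eq_zero.1 h7).resolve_left (pow_ne_zero _ hs0)
  -- the limit
  have hlim : Tendsto (fun s => C.a * deriv h s * Complex.exp (-h s) * g s +
      C.c * ((1 - Complex.exp (-h s)) / s) * (m * g s + s * deriv g s)) (𝓝[≠] (0 : ℂ))
      (𝓝 (C.a * deriv h 0 * Complex.exp (-h 0) * g 0 +
        C.c * deriv h 0 * (m * g 0 + 0 * deriv g 0))) := by
    have c1 : Tendsto (fun s => deriv h s) (𝓝[≠] (0 : ℂ)) (𝓝 (deriv h 0)) :=
      (hh.deriv.continuousAt).tendsto.mono_left nhdsWithin_le_nhds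
    have c2 : Tendsto (fun s => Complex.exp (-h s)) (𝓝[≠] (0 : ℂ)) (𝓝 (Complex.exp (-h 0))) :=
      ((Complex.continuous_exp.continuousAt.comp hh.continuousAt.neg).tendsto).mono_left
        nhdsWithin_le_nhds
    have c3 : Tendsto g (𝓝[≠] (0 : ℂ)) (𝓝 (g 0)) :=
      (hg.continuousAt).tendsto.mono_left nhdsWithin_le_nhds
    have c4 : Tendsto (fun s => deriv g s) (𝓝[≠] (0 : ℂ)) (𝓝 (deriv g 0)) :=
      (hg.deriv.continuousAt).tendsto.mono_left nhdsWithin_le_nhds
    have c5 : Tendsto (fun s : ℂ => s) (𝓝[≠] (0 : ℂ)) (𝓝 0) :=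
      (continuousAt_id.tendsto).mono_left nhdsWithin_le_nhds
    have c6 : Tendsto (fun s => (1 - Complex.exp (-h s)) / s) (𝓝[≠] (0 : ℂ)) (𝓝 (deriv h 0)) := by
      have d1 : HasDerivAt (fun s => 1 - Complex.exp (-h s)) (deriv h 0) 0 := by
        have d2 := (hh.differentiableAt.hasDerivAt.neg.cexp).const_sub 1
        simpa [h0] using d2
      have d3 := hasDerivAt_iff_tendsto_slope.1 d1
      refine d3.congr' ?_
      filter_upwards [self_mem_nhdsWithin] with s hs
      rw [slope_def_field]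
      simp [h0]
    have := ((((c1.const_mul (C.a : ℂ)).mul c2).mul c3).add ((c6.const_mul (C.c : ℂ)).mul
      ((c3.const_mul (m : ℂ)).add (c5.mul c4))))
    exact this
  have h0' := tendsto_nhds_unique (hlim.congr' key) tendsto_const_nhds
  rw [h0] at h0'
  simp only [neg_zero, Complex.exp_zero, mul_one, zero_mul, add_zero] at h0'
  have h2 : deriv h 0 * g 0 * (C.a + C.c * (m : ℂ)) = 0 := by
    linear_combination h0'
  have h3 : (C.a + C.c * (m : ℂ)) ≠ 0 := by
    have h4 := C.ha
    have : ((C.a + C.c * m : ℕ) : ℂ) ≠ 0 := by exact_mod_cast (by omega : C.a + C.c * m ≠ 0)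
    simpa using this
  exact (mul_ne_zero (mul_ne_zero h1 hg0) h3) h2

theorem near_zero (h Γ : ℂ → ℂ) (hd : DifferentiableOn ℂ h (ball 0 1)) (h0 : h 0 = 0)
    (h1 : deriv h 0 ≠ 0) (hΓ : DifferentiableOn ℂ Γ (ball 0 1))
    (hode : ∀ s ∈ ball (0 : ℂ) 1,
      C.a * deriv h s * Complex.exp (-h s) * Γ s + C.c * (1 - Complex.exp (-h s)) * deriv Γ s =
        (P.D * h s + P.N) * deriv h s) :
    ∀ᶠ s in 𝓝 (0 : ℂ), Γ s = Gan (Complex.exp (h s) - 1) := by
  have hball : ball (0 : ℂ) 1 ∈ 𝓝 (0 : ℂ) := ball_mem_nhds 0 one_pos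
  have hh : AnalyticAt ℂ h 0 := hd.analyticAt hball
  have hΓa : AnalyticAt ℂ Γ 0 := hΓ.analyticAt hball
  have hv0 : Complex.exp (h 0) - 1 = 0 := by simp [h0]
  have hva : AnalyticAt ℂ (fun s => Complex.exp (h s) - 1) 0 := hh.cexp.sub analyticAt_const
  have hGa : AnalyticAt ℂ Gan (Complex.exp (h 0) - 1) := by
    rw [hv0]; exact gan_analyticAt (by simp)
  have hYa : AnalyticAt ℂ (fun s => Gan (Complex.exp (h s) - 1)) 0 :=
    AnalyticAt.fun_comp (g := Gan) (f := fun s => Complex.exp (h s) - 1) hGa hva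
  have hvs : ∀ᶠ s in 𝓝 (0 : ℂ), ‖Complex.exp (h s) - 1‖ < 1 := by
    have := hva.continuousAt.norm
    have h2 : ContinuousAt (fun s => ‖Complex.exp (h s) - 1‖) 0 := this
    exact h2.eventually_lt_const (by simp [h0])
  have him : ∀ᶠ s in 𝓝 (0 : ℂ), |(h s).im| < Real.pi := by
    have h2 : ContinuousAt (fun s => |(h s).im|) 0 :=
      (Complex.continuous_im.continuousAt.comp hh.continuousAt).abs
    exact h2.eventually_lt_const (by simp [h0, Real.pi_pos])
  have hhd : ∀ᶠ s in 𝓝 (0 : ℂ), DifferentiableAt ℂ h s := by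
    filter_upwards [hh.eventually_analyticAt] with s hs using hs.differentiableAt
  have hΓd : ∀ᶠ s in 𝓝 (0 : ℂ), DifferentiableAt ℂ Γ s := by
    filter_upwards [hΓa.eventually_analyticAt] with s hs using hs.differentiableAt
  have hmem : ∀ᶠ s in 𝓝 (0 : ℂ), s ∈ ball (0 : ℂ) 1 := hball
  have hD := near_homog h (fun s => Γ s - Gan (Complex.exp (h s) - 1)) hh h0 h1 (hΓa.sub hYa) (by
    filter_upwards [hvs, him, hhd, hΓd, hmem] with s a1 a2 a3 a4 a5
    have e1 : HasDerivAt (fun s => Gan (Complex.exp (h s) - 1))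
        (Gan' (Complex.exp (h s) - 1) * (Complex.exp (h s) * deriv h s)) s := by
      have e2 : HasDerivAt (fun s => Complex.exp (h s) - 1) (Complex.exp (h s) * deriv h s) s :=
        (a3.hasDerivAt.cexp).sub_const 1
      exact (gan_hasDerivAt a1).comp s e2
    have e3 : deriv (fun s => Γ s - Gan (Complex.exp (h s) - 1)) s =
        deriv Γ s - Gan' (Complex.exp (h s) - 1) * (Complex.exp (h s) * deriv h s) :=
      (a4.hasDerivAt.sub e1).deriv
    rw [e3]
    have e4 := gan_ode (P := P) a1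
    have e5 : Complex.log (1 + (Complex.exp (h s) - 1)) = h s := by
      rw [show 1 + (Complex.exp (h s) - 1) = Complex.exp (h s) by ring]
      rw [abs_lt] at a2
      exact Complex.log_exp a2.1 a2.2.le
    rw [e5] at e4
    have e6 := hode s a5
    have e7 : Complex.exp (-h s) * Complex.exp (h s) = 1 := by
      rw [← Complex.exp_add]; simp
    linear_combination e6 - deriv h s * Complex.exp (-h s) * e4 +
      (C.c * Complex.exp (h s) * Gan' (Complex.exp (h s) - 1) * deriv h s -
        (P.D * h s + P.N) * deriv h s) * e7)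
  filter_upwards [hD] with s hs
  exact sub_eq_zero.1 hs

end

end Run7.h510.G
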