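import Mathlib
import Pool.Agent.Run7.h257.Odd
import Pool.Agent.Run7.h510.G.Defs

/-!
Bounds at all primes.
-/

namespace Run7.h510.G

noncomputable section

open PowerSeries Run7.h257

variable [C : CA] [P : Val]

omit C in
lemma hk_norm {p : ℕ} (hp : p.Prime) (n : ℕ) :
    padicNorm p (hk n) ≤ (p : ℚ) ^ Nat.log p n := by
  have := Fact.mk hp
  have hp1 : (1 : ℚ) ≤ p := by exact_mod_cast hp.one_lt.le
  unfold hk
  refine (padicNorm.nonarchimedean (p := p)).trans (max_le ?_ ?_)
  · rw [padicNorm.mul]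
    calc padicNorm p (P.D : ℚ) * padicNorm p (harmonic n) ≤ 1 * (p : ℚ) ^ Nat.log p n :=
          mul_le_mul (nat_norm_le hp _) (harm_norm hp n) (padicNorm.nonneg _) zero_le_one
      _ = _ := one_mul _
  · exact (int_norm_le hp _).trans (one_le_pow₀ hp1)

lemma gk_eq (k : ℕ) : gk k = hk k * (((C.c * k + C.a : ℕ) : ℚ)⁻¹) := by
  unfold gk
  push_cast
  rw [div_eq_mul_inv]

lemma gk_norm {p P₀ : ℕ} (hp : p.Prime)
    (hW : P₀ < p → 2 * C.c < p ∧ Good p) (n k : ℕ) (hkn : k ≤ n) :
    padicNorm p (gk k) ≤ (p : ℚ) ^ (Nat.log p n + dd P₀ p n) := by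
  have := Fact.mk hp
  have hp1 : (1 : ℚ) ≤ p := by exact_mod_cast hp.one_lt.le
  have hp0 : (0 : ℚ) < p := by exact_mod_cast hp.pos
  have hckn : C.c * k + C.a ≤ C.c * n + C.a := by
    have := Nat.mul_le_mul_left C.c hkn
    omega
  rw [gk_eq, padicNorm.mul]
  have hH : padicNorm p (hk k) ≤ (p : ℚ) ^ Nat.log p n :=
    (hk_norm hp k).trans (pow_le_pow_right₀ hp1 (Nat.log_mono_right hkn))
  unfold dd
  split_ifs with hc
  · rw [pow_add]
    refine mul_le_mul hH ?_ (padicNorm.nonneg _) (by positivity)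
    exact (pn_inv_nat hp _).trans (pow_le_pow_right₀ hp1 (Nat.log_mono_right hckn))
  · push Not at hc
    obtain ⟨hc1, hc2⟩ := hc
    obtain ⟨h3, hG⟩ := hW hc1
    by_cases hd : p ∣ C.c * k + C.a
    · have h1 : padicNorm p (hk k) ≤ (p : ℚ)⁻¹ := hG k hd (by omega)
      obtain ⟨m, hm⟩ := hd
      have h4 : m < p := by
        by_contra h4
        push Not at h4
        have h5 : p * p ≤ p * m := Nat.mul_le_mul_left _ h4
        have h6 : LL p * p ≤ p * p := Nat.mul_le_mul_right _ ((LL_le p).trans h3.le)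
        omega
      have hm0 : 0 < m := by
        rcases Nat.eq_zero_or_pos m with h | h
        · rw [h] at hm
          have := C.ha
          omega
        · exact h
      have hpm : ¬ p ∣ m := fun h => by
        have := Nat.le_of_dvd hm0 h
        omega
      have h2' : padicNorm p (((C.c * k + C.a : ℕ) : ℚ)⁻¹) = p := by
        have e1 : padicNorm p (((C.c * k + C.a : ℕ) : ℚ)⁻¹) =
            (padicNorm p ((C.c * k + C.a : ℕ) : ℚ))⁻¹ := by
          rw [← one_div, padicNorm.div, padicNorm.one, one_div]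
        rw [e1, hm, Nat.cast_mul, padicNorm.mul, padicNorm.padicNorm_p_of_prime,
          (padicNorm.nat_eq_one_iff _).mpr hpm, mul_one, inv_inv]
      rw [h2']
      calc padicNorm p (hk k) * p ≤ (p : ℚ)⁻¹ * p := by gcongr
        _ = 1 := inv_mul_cancel₀ hp0.ne'
        _ ≤ _ := one_le_pow₀ hp1
    · have h1 : padicNorm p (((C.c * k + C.a : ℕ) : ℚ)⁻¹) = 1 := by
        have : padicNorm p (((C.c * k + C.a : ℕ) : ℚ)⁻¹) =
            (padicNorm p ((C.c * k + C.a : ℕ) : ℚ))⁻¹ := by
          rw [← one_div, padicNorm.div, padicNorm.one, one_div]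
        rw [this, (padicNorm.nat_eq_one_iff _).mpr hd, inv_one]
      rw [h1, mul_one, add_zero]
      exact hH

lemma gk_zero : gk 0 = P.N / C.a := by
  simp [gk, hk]

theorem gam_norm {p P₀ : ℕ} (hp : p.Prime)
    (hW : P₀ < p → 2 * C.c < p ∧ Good p) (n : ℕ) :
    padicNorm p (gam n) ≤ (p : ℚ) ^ (Nat.log p n + dd P₀ p n) := by
  have := Fact.mk hp
  have hp1 : (1 : ℚ) ≤ p := by exact_mod_cast hp.one_lt.le
  rcases n with _ | m
  · simp only [gam]
    rw [← gk_zero]
    exact gk_norm hp hW 0 0 le_rfl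
  · simp only [gam]
    refine padicNorm.sum_le' (fun k hk => ?_) (by positivity)
    rw [padicNorm.mul]
    have h1 : padicNorm p ((-1 : ℚ) ^ (m - k) * (m.choose k)) ≤ 1 := by
      have : ((-1 : ℚ) ^ (m - k) * (m.choose k)) = (((-1 : ℤ) ^ (m - k) * (m.choose k) : ℤ) : ℚ) := by
        push_cast; rfl
      rw [this]
      exact int_norm_le hp _
    have h3 := gk_norm hp hW (m + 1) (k + 1) (by have := Finset.mem_range.mp hk; omega)
    calc padicNorm p ((-1 : ℚ) ^ (m - k) * (m.choose k)) * padicNorm p (gk (k + 1))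
        ≤ 1 * padicNorm p (gk (k + 1)) :=
          mul_le_mul_of_nonneg_right h1 (padicNorm.nonneg _)
      _ = padicNorm p (gk (k + 1)) := one_mul _
      _ ≤ _ := h3

omit P in
lemma dd_mono (P₀ p : ℕ) {j n : ℕ} (h : j ≤ n) : dd P₀ p j ≤ dd P₀ p n := by
  have h0 : C.c * j + C.a ≤ C.c * n + C.a := by
    have := Nat.mul_le_mul_left C.c h
    omega
  unfold dd
  split_ifs with h1 h2
  · exact Nat.log_mono_right h0
  · exfalso
    apply h2
    rcases h1 with h1 | h1
    · exact Or.inl h1
    · exact Or.inr (by omega)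
  · exact Nat.zero_le _
  · exact le_rfl

theorem row_norm {p P₀ : ℕ} (hp : p.Prime)
    (hW : P₀ < p → 2 * C.c < p ∧ Good p) (M r n : ℕ) :
    padicNorm p (PowerSeries.coeff n (row M r)) ≤
      (p : ℚ) ^ ((if 12 * M ≤ r then Nat.log p n else 0) +
        (if 22 * M ≤ r then dd P₀ p n else 0)) := by
  have := Fact.mk hp
  have hp1 : (1 : ℚ) ≤ p := by exact_mod_cast hp.one_lt.le
  have key : ∀ j ≤ n, padicNorm p (PowerSeries.coeff j (fs (ty M r))) ≤
      (p : ℚ) ^ ((if 12 * M ≤ r then Nat.log p n else 0) +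
        (if 22 * M ≤ r then dd P₀ p n else 0)) := by
    intro j hj
    unfold ty
    by_cases h12 : r < 12 * M
    · have hA : ¬ (12 * M ≤ r) := by omega
      have hB : ¬ (22 * M ≤ r) := by omega
      simp only [h12, hA, hB, if_true, if_false, fs]
      rw [PowerSeries.coeff_one]
      split_ifs
      · simp
      · simp
    · by_cases h22 : r < 22 * M
      · have hA : (12 * M ≤ r) := by omega
        have hB : ¬ (22 * M ≤ r) := by omega
        simp only [h12, h22, hA, hB, if_true, if_false, fs, one_ne_zero]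
        rw [PowerSeries.coeff_mk, add_zero]
        exact (lc_norm hp j).trans (pow_le_pow_right₀ hp1 (Nat.log_mono_right hj))
      · have hA : (12 * M ≤ r) := by omega
        have hB : (22 * M ≤ r) := by omega
        simp only [h12, h22, hA, hB, if_true, if_false, fs, two_ne_zero]
        rw [if_neg (by norm_num), PowerSeries.coeff_mk]
        refine (gam_norm hp hW j).trans (pow_le_pow_right₀ hp1 ?_)
        have h5 := dd_mono P₀ p hj
        have h6 := Nat.log_mono_right (b := p) hj
        omega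
  unfold row
  rw [PowerSeries.coeff_mul]
  refine padicNorm.sum_le' (fun q hq => ?_) (by positivity)
  rw [padicNorm.mul]
  have hq' := Finset.HasAntidiagonal.mem_antidiagonal.mp hq
  calc padicNorm p (PowerSeries.coeff q.1 ((1 + X : ℚ⟦X⟧) ^ dg M r)) *
        padicNorm p (PowerSeries.coeff q.2 (fs (ty M r)))
      ≤ 1 * padicNorm p (PowerSeries.coeff q.2 (fs (ty M r))) :=
        mul_le_mul_of_nonneg_right (onePlus_coeff_norm hp _ _) (padicNorm.nonneg _)
    _ = _ := one_mul _
    _ ≤ _ := key q.2 (by omega)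

end

end Run7.h510.G
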