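import Mathlib
import Pool.Agent.Run7.h257.Pnt
import Pool.Agent.Run7.h510.G.Defs

namespace Run7.h510.G

noncomputable section

open Filter Topology ArithmeticFunction
open Run7.h257 (primesLE_eq upper_of_tendsto)

/-- `ψ(n; q, s)`. -/
def psS {q : ℕ} (s : ZMod q) (n : ℕ) : ℝ := ∑ k ∈ Finset.Icc 1 n, vonMangoldt.residueClass s k

lemma psS_mono {q : ℕ} (s : ZMod q) : Monotone (psS s) := by
  intro m n hmn
  unfold psS
  apply Finset.sum_le_sum_of_subset_of_nonneg
  · exact Finset.Icc_subset_Icc_right hmn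
  · intro k _ _
    exact vonMangoldt.residueClass_nonneg s k

lemma psS_nonneg {q : ℕ} (s : ZMod q) (n : ℕ) : 0 ≤ psS s n :=
  Finset.sum_nonneg (fun k _ => vonMangoldt.residueClass_nonneg s k)

lemma psS_tendsto {q : ℕ} [NeZero q] {s : ZMod q} (hs : IsUnit s) :
    Tendsto (fun n : ℕ => psS s n / n) atTop (𝓝 ((q.totient : ℝ)⁻¹)) := by
  have h := (Pool.Agent.Cov.PNT.pnt_residueClass hs).comp tendsto_natCast_atTop_atTop
  refine h.congr (fun n => ?_)
  simp only [Function.comp_apply, Nat.floor_natCast]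
  rfl

lemma psS_upper {q : ℕ} [NeZero q] {s : ZMod q} (hs : IsUnit s) (ε : ℝ) (hε : 0 < ε) :
    ∃ C : ℝ, 0 ≤ C ∧ ∀ n : ℕ, psS s n ≤ ((q.totient : ℝ)⁻¹ + ε) * n + C := by
  have h1 := (psS_tendsto hs).eventually
    (gt_mem_nhds (show ((q.totient : ℝ)⁻¹) < (q.totient : ℝ)⁻¹ + ε by linarith))
  obtain ⟨X, hX⟩ := eventually_atTop.mp (h1.and (eventually_gt_atTop 0))
  refine ⟨psS s X, psS_nonneg s X, ?_⟩
  intro n
  rcases le_total X n with h2 | h2
  · obtain ⟨h3, h4⟩ := hX n h2
    have h5 : (0 : ℝ) < n := by exact_mod_cast h4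
    rw [div_lt_iff₀ h5] at h3
    linarith [psS_nonneg s X]
  · have := psS_mono s h2
    have h6 : 0 ≤ ((q.totient : ℝ)⁻¹ + ε) * n := by positivity
    linarith

/-- the primes of the class `s` up to `n`. -/
lemma theta_class_le {q : ℕ} (s : ZMod q) (n : ℕ) (T : Finset ℕ)
    (hT : ∀ p ∈ T, p.Prime ∧ (p : ZMod q) = s ∧ p ≤ n) : ∑ p ∈ T, Real.log p ≤ psS s n := by
  unfold psS
  calc ∑ p ∈ T, Real.log p = ∑ p ∈ T, vonMangoldt.residueClass s p := by
        apply Finset.sum_congr rfl
        intro p hp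
        obtain ⟨h1, h2, _⟩ := hT p hp
        unfold vonMangoldt.residueClass
        rw [Set.indicator_of_mem (by simpa using h2), vonMangoldt_apply_prime h1]
    _ ≤ _ := by
        apply Finset.sum_le_sum_of_subset_of_nonneg
        · intro p hp
          rw [Finset.mem_Icc]
          exact ⟨(hT p hp).1.one_lt.le, (hT p hp).2.2⟩
        · intro k _ _
          exact vonMangoldt.residueClass_nonneg s k

/-- For a unit class `s` modulo `q` and large `M` there is a prime `p ≡ s` in `(30 M, 31 M]` which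
does not divide a given `D ≤ e^(M/(4q))`. -/
lemma exists_prime_class {q : ℕ} [NeZero q] {s : ZMod q} (hs : IsUnit s) :
    ∃ M₀ : ℕ, ∀ M : ℕ, M₀ ≤ M → ∀ D : ℕ, 0 < D → (D : ℝ) ≤ Real.exp (M / (4 * q)) →
      ∃ p : ℕ, p.Prime ∧ (p : ZMod q) = s ∧ 30 * M < p ∧ p ≤ 31 * M ∧ ¬ p ∣ D := by
  have hq0 : 0 < q := Nat.pos_of_ne_zero (NeZero.ne q)
  have hφ0 : 0 < q.totient := Nat.totient_pos.mpr hq0
  have hφq : q.totient ≤ q := Nat.totient_le q
  set φ : ℝ := (q.totient : ℝ) with hφ
  have hφpos : (0 : ℝ) < φ := by rw [hφ]; exact_mod_cast hφ0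
  have hφle : φ ≤ q := by rw [hφ]; exact_mod_cast hφq
  have hqpos : (0 : ℝ) < q := by exact_mod_cast hq0
  set ε : ℝ := φ⁻¹ / 122 with hε
  have hφi : 0 < φ⁻¹ := inv_pos.mpr hφpos
  have hε0 : 0 < ε := by positivity
  have h1 := (psS_tendsto hs).eventually (gt_mem_nhds (show φ⁻¹ < φ⁻¹ + ε by linarith))
  have h2 := (psS_tendsto hs).eventually (lt_mem_nhds (show φ⁻¹ - ε < φ⁻¹ by linarith))
  obtain ⟨X, hX⟩ := eventually_atTop.mp (h1.and (h2.and (eventually_gt_atTop 0)))
  obtain ⟨C2, hC2⟩ := Chebyshev.psi_sub_theta_le_mul_sqrt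
  -- `C2 √(31 M) < φ⁻¹ / 4 M` for large `M`
  have hlim : Tendsto (fun M : ℕ => C2 * Real.sqrt (31 * M) / M) atTop (𝓝 0) := by
    have l1 : Tendsto (fun x : ℝ => (Real.sqrt x)⁻¹) atTop (𝓝 0) :=
      (Real.tendsto_sqrt_atTop).inv_tendsto_atTop
    have l2 := (l1.comp tendsto_natCast_atTop_atTop).const_mul (C2 * Real.sqrt 31)
    rw [mul_zero] at l2
    refine l2.congr' ?_
    filter_upwards [eventually_gt_atTop 0] with M hM
    simp only [Function.comp_apply]
    have hM' : (0 : ℝ) < M := by exact_mod_cast hM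
    rw [Real.sqrt_mul (by norm_num)]
    have h3 := Real.mul_self_sqrt hM'.le
    have h4 : Real.sqrt M ≠ 0 := (Real.sqrt_pos.mpr hM').ne'
    rw [eq_div_iff hM'.ne']
    calc C2 * Real.sqrt 31 * (Real.sqrt M)⁻¹ * M =
          C2 * Real.sqrt 31 * ((Real.sqrt M)⁻¹ * (Real.sqrt M * Real.sqrt M)) := by rw [h3]; ring
      _ = C2 * (Real.sqrt 31 * Real.sqrt M) := by
          field_simp
  have h3 := hlim.eventually (gt_mem_nhds (show (0 : ℝ) < φ⁻¹ / 8 by positivity))
  obtain ⟨X', hX'⟩ := eventually_atTop.mp (h3.and (eventually_gt_atTop 0))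
  refine ⟨max X X', ?_⟩
  intro M hM D hD0 hD
  have hMX : X ≤ M := (le_max_left _ _).trans hM
  have hMX' : X' ≤ M := (le_max_right _ _).trans hM
  obtain ⟨hM3, hM0⟩ := hX' M hMX'
  have hMr : (0 : ℝ) < M := by exact_mod_cast hM0
  rw [div_lt_iff₀ hMr] at hM3
  by_contra hcon
  push Not at hcon
  have a1 := (hX (31 * M) (by omega)).2.1
  have a2 := (hX (30 * M) (by omega)).1
  have c1 : (((31 * M : ℕ) : ℝ)) = 31 * M := by push_cast; ring
  have c2 : (((30 * M : ℕ) : ℝ)) = 30 * M := by push_cast; ring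
  rw [c1, lt_div_iff₀ (by positivity)] at a1
  rw [c2, div_lt_iff₀ (by positivity)] at a2
  -- the difference
  have hdiff : psS s (31 * M) - psS s (30 * M) =
      ∑ k ∈ Finset.Ioc (30 * M) (31 * M), vonMangoldt.residueClass s k := by
    unfold psS
    rw [sub_eq_iff_eq_add, add_comm]
    rw [← Finset.sum_union]
    · congr 1
      ext k
      rw [Finset.mem_union, Finset.mem_Icc, Finset.mem_Icc, Finset.mem_Ioc]
      omega
    · rw [Finset.disjoint_left]
      intro k hk hk2
      rw [Finset.mem_Icc] at hk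
      rw [Finset.mem_Ioc] at hk2
      omega
  have hupper : ∑ k ∈ Finset.Ioc (30 * M) (31 * M), vonMangoldt.residueClass s k ≤
      Real.log D + C2 * Real.sqrt (31 * M) := by
    rw [← Finset.sum_filter_add_sum_filter_not (Finset.Ioc (30 * M) (31 * M)) Nat.Prime]
    apply add_le_add
    · -- primes
      have e1 : ∑ k ∈ (Finset.Ioc (30 * M) (31 * M)).filter Nat.Prime,
          vonMangoldt.residueClass s k ≤
          ∑ k ∈ ((Finset.Ioc (30 * M) (31 * M)).filter Nat.Prime).filter (fun k => k ∣ D),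
            Real.log k := by
        rw [Finset.sum_filter (p := fun k => k ∣ D)]
        apply Finset.sum_le_sum
        intro k hk
        rw [Finset.mem_filter, Finset.mem_Ioc] at hk
        obtain ⟨⟨hk1, hk2⟩, hkp⟩ := hk
        by_cases hks : (k : ZMod q) = s
        · rw [if_pos (hcon k hkp hks hk1 hk2)]
          refine (vonMangoldt.residueClass_le s k).trans ?_
          rw [vonMangoldt_apply_prime hkp]
        · unfold vonMangoldt.residueClass
          rw [Set.indicator_of_notMem (by simpa using hks)]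
          split_ifs
          · exact Real.log_nonneg (by exact_mod_cast hkp.one_lt.le)
          · exact le_rfl
      refine e1.trans ?_
      have hprod : (∏ k ∈ ((Finset.Ioc (30 * M) (31 * M)).filter Nat.Prime).filter
          (fun k => k ∣ D), k) ∣ D := by
        apply Finset.prod_primes_dvd
        · intro p hp
          rw [Finset.mem_filter, Finset.mem_filter] at hp
          exact hp.1.2.prime
        · intro p hp
          rw [Finset.mem_filter] at hp
          exact hp.2
      have hle := Nat.le_of_dvd hD0 hprod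
      have hle' : (∏ k ∈ ((Finset.Ioc (30 * M) (31 * M)).filter Nat.Prime).filter
          (fun k => k ∣ D), (k : ℝ)) ≤ D := by
        have h8 := (Nat.cast_le (α := ℝ)).2 hle
        rwa [Nat.cast_prod] at h8
      have hpos : ∀ k ∈ ((Finset.Ioc (30 * M) (31 * M)).filter Nat.Prime).filter
          (fun k => k ∣ D), (0 : ℝ) < k := by
        intro k hk
        rw [Finset.mem_filter, Finset.mem_filter] at hk
        exact_mod_cast hk.1.2.pos
      rw [← Real.log_prod (fun k hk => (hpos k hk).ne')]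
      exact Real.log_le_log (Finset.prod_pos hpos) hle'
    · -- prime powers
      have e1 : ∑ k ∈ (Finset.Ioc (30 * M) (31 * M)).filter (fun k => ¬ k.Prime),
          vonMangoldt.residueClass s k ≤
          ∑ k ∈ (Finset.Icc 1 (31 * M)).filter (fun k => ¬ k.Prime), vonMangoldt k := by
        refine (Finset.sum_le_sum (fun k _ => vonMangoldt.residueClass_le s k)).trans ?_
        apply Finset.sum_le_sum_of_subset_of_nonneg
        · intro k hk
          rw [Finset.mem_filter, Finset.mem_Ioc] at hk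
          rw [Finset.mem_filter, Finset.mem_Icc]
          exact ⟨⟨by omega, hk.1.2⟩, hk.2⟩
        · intro k _ _
          exact vonMangoldt_nonneg
      refine e1.trans ?_
      have e2 := hC2 ((31 * M : ℕ) : ℝ)
      have e3 : ∑ k ∈ (Finset.Icc 1 (31 * M)).filter (fun k => ¬ k.Prime), vonMangoldt k =
          Chebyshev.psi ((31 * M : ℕ) : ℝ) - Chebyshev.theta ((31 * M : ℕ) : ℝ) := by
        rw [Chebyshev.theta_eq_sum_primesLE_log]
        unfold Chebyshev.psi
        rw [Nat.floor_natCast]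
        have e4 : ∑ p ∈ Nat.primesLE (31 * M), Real.log p =
            ∑ k ∈ (Finset.Icc 1 (31 * M)).filter Nat.Prime, vonMangoldt k := by
          have e5 : Nat.primesLE (31 * M) = (Finset.Icc 1 (31 * M)).filter Nat.Prime := by
            ext p
            rw [Nat.mem_primesLE, Finset.mem_filter, Finset.mem_Icc]
            constructor
            · rintro ⟨h5, h6⟩
              exact ⟨⟨h6.one_lt.le, h5⟩, h6⟩
            · rintro ⟨⟨_, h5⟩, h6⟩
              exact ⟨h5, h6⟩
          rw [e5]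
          apply Finset.sum_congr rfl
          intro p hp
          rw [vonMangoldt_apply_prime (Finset.mem_filter.mp hp).2]
        rw [e4]
        have e6 : Finset.Ioc 0 (31 * M) = Finset.Icc 1 (31 * M) := by
          ext k
          rw [Finset.mem_Ioc, Finset.mem_Icc]
          omega
        rw [e6, ← Finset.sum_filter_add_sum_filter_not (Finset.Icc 1 (31 * M)) Nat.Prime]
        ring
      rw [e3]
      rw [c1] at e2 ⊢
      exact e2
  have hlogD : Real.log D ≤ M / (4 * q) := by
    have hD0' : (0 : ℝ) < D := by exact_mod_cast hD0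
    have := Real.log_le_log hD0' hD
    rwa [Real.log_exp] at this
  have h4q : (M : ℝ) / (4 * q) ≤ φ⁻¹ / 4 * M := by
    rw [div_le_iff₀ (by positivity)]
    have h9 : φ⁻¹ * q ≥ 1 := by
      rw [ge_iff_le, inv_mul_eq_div, le_div_iff₀ hφpos]
      linarith
    nlinarith
  rw [hε] at a1 a2
  have hMφ : 0 < φ⁻¹ * M := by positivity
  nlinarith

section

variable [C : CA]

/-- the average cost of the second pole. -/
def cost : ℝ := (∑ s : (ZMod C.c)ˣ, (C.c : ℝ) / C.L s) / (C.c.totient : ℝ)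

theorem dd_bound (ε : ℝ) (hε : 0 < ε) : ∃ K : ℝ, ∀ n : ℕ,
    ∑ p ∈ (Finset.range (C.c * n + C.a + 1)).filter Nat.Prime, (dd 0 p n : ℝ) * Real.log p ≤
      (cost + ε) * n + K := by
  classical
  have hc2 := C.hc
  have hcr : (2 : ℝ) ≤ C.c := by exact_mod_cast hc2
  have hφ0 : 0 < C.c.totient := Nat.totient_pos.mpr (by omega)
  have hφpos : (0 : ℝ) < C.c.totient := by exact_mod_cast hφ0
  have hφle : (C.c.totient : ℝ) ≤ C.c := by exact_mod_cast Nat.totient_le C.c
  obtain ⟨C2, hC2⟩ := Chebyshev.psi_sub_theta_le_mul_sqrt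
  -- C2 sqrt N <= ε/(4c) * N + C3
  have hsq : ∀ x : ℝ, 0 ≤ x → C2 * Real.sqrt x ≤ ε / (4 * C.c) * x + C.c * C2 ^ 2 / ε := by
    intro x hx
    have h1 := Real.sq_sqrt hx
    have h2 : 0 ≤ (Real.sqrt x - 2 * C.c * C2 / ε) ^ 2 := sq_nonneg _
    have h3 : C2 * Real.sqrt x = ε / (4 * C.c) * (Real.sqrt x ^ 2 + (2 * C.c * C2 / ε) ^ 2 -
        (Real.sqrt x - 2 * C.c * C2 / ε) ^ 2) := by
      field_simp
      ring
    have h4 : ε / (4 * C.c) * (2 * C.c * C2 / ε) ^ 2 = C.c * C2 ^ 2 / ε := by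
      field_simp
      ring
    rw [h3, h1]
    have h5 : 0 ≤ ε / (4 * C.c) := by positivity
    nlinarith
  -- the classes
  have hcls : ∀ s : (ZMod C.c)ˣ, ∃ K : ℝ, 0 ≤ K ∧ ∀ n : ℕ,
      psS (s : ZMod C.c) n ≤ ((C.c.totient : ℝ)⁻¹ + ε / (4 * C.c ^ 2)) * n + K :=
    fun s => psS_upper s.isUnit _ (by positivity)
  choose Ks hKs0 hKs using hcls
  set A : ℝ := ∑ q ∈ C.c.primeFactors, Real.log q with hA
  refine ⟨(ε / (4 * C.c) * C.a + C.c * C2 ^ 2 / ε) + (∑ s, Ks s) +
    (C.a : ℝ) * (∑ s : (ZMod C.c)ˣ, ((C.c.totient : ℝ)⁻¹ + ε / (4 * C.c ^ 2))) + A, ?_⟩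
  intro n
  set N : ℕ := C.c * n + C.a with hN
  have hN0 : 0 < N := by have := C.ha; omega
  have hNr : (N : ℝ) = C.c * n + C.a := by rw [hN]; push_cast; ring
  have hNpos : (0 : ℝ) < N := by exact_mod_cast hN0
  rw [← primesLE_eq]
  -- pointwise
  have hpt : ∀ p ∈ Nat.primesLE N, (dd 0 p n : ℝ) * Real.log p ≤
      ((Nat.log p N : ℝ) * Real.log p - Real.log p) +
        (if LL p * p ≤ N then Real.log p else 0) := by
    intro p hp
    rw [Nat.mem_primesLE] at hp
    obtain ⟨hpN, hpp⟩ := hp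
    have hlogp : 0 ≤ Real.log p := Real.log_nonneg (by exact_mod_cast hpp.one_lt.le)
    have h1 : 1 ≤ Nat.log p N := Nat.log_pos hpp.one_lt hpN
    have h1' : (1 : ℝ) ≤ Nat.log p N := by exact_mod_cast h1
    unfold dd
    rw [← hN]
    by_cases h3 : LL p * p ≤ N
    · rw [if_pos (Or.inr h3), if_pos h3]
      linarith
    · rw [if_neg (by push Not; exact ⟨hpp.pos, by omega⟩), if_neg h3]
      push_cast
      nlinarith
  refine (Finset.sum_le_sum hpt).trans ?_
  rw [Finset.sum_add_distrib, Finset.sum_sub_distrib,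
    ← Chebyshev.psi_eq_sum_mul_log_prime, ← Chebyshev.theta_eq_sum_primesLE_log]
  -- the classes
  have hB : ∑ p ∈ Nat.primesLE N, (if LL p * p ≤ N then Real.log p else 0) ≤
      ∑ s : (ZMod C.c)ˣ, psS (s : ZMod C.c) (N / C.L s) + A := by
    have e1 : ∀ p ∈ Nat.primesLE N, (if LL p * p ≤ N then Real.log p else 0) ≤
        ∑ s : (ZMod C.c)ˣ, (if (p : ZMod C.c) = s ∧ C.L s * p ≤ N then Real.log p else 0) +
          (if p ∣ C.c then Real.log p else 0) := by
      intro p hp
      rw [Nat.mem_primesLE] at hp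
      obtain ⟨hpN, hpp⟩ := hp
      have hlogp : 0 ≤ Real.log p := Real.log_nonneg (by exact_mod_cast hpp.one_lt.le)
      have hnn : 0 ≤ ∑ s : (ZMod C.c)ˣ,
          (if (p : ZMod C.c) = s ∧ C.L s * p ≤ N then Real.log p else 0) := by
        apply Finset.sum_nonneg
        intro s _
        split_ifs <;> linarith
      by_cases hpc : p ∣ C.c
      · rw [if_pos hpc]
        split_ifs <;> linarith
      · rw [if_neg hpc, add_zero]
        split_ifs with h3
        · have hu : IsUnit (p : ZMod C.c) :=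
            (ZMod.isUnit_iff_coprime p C.c).mpr ((Nat.Prime.coprime_iff_not_dvd hpp).mpr hpc)
          obtain ⟨u, hu'⟩ := hu
          have e2 : Real.log p = (if (p : ZMod C.c) = u ∧ C.L u * p ≤ N then Real.log p else 0) := by
            rw [if_pos]
            refine ⟨hu'.symm, ?_⟩
            rw [hu']
            exact h3
          calc Real.log p = (if (p : ZMod C.c) = u ∧ C.L u * p ≤ N then Real.log p else 0) := e2
            _ ≤ _ := by
              apply Finset.single_le_sum (f := fun s : (ZMod C.c)ˣ =>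
                (if (p : ZMod C.c) = s ∧ C.L s * p ≤ N then Real.log p else 0)) _
                (Finset.mem_univ u)
              intro s _
              split_ifs <;> linarith
        · exact hnn
    refine (Finset.sum_le_sum e1).trans ?_
    rw [Finset.sum_add_distrib, Finset.sum_comm]
    apply add_le_add
    · apply Finset.sum_le_sum
      intro s _
      rw [← Finset.sum_filter]
      apply theta_class_le
      intro p hp
      rw [Finset.mem_filter, Nat.mem_primesLE] at hp
      refine ⟨hp.1.2, hp.2.1, ?_⟩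
      rw [Nat.le_div_iff_mul_le (C.hL0 _), mul_comm]
      exact hp.2.2
    · rw [← Finset.sum_filter, hA]
      apply Finset.sum_le_sum_of_subset_of_nonneg
      · intro p hp
        rw [Finset.mem_filter, Nat.mem_primesLE] at hp
        rw [Nat.mem_primeFactors]
        exact ⟨hp.1.2, hp.2, by omega⟩
      · intro p hp _
        exact Real.log_nonneg (by exact_mod_cast (Nat.prime_of_mem_primeFactors hp).one_lt.le)
  have hD : ∑ s : (ZMod C.c)ˣ, psS (s : ZMod C.c) (N / C.L s) ≤
      ∑ s : (ZMod C.c)ˣ, (((C.c.totient : ℝ)⁻¹ + ε / (4 * C.c ^ 2)) * (N / C.L s) + Ks s) := by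
    apply Finset.sum_le_sum
    intro s _
    refine (hKs s (N / C.L s)).trans ?_
    have h5 : ((N / C.L s : ℕ) : ℝ) ≤ N / C.L s := Nat.cast_div_le
    have h6 : 0 ≤ (C.c.totient : ℝ)⁻¹ + ε / (4 * C.c ^ 2) := by positivity
    have := mul_le_mul_of_nonneg_left h5 h6
    linarith
  have hL1 : ∀ s : (ZMod C.c)ˣ, (1 : ℝ) ≤ C.L s := fun s => by exact_mod_cast C.hL0 _
  have hE : ∑ s : (ZMod C.c)ˣ, (((C.c.totient : ℝ)⁻¹ + ε / (4 * C.c ^ 2)) * (N / C.L s) + Ks s) ≤
      (cost + ε / 4) * n + (C.a : ℝ) * (∑ s : (ZMod C.c)ˣ,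
        ((C.c.totient : ℝ)⁻¹ + ε / (4 * C.c ^ 2))) + ∑ s, Ks s := by
    rw [Finset.sum_add_distrib]
    have h7 : ∑ s : (ZMod C.c)ˣ, ((C.c.totient : ℝ)⁻¹ + ε / (4 * C.c ^ 2)) * (N / C.L s) ≤
        (cost + ε / 4) * n + (C.a : ℝ) * (∑ s : (ZMod C.c)ˣ,
          ((C.c.totient : ℝ)⁻¹ + ε / (4 * C.c ^ 2))) := by
      have h8 : ∀ s : (ZMod C.c)ˣ, ((C.c.totient : ℝ)⁻¹ + ε / (4 * C.c ^ 2)) * (N / C.L s) ≤
          ((C.c.totient : ℝ)⁻¹ * ((C.c : ℝ) / C.L s) + ε / (4 * C.c)) * n +
            C.a * ((C.c.totient : ℝ)⁻¹ + ε / (4 * C.c ^ 2)) := by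
        intro s
        have h9 := hL1 s
        have h10 : (N : ℝ) / C.L s = (C.c / C.L s) * n + C.a / C.L s := by
          rw [hNr]; ring
        have h11 : (C.a : ℝ) / C.L s ≤ C.a := div_le_self (Nat.cast_nonneg _) h9
        have h12 : (C.c : ℝ) / C.L s ≤ C.c := div_le_self (Nat.cast_nonneg _) h9
        have h13 : 0 ≤ (C.c.totient : ℝ)⁻¹ + ε / (4 * C.c ^ 2) := by positivity
        have h14 := mul_le_mul_of_nonneg_left h11 h13
        have h15 : ε / (4 * C.c ^ 2) * ((C.c / C.L s) * n) ≤ ε / (4 * C.c) * n := by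
          have h16 : ε / (4 * (C.c : ℝ) ^ 2) * (C.c : ℝ) = ε / (4 * C.c) := by
            field_simp
          have h17 : ε / (4 * (C.c : ℝ) ^ 2) * (C.c / C.L s) ≤ ε / (4 * C.c) := by
            rw [← h16]
            exact mul_le_mul_of_nonneg_left h12 (by positivity)
          have := mul_le_mul_of_nonneg_right h17 (Nat.cast_nonneg (α := ℝ) n)
          linarith
        rw [h10]
        nlinarith
      refine (Finset.sum_le_sum (fun s _ => h8 s)).trans ?_
      rw [Finset.sum_add_distrib, ← Finset.sum_mul, Finset.sum_add_distrib, ← Finset.mul_sum,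
        ← Finset.mul_sum, Finset.sum_const, nsmul_eq_mul]
      have h18 : (C.c.totient : ℝ)⁻¹ * ∑ s : (ZMod C.c)ˣ, (C.c : ℝ) / C.L s = cost := by
        unfold cost
        rw [inv_mul_eq_div]
      rw [h18]
      have h19 : ((Finset.univ : Finset (ZMod C.c)ˣ).card : ℝ) * (ε / (4 * C.c)) ≤ ε / 4 := by
        have h20 : ((Finset.univ : Finset (ZMod C.c)ˣ).card : ℝ) = C.c.totient := by
          rw [Finset.card_univ, ZMod.card_units_eq_totient]
        rw [h20]
        have h21 : (C.c.totient : ℝ) * (ε / (4 * C.c)) ≤ C.c * (ε / (4 * C.c)) :=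
          mul_le_mul_of_nonneg_right hφle (by positivity)
        refine h21.trans (le_of_eq ?_)
        field_simp
      have := mul_le_mul_of_nonneg_right h19 (Nat.cast_nonneg (α := ℝ) n)
      linarith
    linarith
  have hF := hC2 (N : ℝ)
  have hG := hsq N hNpos.le
  have hH : ε / (4 * C.c) * (N : ℝ) = ε / 4 * n + ε / (4 * C.c) * C.a := by
    rw [hNr]
    field_simp
  rw [hH] at hG
  have hn : (0 : ℝ) ≤ n := Nat.cast_nonneg n
  nlinarith

end

end

end Run7.h510.G
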