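import Mathlib
import Pool.Agent.Run7.h257.TwoA
import Pool.Agent.Run7.h257.Odd
import Pool.Agent.Run7.h510.G.Defs
import Pool.Agent.Run7.h510.G.Rec

/-!
The `q`-adic identity (`q ∣ c`) and the valuations of `bet` and `rr`.
-/

namespace Run7.h510.G

noncomputable section

open PowerSeries Run7.h257

variable [C : CA] [P : Val]

omit C P in
lemma coeff_natCast_mul' (n : ℕ) (a : ℕ) (f : ℚ⟦X⟧) :
    PowerSeries.coeff n ((a : ℚ⟦X⟧) * f) = a * PowerSeries.coeff n f := by
  have : (a : ℚ⟦X⟧) = PowerSeries.C (a : ℚ) := by simp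
  rw [this, PowerSeries.coeff_C_mul]

omit P in
/-- uniqueness for `a f + c T f = g`. -/
lemma TT_unique (f g : ℚ⟦X⟧) (h : (C.a : ℚ⟦X⟧) * f + (C.c : ℚ⟦X⟧) * TT f = (C.a : ℚ⟦X⟧) * g + (C.c : ℚ⟦X⟧) * TT g) :
    f = g := by
  have ha : (0 : ℚ) < C.a := by exact_mod_cast C.ha
  have hs : ∀ n, PowerSeries.coeff n f = PowerSeries.coeff n g := by
    intro n
    induction n with
    | zero =>
      have := congrArg (PowerSeries.coeff 0) h
      simp only [map_add, coeff_natCast_mul', TT_zero, mul_zero, add_zero] at this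
      exact mul_left_cancel₀ ha.ne' this
    | succ n ih =>
      have := congrArg (PowerSeries.coeff (n + 1)) h
      simp only [map_add, coeff_natCast_mul', TT_succ] at this
      rw [ih] at this
      have h3 : (C.c * ((n : ℚ) + 1) + C.a) *
          (PowerSeries.coeff (n + 1) f - PowerSeries.coeff (n + 1) g) = 0 := by
        linear_combination this
      have h4 : (C.c * ((n : ℚ) + 1) + C.a) ≠ 0 := (ca_pos _ (by positivity)).ne'
      have h5 := (mul_eq_zero.mp h3).resolve_left h4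
      linarith
  ext n
  exact hs n

omit P in
lemma bet_ode : (C.a : ℚ⟦X⟧) * PowerSeries.mk bet + (C.c : ℚ⟦X⟧) * TT (PowerSeries.mk bet) =
    1 + X := by
  have ha : (0 : ℚ) < C.a := by exact_mod_cast C.ha
  have hc : (0 : ℚ) ≤ C.c := by positivity
  ext n
  rcases n with _ | n
  · simp only [map_add, coeff_natCast_mul', TT_zero, PowerSeries.coeff_mk, bet,
      PowerSeries.coeff_one, PowerSeries.coeff_X]
    norm_num
    field_simp
  · simp only [map_add, coeff_natCast_mul', TT_succ, PowerSeries.coeff_mk, PowerSeries.coeff_one,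
      PowerSeries.coeff_X]
    rcases n with _ | n
    · simp only [bet, zero_add]
      have : (C.c : ℚ) + C.a ≠ 0 := by positivity
      norm_num
      field_simp
      ring
    · rw [if_neg (by omega), if_neg (by omega)]
      have h1 : (C.c * ((n : ℚ) + 2) + C.a) ≠ 0 := (ca_pos _ (by positivity)).ne'
      have h2 : bet (n + 1 + 1) = -C.c * (n + 1) * bet (n + 1) / (C.c * (n + 2) + C.a) := rfl
      rw [h2]
      push_cast
      field_simp
      ring

lemma rr_ode : (C.a : ℚ⟦X⟧) * PowerSeries.mk rr + (C.c : ℚ⟦X⟧) * TT (PowerSeries.mk rr) =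
    PowerSeries.C (-C.c * (P.D : ℚ)) * (X * PowerSeries.mk bet) +
      PowerSeries.C ((P.N : ℚ)) * (1 + X) := by
  have ha : (0 : ℚ) < C.a := by exact_mod_cast C.ha
  have hc : (0 : ℚ) ≤ C.c := by positivity
  ext n
  rcases n with _ | n
  · simp only [map_add, coeff_natCast_mul', TT_zero, PowerSeries.coeff_mk, rr,
      PowerSeries.coeff_C_mul, PowerSeries.coeff_one, PowerSeries.coeff_X,
      PowerSeries.coeff_zero_X_mul]
    norm_num
    field_simp
  · simp only [map_add, coeff_natCast_mul', PowerSeries.coeff_C_mul, TT_succ, PowerSeries.coeff_mk,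
      PowerSeries.coeff_succ_X_mul, PowerSeries.coeff_one, PowerSeries.coeff_X]
    rcases n with _ | n
    · have : (C.c : ℚ) + C.a ≠ 0 := by positivity
      simp only [bet, rr]
      norm_num
      field_simp
      ring
    · have h1 : (C.c * ((n : ℚ) + 2) + C.a) ≠ 0 := (ca_pos _ (by positivity)).ne'
      have h2 : bet (n + 1 + 1) = -C.c * (n + 1) * bet (n + 1) / (C.c * (n + 2) + C.a) := rfl
      have h3 : harmonic (n + 1) = harmonic n + (n + 1 : ℚ)⁻¹ := by
        rw [harmonic_succ]; push_cast; rfl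
      have h4 : rr (n + 1 + 1) =
          bet (n + 1 + 1) * (P.D * (harmonic (n + 1) - C.c / C.a) + P.N) := by
        unfold rr
        rw [if_neg (by omega)]
        rfl
      have h5 : rr (n + 1) = bet (n + 1) * (P.D * (harmonic n - C.c / C.a) + P.N) := by
        unfold rr
        rw [if_neg (by omega)]
        rfl
      have h6 : ((n : ℚ) + 1) ≠ 0 := by positivity
      rw [h4, h5, h2, h3, if_neg (by omega), if_neg (by omega)]
      push_cast
      field_simp
      ring

lemma gam_ode :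
    (C.a : ℚ⟦X⟧) * PowerSeries.mk gam + (C.c : ℚ⟦X⟧) * TT (PowerSeries.mk gam) =
      (1 + X) * (PowerSeries.C (P.D : ℚ) * PowerSeries.mk lc + PowerSeries.C ((P.N : ℚ))) := by
  have ha : (0 : ℚ) < C.a := by exact_mod_cast C.ha
  have hc : (0 : ℚ) ≤ C.c := by positivity
  ext n
  rcases n with _ | n
  · rw [coeff_onePlus_mul_zero]
    simp only [map_add, coeff_natCast_mul', TT_zero, PowerSeries.coeff_mk, gam,
      PowerSeries.coeff_C_mul, lc, PowerSeries.coeff_C]
    norm_num
    field_simp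
  · rw [coeff_onePlus_mul_succ]
    simp only [map_add, coeff_natCast_mul', TT_succ, PowerSeries.coeff_mk, PowerSeries.coeff_C_mul]
    rcases n with _ | n
    · have : (C.c : ℚ) + C.a ≠ 0 := by positivity
      simp only [zero_add, gam_one, gam_zero, lc, PowerSeries.coeff_C]
      norm_num
      field_simp
      ring
    · have h2 := gam_rec (n + 1 + 1) (by omega)
      have h3 : n + 1 + 1 - 1 = n + 1 := by omega
      rw [h3] at h2
      push_cast at h2
      have h5 : ((n : ℚ) + 1) ≠ 0 := by positivity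
      have h6 : ((n : ℚ) + 1 + 1) ≠ 0 := by positivity
      have h7 : ((n : ℚ) + 1 + 1 - 1) = n + 1 := by ring
      rw [h7] at h2
      have h8 : (P.D : ℚ) * lc (n + 1 + 1) + P.D * lc (n + 1) =
          P.D * ((-1) ^ (n + 1 + 1) / (((n : ℚ) + 1 + 1) * (n + 1))) := by
        unfold lc
        push_cast
        field_simp
        ring
      simp only [PowerSeries.coeff_C]
      rw [if_neg (by omega), if_neg (by omega), add_zero, add_zero, h8, ← h2]
      push_cast
      ring

theorem G_eq : (PowerSeries.mk gam : ℚ⟦X⟧) =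
      PowerSeries.mk bd * PowerSeries.mk lc + PowerSeries.mk rr := by
  have hbd : (PowerSeries.mk bd : ℚ⟦X⟧) = PowerSeries.C (P.D : ℚ) * PowerSeries.mk bet := by
    ext n
    rw [PowerSeries.coeff_C_mul, PowerSeries.coeff_mk, PowerSeries.coeff_mk, bd]
  have hC : TT (PowerSeries.C (P.D : ℚ)) = 0 := by
    unfold TT
    have : derivative ℚ (PowerSeries.C (P.D : ℚ)) = 0 := by
      ext n
      rw [PowerSeries.coeff_derivative, PowerSeries.coeff_C]
      simp
    rw [this]
    simp
  apply TT_unique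
  rw [gam_ode, TT_add, hbd, TT_mul, TT_mul, TT_lc, hC]
  have h3 : (PowerSeries.C (-C.c * (P.D : ℚ)) : ℚ⟦X⟧) = -(C.c : ℚ⟦X⟧) * PowerSeries.C (P.D : ℚ) := by
    rw [map_mul, map_neg, map_natCast]
  have h := rr_ode (C := C) (P := P)
  rw [h3] at h
  linear_combination (-(PowerSeries.C (P.D : ℚ) * PowerSeries.mk lc : ℚ⟦X⟧)) * bet_ode - h

/-! ### valuations -/

omit C P

lemma norm_factorial {q : ℕ} (hq : q.Prime) (k : ℕ) (hk : 1 ≤ k) :
    padicNorm q ((k.factorial : ℕ) : ℚ) ≤
      (q : ℚ) ^ (-((k / (q - 1) : ℕ) : ℤ) + (Nat.log q k + 1 : ℕ)) := by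
  have h2 : Fact q.Prime := ⟨hq⟩
  have h0 : ((k.factorial : ℕ) : ℚ) ≠ 0 := by exact_mod_cast k.factorial_ne_zero
  rw [padicNorm.eq_zpow_of_nonzero h0, padicValRat.of_nat]
  have h3 := sub_one_mul_padicValNat_factorial (p := q) k
  have hq2 := hq.two_le
  have h4 : (Nat.digits q k).sum ≤ (Nat.log q k + 1) * (q - 1) := by
    have h5 : (Nat.digits q k).length = Nat.log q k + 1 := Nat.length_digits q k hq.one_lt (by omega)
    rw [← h5]
    have h6 : ∀ x ∈ Nat.digits q k, x ≤ q - 1 := by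
      intro x hx
      have := Nat.digits_lt_base hq.one_lt hx
      omega
    have h7 := List.sum_le_card_nsmul (Nat.digits q k) (q - 1) h6
    simpa using h7
  apply zpow_le_zpow_right₀ (by exact_mod_cast hq.one_lt.le)
  have h9 : (Nat.digits q k).sum ≤ k := Nat.digit_sum_le q k
  have h10 : k / (q - 1) ≤ padicValNat q k.factorial + (Nat.log q k + 1) := by
    apply Nat.div_le_of_le_mul
    rw [Nat.mul_add, h3, mul_comm (q - 1) (Nat.log q k + 1)]
    omega
  generalize padicValNat q k.factorial = v at h10 ⊢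
  generalize k / (q - 1) = w at h10 ⊢
  omega

variable [C : CA]

lemma not_dvd_ca {q : ℕ} (hq : q.Prime) (hqc : q ∣ C.c) (k : ℕ) : ¬ q ∣ C.c * k + C.a := by
  intro h
  have h1 : q ∣ C.a := (Nat.dvd_add_right (hqc.mul_right k)).mp h
  have h2 : q ∣ Nat.gcd C.a C.c := Nat.dvd_gcd h1 hqc
  rw [C.hcop] at h2
  exact hq.one_lt.ne' (Nat.dvd_one.mp h2)

lemma bet_succ_eq {q : ℕ} (hq : q.Prime) (hqc : q ∣ C.c) (k : ℕ) :
    padicNorm q (bet (k + 1)) =
      (q : ℚ) ^ (-((padicValNat q C.c * k : ℕ) : ℤ)) * padicNorm q ((k.factorial : ℕ) : ℚ) := by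
  have h2 : Fact q.Prime := ⟨hq⟩
  have hq0 : (q : ℚ) ≠ 0 := by exact_mod_cast hq.ne_zero
  have unit_norm : ∀ m : ℕ, ¬ q ∣ m → padicNorm q (m : ℚ) = 1 := by
    intro m hm
    exact (padicNorm.nat_eq_one_iff m).mpr hm
  have hc0 : (C.c : ℚ) ≠ 0 := by
    have := C.hc
    exact_mod_cast (by omega : C.c ≠ 0)
  have n2 : padicNorm q (C.c : ℚ) = (q : ℚ) ^ (-((padicValNat q C.c : ℕ) : ℤ)) := by
    rw [padicNorm.eq_zpow_of_nonzero hc0, padicValRat.of_nat]
  induction k with
  | zero =>
    have h3 : bet 1 = 1 / ((C.c * 1 + C.a : ℕ) : ℚ) := by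
      simp [bet]
    rw [zero_add, h3, padicNorm.div, unit_norm _ (not_dvd_ca hq hqc 1)]
    simp
  | succ k ih =>
    have h3 : bet (k + 1 + 1) =
        -((C.c : ℚ) * ((k + 1 : ℕ) : ℚ) * bet (k + 1)) / ((C.c * (k + 2) + C.a : ℕ) : ℚ) := by
      have : bet (k + 1 + 1) = -C.c * (k + 1) * bet (k + 1) / (C.c * (k + 2) + C.a) := rfl
      rw [this]
      push_cast
      ring
    rw [h3, padicNorm.div, padicNorm.neg, padicNorm.mul, padicNorm.mul, ih,
      unit_norm _ (not_dvd_ca hq hqc (k + 2)), n2, Nat.factorial_succ]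
    have h5 : (((k + 1) * k.factorial : ℕ) : ℚ) = ((k + 1 : ℕ) : ℚ) * ((k.factorial : ℕ) : ℚ) := by
      push_cast; ring
    rw [h5, padicNorm.mul, div_one]
    have h6 : (q : ℚ) ^ (-((padicValNat q C.c * (k + 1) : ℕ) : ℤ)) =
        (q : ℚ) ^ (-((padicValNat q C.c : ℕ) : ℤ)) *
          (q : ℚ) ^ (-((padicValNat q C.c * k : ℕ) : ℤ)) := by
      rw [← zpow_add₀ hq0]
      congr 1
      push_cast
      ring
    rw [h6]
    ring

lemma bet_norm' {q : ℕ} (hq : q.Prime) (hqc : q ∣ C.c) (k : ℕ) :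
    padicNorm q (bet k) ≤
      (q : ℚ) ^ (-((ee q k : ℕ) : ℤ) + (Nat.log q (k + 1) + padicValNat q C.c + 4 : ℕ)) := by
  have h2 : Fact q.Prime := ⟨hq⟩
  have hq1 : (1 : ℚ) ≤ q := by exact_mod_cast hq.one_lt.le
  have hq0 : (q : ℚ) ≠ 0 := by exact_mod_cast hq.ne_zero
  rcases k with _ | k
  · simp only [bet]
    rw [padicNorm.div, padicNorm.one]
    have h3 : padicNorm q (C.a : ℚ) = 1 := by
      have := not_dvd_ca hq hqc 0
      rw [mul_zero, zero_add] at this
      exact (padicNorm.nat_eq_one_iff _).mpr this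
    rw [h3, div_one]
    apply one_le_zpow₀ hq1
    unfold ee
    rw [Nat.mul_zero, Nat.zero_div]
    omega
  · rw [bet_succ_eq hq hqc]
    have hq2 := hq.two_le
    have hdiv : (k + 1) / (q - 1) ≤ k / (q - 1) + 1 := by
      have h4 : k + 1 ≤ k + (q - 1) := by omega
      calc (k + 1) / (q - 1) ≤ (k + (q - 1)) / (q - 1) := Nat.div_le_div_right h4
        _ = k / (q - 1) + 1 := Nat.add_div_right _ (by omega)
    rcases Nat.eq_zero_or_pos k with rfl | hk
    · simp only [Nat.factorial_zero, Nat.cast_one, padicNorm.one, mul_one, mul_zero, Nat.cast_zero,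
        neg_zero, zpow_zero]
      apply one_le_zpow₀ hq1
      unfold ee
      rw [Nat.zero_div] at hdiv
      rw [zero_add] at hdiv ⊢
      rw [Nat.mul_one]
      generalize 1 / (q - 1) = w at hdiv ⊢
      omega
    · calc (q : ℚ) ^ (-((padicValNat q C.c * k : ℕ) : ℤ)) * padicNorm q ((k.factorial : ℕ) : ℚ)
          ≤ (q : ℚ) ^ (-((padicValNat q C.c * k : ℕ) : ℤ)) *
            (q : ℚ) ^ (-((k / (q - 1) : ℕ) : ℤ) + (Nat.log q k + 1 : ℕ)) := by
            gcongr
            exact norm_factorial hq k hk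
        _ = (q : ℚ) ^ (-((padicValNat q C.c * k : ℕ) : ℤ) +
            (-((k / (q - 1) : ℕ) : ℤ) + (Nat.log q k + 1 : ℕ))) := by
            rw [← zpow_add₀ hq0]
        _ ≤ _ := by
            apply zpow_le_zpow_right₀ hq1
            have h5 : Nat.log q k ≤ Nat.log q (k + 1 + 1) := Nat.log_mono_right (by omega)
            unfold ee
            rw [Nat.mul_succ]
            generalize padicValNat q C.c * k = w1 at *
            generalize (k + 1) / (q - 1) = w2 at *
            generalize k / (q - 1) = w3 at *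
            omega

theorem bet_norm {q : ℕ} (hq : q.Prime) (hqc : q ∣ C.c) (k : ℕ) :
    padicNorm q (bet k) ≤ (q : ℚ) ^ (-((ee q k : ℕ) : ℤ) + cc q k) := by
  refine (bet_norm' hq hqc k).trans ?_
  apply zpow_le_zpow_right₀ (by exact_mod_cast hq.one_lt.le)
  unfold cc
  omega

theorem bd_norm [P : Val] {q : ℕ} (hq : q.Prime) (hqc : q ∣ C.c) (k : ℕ) :
    padicNorm q (bd k) ≤ (q : ℚ) ^ (-((ee q k : ℕ) : ℤ) + cc q k) := by
  have h2 : Fact q.Prime := ⟨hq⟩
  unfold bd
  rw [padicNorm.mul]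
  calc padicNorm q (P.D : ℚ) * padicNorm q (bet k) ≤
        1 * (q : ℚ) ^ (-((ee q k : ℕ) : ℤ) + cc q k) :=
        mul_le_mul (nat_norm_le hq _) (bet_norm hq hqc k) (padicNorm.nonneg _) zero_le_one
    _ = _ := one_mul _

lemma fac_norm [P : Val] {q : ℕ} (hq : q.Prime) (hqc : q ∣ C.c) (n : ℕ) :
    padicNorm q (P.D * (harmonic n - C.c / C.a) + P.N) ≤ (q : ℚ) ^ Nat.log q n := by
  have h2 : Fact q.Prime := ⟨hq⟩
  have hq1 : (1 : ℚ) ≤ q := by exact_mod_cast hq.one_lt.le
  have h1 : (1 : ℚ) ≤ (q : ℚ) ^ Nat.log q n := one_le_pow₀ hq1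
  have hA : padicNorm q (harmonic n) ≤ (q : ℚ) ^ Nat.log q n := harm_norm hq n
  have hca : padicNorm q ((C.c : ℚ) / C.a) ≤ 1 := by
    rw [padicNorm.div]
    have h3 : padicNorm q (C.a : ℚ) = 1 := by
      have := not_dvd_ca hq hqc 0
      rw [mul_zero, zero_add] at this
      exact (padicNorm.nat_eq_one_iff _).mpr this
    rw [h3, div_one]
    exact nat_norm_le hq _
  have hB : padicNorm q (harmonic n - C.c / C.a) ≤ (q : ℚ) ^ Nat.log q n :=
    (padicNorm.sub (p := q)).trans (max_le hA (hca.trans h1))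
  refine (padicNorm.nonarchimedean (p := q)).trans (max_le ?_ ?_)
  · rw [padicNorm.mul]
    calc padicNorm q (P.D : ℚ) * padicNorm q (harmonic n - C.c / C.a) ≤
        1 * (q : ℚ) ^ Nat.log q n :=
          mul_le_mul (nat_norm_le hq _) hB (padicNorm.nonneg _) zero_le_one
      _ = _ := one_mul _
  · exact (int_norm_le hq _).trans h1

theorem rr_norm [P : Val] {q : ℕ} (hq : q.Prime) (hqc : q ∣ C.c) (k : ℕ) :
    padicNorm q (rr k) ≤ (q : ℚ) ^ (-((ee q k : ℕ) : ℤ) + cc q k) := by
  have h2 : Fact q.Prime := ⟨hq⟩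
  have hq1 : (1 : ℚ) ≤ q := by exact_mod_cast hq.one_lt.le
  have hq0 : (q : ℚ) ≠ 0 := by exact_mod_cast hq.ne_zero
  unfold rr
  split_ifs with hk
  · rw [padicNorm.div]
    have h3 : padicNorm q (C.a : ℚ) = 1 := by
      have := not_dvd_ca hq hqc 0
      rw [mul_zero, zero_add] at this
      exact (padicNorm.nat_eq_one_iff _).mpr this
    rw [h3, div_one]
    refine (int_norm_le hq _).trans ?_
    apply one_le_zpow₀ hq1
    unfold cc ee
    subst hk
    rw [Nat.mul_zero, Nat.zero_div]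
    omega
  · rw [padicNorm.mul]
    calc padicNorm q (bet k) * padicNorm q (P.D * (harmonic (k - 1) - C.c / C.a) + P.N)
        ≤ (q : ℚ) ^ (-((ee q k : ℕ) : ℤ) + (Nat.log q (k + 1) + padicValNat q C.c + 4 : ℕ)) *
            (q : ℚ) ^ Nat.log q (k - 1) := by
          refine mul_le_mul (bet_norm' hq hqc k) (fac_norm hq hqc _) (padicNorm.nonneg _)
            (by positivity)
      _ = (q : ℚ) ^ ((-((ee q k : ℕ) : ℤ) + (Nat.log q (k + 1) + padicValNat q C.c + 4 : ℕ)) +
            (Nat.log q (k - 1) : ℕ)) := by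
          rw [zpow_add₀ hq0 _ ((Nat.log q (k - 1) : ℕ) : ℤ), zpow_natCast]
      _ ≤ _ := by
          apply zpow_le_zpow_right₀ hq1
          unfold cc
          have h5 : Nat.log q (k - 1) ≤ Nat.log q (k + 1) := Nat.log_mono_right (by omega)
          omega

end

end Run7.h510.G
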