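import Mathlib
import Pool.Agent.Run7.h257.Indep
import Pool.Agent.Run7.h257.Odd
import Pool.Agent.Run7.h361.ZeroEst
import Pool.Agent.Run7.h510.G.Defs

/-!
Zero estimate for the functions `1, log(1+X), G`: a nontrivial combination of
the `30 M` rows does not vanish to order `m + 8M` if `c m + a = (2c-1) p`, for a prime `p > 30 M`
not dividing `D`.
-/

namespace Run7.h510.G

noncomputable section

open PowerSeries Run7.h257 Run7.h361

variable [C : CA] [P : Val]

section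

variable {p : ℕ} (hp : p.Prime)

include hp

omit C in
/-- `‖hk n‖ ≤ 1` for `n < p`. -/
theorem hk_small {n : ℕ} (hn : n < p) : padicNorm p (hk n) ≤ 1 := by
  have : Fact p.Prime := ⟨hp⟩
  unfold hk
  refine (padicNorm.nonarchimedean (p := p)).trans (max_le ?_ (int_norm_le hp _))
  rw [padicNorm.mul]
  exact mul_le_one₀ (nat_norm_le hp _) (padicNorm.nonneg _) (ind_harm_small hp hn)

omit C in
theorem hk_le {n : ℕ} (hn : n < p ^ 2) : padicNorm p (hk n) ≤ p := by
  have : Fact p.Prime := ⟨hp⟩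
  have h1 := ind_p_one hp
  unfold hk
  refine (padicNorm.nonarchimedean (p := p)).trans (max_le ?_ ((int_norm_le hp _).trans h1))
  rw [padicNorm.mul]
  calc padicNorm p (P.D : ℚ) * padicNorm p (harmonic n) ≤ 1 * (p : ℚ) :=
        mul_le_mul (nat_norm_le hp _) (ind_harm_le hp hn) (padicNorm.nonneg _) zero_le_one
    _ = _ := one_mul _

omit C in
theorem hk_mid (hD : ¬ p ∣ P.D) {n : ℕ} (h1 : p ≤ n) (h2 : n < 2 * p) :
    padicNorm p (hk n) = p := by
  have : Fact p.Prime := ⟨hp⟩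
  have hlt : (1 : ℚ) < p := by exact_mod_cast hp.one_lt
  unfold hk
  have e1 : padicNorm p ((P.D : ℚ) * harmonic n) = p := by
    rw [padicNorm.mul, ind_harm_mid hp h1 h2, (padicNorm.nat_eq_one_iff (p := p) P.D).mpr hD,
      one_mul]
  have e2 := int_norm_le hp P.N
  have e3 : padicNorm p ((P.N : ℚ)) < padicNorm p ((P.D : ℚ) * harmonic n) := by
    rw [e1]; linarith
  rw [padicNorm.add_eq_max_of_ne (ne_of_gt e3), max_eq_left e3.le, e1]

omit hp P in
theorem m_bounds (hcp : 4 * C.c < p) {m : ℕ} (hm : C.c * m + C.a = (2 * C.c - 1) * p) :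
    p ≤ m ∧ m < 2 * p := by
  have h1 := C.hc
  have h2 := C.hac
  have h3 := C.ha
  constructor
  · by_contra h
    push Not at h
    have h4 : C.c * m ≤ C.c * (p - 1) := Nat.mul_le_mul_left _ (by omega)
    have h5 : C.c * (p - 1) = C.c * p - C.c := by rw [Nat.mul_sub, Nat.mul_one]
    have h6 : (2 * C.c - 1) * p = C.c * p + (C.c - 1) * p := by
      rw [← Nat.add_mul]
      congr 1
      omega
    have h7 : C.c ≤ C.c * p := Nat.le_mul_of_pos_right _ (by omega)
    omega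
  · by_contra h
    push Not at h
    have h4 : C.c * (2 * p) ≤ C.c * m := Nat.mul_le_mul_left _ h
    have h6 : C.c * (2 * p) = (2 * C.c - 1) * p + p := by
      rw [show C.c * (2 * p) = (2 * C.c - 1 + 1) * p by
        rw [show 2 * C.c - 1 + 1 = 2 * C.c by omega]; ring]
      rw [Nat.add_mul, Nat.one_mul]
    omega

omit P in
theorem m_not_dvd (hcp : 4 * C.c < p) {m : ℕ} (hm : C.c * m + C.a = (2 * C.c - 1) * p)
    {k : ℕ} (h1 : p ≤ k) (h2 : k < m) : ¬ p ∣ C.c * k + C.a := by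
  intro h
  obtain ⟨hb1, hb2⟩ := m_bounds hcp hm
  have h3 : p ∣ C.c * m + C.a := by rw [hm]; exact Nat.dvd_mul_left _ _
  have h4 : p ∣ C.c * (m - k) := by
    have h5 := Nat.dvd_sub h3 h
    have h6 : C.c * m + C.a - (C.c * k + C.a) = C.c * (m - k) := by
      rw [Nat.mul_sub]
      omega
    rwa [h6] at h5
  rcases (Nat.Prime.dvd_mul hp).mp h4 with h5 | h5
  · have := Nat.le_of_dvd (by have := C.hc; omega) h5
    omega
  · have := Nat.le_of_dvd (by omega) h5
    omega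

/-- `‖g_k‖ ≤ p` if `k < m`. -/
theorem gk_le (hcp : 4 * C.c < p) {m : ℕ} (hm : C.c * m + C.a = (2 * C.c - 1) * p)
    {k : ℕ} (hk' : k < m) : padicNorm p (gk k) ≤ p := by
  have : Fact p.Prime := ⟨hp⟩
  obtain ⟨hb1, hb2⟩ := m_bounds hcp hm
  have hca := C.hac
  unfold gk
  rw [div_eq_mul_inv, padicNorm.mul]
  have hpos : (0 : ℚ) ≤ p := by positivity
  have hk2 : k < p ^ 2 := by nlinarith
  by_cases h : k < p
  · have e1 := hk_small hp h
    have hk3 : C.c * k + C.a < p ^ 2 := by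
      have : C.c * k ≤ C.c * (p - 1) := Nat.mul_le_mul_left _ (by omega)
      have h5 : C.c * (p - 1) = C.c * p - C.c := by rw [Nat.mul_sub, Nat.mul_one]
      have h7 : C.c ≤ C.c * p := Nat.le_mul_of_pos_right _ (by omega)
      nlinarith
    have e2 := ind_nat_inv_le hp (m := C.c * k + C.a) (by have := C.ha; omega) hk3
    push_cast at e2
    calc padicNorm p (hk k) * padicNorm p ((C.c * (k : ℚ) + C.a)⁻¹) ≤ 1 * (p : ℚ) :=
          mul_le_mul e1 e2 (padicNorm.nonneg _) zero_le_one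
      _ = _ := one_mul _
  · have e2 := ind_nat_inv hp (m_not_dvd hp hcp hm (by omega) hk')
    push_cast at e2
    rw [e2, mul_one]
    exact hk_le hp hk2

theorem gk_big (hcp : 4 * C.c < p) {m : ℕ} (hm : C.c * m + C.a = (2 * C.c - 1) * p)
    (hD : ¬ p ∣ P.D) : padicNorm p (gk m) = (p : ℚ) ^ 2 := by
  have : Fact p.Prime := ⟨hp⟩
  obtain ⟨hb1, hb2⟩ := m_bounds hcp hm
  unfold gk
  rw [div_eq_mul_inv, padicNorm.mul, hk_mid hp hD (by omega) (by omega)]
  have : (C.c * (m : ℚ) + C.a) = ((2 * C.c - 1 : ℕ) : ℚ) * p := by exact_mod_cast hm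
  rw [this, mul_inv, padicNorm.mul, ind_inv hp (p : ℚ),
    padicNorm.padicNorm_p hp.one_lt, inv_inv]
  have h : ¬ p ∣ (2 * C.c - 1) := fun h => by
    have := Nat.le_of_dvd (by have := C.hc; omega) h
    omega
  have e := ind_nat_inv hp h
  rw [e]
  ring

theorem gk_le2 {k : ℕ} (hk' : C.c * k + C.a < p ^ 2) :
    padicNorm p (gk k) ≤ (p : ℚ) ^ 2 := by
  have : Fact p.Prime := ⟨hp⟩
  have hp0 : (0 : ℚ) < p := by exact_mod_cast hp.pos
  unfold gk
  rw [div_eq_mul_inv, padicNorm.mul]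
  have hk2 : k < p ^ 2 := by
    have : 1 * k ≤ C.c * k := Nat.mul_le_mul_right _ (by have := C.hc; omega)
    omega
  have h1 := hk_le hp hk2
  have h2 := ind_nat_inv_le hp (m := C.c * k + C.a) (by have := C.ha; omega) hk'
  push_cast at h2
  rw [pow_two]
  exact mul_le_mul h1 h2 (padicNorm.nonneg _) hp0.le

theorem gam_term (m k : ℕ) (j : ℕ) :
    padicNorm p ((-1 : ℚ) ^ (m - k) * (m.choose k) * gk j) ≤ padicNorm p (gk j) := by
  have : Fact p.Prime := ⟨hp⟩
  rw [padicNorm.mul, padicNorm.mul]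
  have h1 : padicNorm p ((-1 : ℚ) ^ (m - k)) = 1 := by
    rcases neg_one_pow_eq_or ℚ (m - k) with h | h <;> rw [h] <;> simp
  rw [h1, one_mul]
  have h2 : padicNorm p ((m.choose k : ℕ) : ℚ) ≤ 1 := padicNorm.of_nat _
  have h3 : 0 ≤ padicNorm p (gk j) := padicNorm.nonneg _
  calc _ ≤ 1 * padicNorm p (gk j) := mul_le_mul_of_nonneg_right h2 h3
    _ = _ := one_mul _

theorem gam_le (hcp : 4 * C.c < p) {m : ℕ} (hm : C.c * m + C.a = (2 * C.c - 1) * p)
    {j : ℕ} (hj : j < m) : padicNorm p (gam j) ≤ p := by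
  have : Fact p.Prime := ⟨hp⟩
  cases j with
  | zero =>
    have h1 : gam 0 = gk 0 := by simp [gam, gk, hk]
    rw [h1]
    exact gk_le hp hcp hm hj
  | succ j =>
    unfold gam
    apply padicNorm.sum_le' _ (by positivity)
    intro k hk
    rw [Finset.mem_range] at hk
    exact (gam_term hp j k (k + 1)).trans (gk_le hp hcp hm (by omega))

theorem gam_le2 {j : ℕ} (hj : C.c * j + C.a < p ^ 2) :
    padicNorm p (gam j) ≤ (p : ℚ) ^ 2 := by
  have : Fact p.Prime := ⟨hp⟩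
  cases j with
  | zero =>
    have h1 : gam 0 = gk 0 := by simp [gam, gk, hk]
    rw [h1]
    exact gk_le2 hp hj
  | succ j =>
    unfold gam
    apply padicNorm.sum_le' _ (by positivity)
    intro k hk
    rw [Finset.mem_range] at hk
    refine (gam_term hp j k (k + 1)).trans (gk_le2 hp ?_)
    have : C.c * (k + 1) ≤ C.c * (j + 1) := Nat.mul_le_mul_left _ (by omega)
    omega

theorem gam_big (hcp : 4 * C.c < p) {m : ℕ} (hm : C.c * m + C.a = (2 * C.c - 1) * p)
    (hD : ¬ p ∣ P.D) : padicNorm p (gam m) = (p : ℚ) ^ 2 := by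
  have : Fact p.Prime := ⟨hp⟩
  obtain ⟨hb1, hb2⟩ := m_bounds hcp hm
  have hbig := gk_big hp hcp hm hD
  have hle : ∀ k < m, padicNorm p (gk k) ≤ p := fun k hk' => gk_le hp hcp hm hk'
  cases m with
  | zero => omega
  | succ m =>
    rw [gam, Finset.sum_range_succ]
    have e1 : padicNorm p ((-1 : ℚ) ^ (m - m) * (m.choose m) * gk (m + 1)) = (p : ℚ) ^ 2 := by
      rw [Nat.sub_self, pow_zero, Nat.choose_self, Nat.cast_one, one_mul, one_mul, hbig]
    have e2 : padicNorm p (∑ k ∈ Finset.range m, (-1 : ℚ) ^ (m - k) * (m.choose k) * gk (k + 1))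
        ≤ p := by
      apply padicNorm.sum_le' _ (by positivity)
      intro k hk
      rw [Finset.mem_range] at hk
      exact (gam_term hp m k (k + 1)).trans (hle _ (by omega))
    have hlt : (p : ℚ) < (p : ℚ) ^ 2 := by
      have : (1 : ℚ) < p := by exact_mod_cast hp.one_lt
      nlinarith
    have e3 : padicNorm p (∑ k ∈ Finset.range m, (-1 : ℚ) ^ (m - k) * (m.choose k) * gk (k + 1)) <
      padicNorm p ((-1 : ℚ) ^ (m - m) * (m.choose m) * gk (m + 1)) := by rw [e1]; linarith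
    rw [padicNorm.add_eq_max_of_ne (ne_of_lt e3), max_eq_right e3.le, e1]

end

/-- **Zero estimate.** -/
theorem zero_est {M p : ℕ} (hM : 1 ≤ M) (hp : p.Prime) (hpM : 30 * M < p) (hcp : 4 * C.c < p)
    {m : ℕ} (hm : C.c * m + C.a = (2 * C.c - 1) * p) (hD : ¬ p ∣ P.D)
    (P₀ P₁ P₂ : Polynomial ℚ) (d0 : P₀.natDegree < 12 * M) (d1 : P₁.natDegree < 10 * M)
    (d2 : P₂.natDegree < 8 * M)
    (h : ∀ k < m + 8 * M, PowerSeries.coeff k ((P₀ : ℚ⟦X⟧) +
      (P₁ : ℚ⟦X⟧) * PowerSeries.mk lc + (P₂ : ℚ⟦X⟧) * PowerSeries.mk gam) = 0) :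
    P₀ = 0 ∧ P₁ = 0 ∧ P₂ = 0 := by
  have : Fact p.Prime := ⟨hp⟩
  obtain ⟨hb1, hb2⟩ := m_bounds hcp hm
  have hb3 : p + 10 * M ≤ m := by
    have h1 := C.hc
    have h2 := C.hac
    by_contra hcon
    push Not at hcon
    have h3 : C.c * m ≤ C.c * (p + 10 * M - 1) := Nat.mul_le_mul_left _ (by omega)
    have h4 : C.c * (p + 10 * M - 1) = C.c * p + C.c * (10 * M) - C.c := by
      rw [Nat.mul_sub, Nat.mul_add, Nat.mul_one]
    have h6 : (2 * C.c - 1) * p = C.c * p + (C.c - 1) * p := by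
      rw [← Nat.add_mul]
      congr 1
      omega
    have h7 : (C.c - 1) * (30 * M) ≤ (C.c - 1) * p := Nat.mul_le_mul_left _ hpM.le
    have h8 : C.c * (10 * M) ≤ (C.c - 1) * (30 * M) := by
      have h9 : C.c ≤ 2 * (C.c - 1) := by omega
      have h10 : C.c * (10 * M) ≤ 2 * (C.c - 1) * (10 * M) := Nat.mul_le_mul_right _ h9
      have h11 : 2 * (C.c - 1) * (10 * M) ≤ (C.c - 1) * (30 * M) := by
        have : 2 * (C.c - 1) * (10 * M) = (C.c - 1) * (20 * M) := by ring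
        rw [this]
        exact Nat.mul_le_mul_left _ (by omega)
      omega
    have h12 : C.c ≤ C.c * p := Nat.le_mul_of_pos_right _ (by omega)
    omega
  have hlow : ∀ i < m, padicNorm p (gam i) ≤ p := fun i hi => gam_le hp hcp hm hi
  have hbig := gam_big hp hcp hm hD
  have hlow2 : ∀ i < 3 * p, padicNorm p (gam i) ≤ (p : ℚ) ^ 2 := by
    intro i hi
    apply gam_le2 hp
    have h1 : C.c * i ≤ C.c * (3 * p - 1) := Nat.mul_le_mul_left _ (by omega)
    have h2 : C.c * (3 * p - 1) = C.c * (3 * p) - C.c := by rw [Nat.mul_sub, Nat.mul_one]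
    have h3 := C.hac
    have h4 : C.c ≤ C.c * (3 * p) := Nat.le_mul_of_pos_right _ (by omega)
    nlinarith
  have hp0 : (0 : ℚ) < p := by exact_mod_cast hp.pos
  have hp1 : (1 : ℚ) < p := by exact_mod_cast hp.one_lt
  have h5p : 5 * p < p ^ 2 := by nlinarith
  -- an upper bound for the coefficients of `P₁`
  have hN1 : ∃ N1 : ℚ, 0 ≤ N1 ∧ (∀ j, padicNorm p (P₁.coeff j) ≤ N1) ∧ (P₁ = 0 → N1 = 0) ∧
      (P₁ ≠ 0 → ∃ j₀, j₀ ≤ P₁.natDegree ∧ padicNorm p (P₁.coeff j₀) = N1 ∧ 0 < N1 ∧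
        (∀ j < j₀, padicNorm p (P₁.coeff j) * p ≤ N1)) := by
    by_cases hP : P₁ = 0
    · refine ⟨0, le_rfl, ?_, fun _ => rfl, fun h => absurd hP h⟩
      intro j
      rw [hP, Polynomial.coeff_zero, padicNorm.zero]
    · obtain ⟨j₀, N, hN, hj, h1, h2, h3⟩ := exists_gauss hp P₁ hP
      exact ⟨N, hN.le, h2, fun h => absurd h hP, fun _ => ⟨j₀, hj, h1, hN, h3⟩⟩
  obtain ⟨N1, hN10, hN1, hz1, hnz1⟩ := hN1
  have hN2 : ∃ N2 : ℚ, 0 ≤ N2 ∧ (∀ j, padicNorm p (P₂.coeff j) ≤ N2) ∧ (P₂ = 0 → N2 = 0) ∧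
      (P₂ ≠ 0 → ∃ j₀, j₀ ≤ P₂.natDegree ∧ padicNorm p (P₂.coeff j₀) = N2 ∧ 0 < N2 ∧
        (∀ j < j₀, padicNorm p (P₂.coeff j) * p ≤ N2)) := by
    by_cases hP : P₂ = 0
    · refine ⟨0, le_rfl, ?_, fun _ => rfl, fun h => absurd hP h⟩
      intro j
      rw [hP, Polynomial.coeff_zero, padicNorm.zero]
    · obtain ⟨j₀, N, hN, hj, h1, h2, h3⟩ := exists_gauss hp P₂ hP
      exact ⟨N, hN.le, h2, fun h => absurd h hP, fun _ => ⟨j₀, hj, h1, hN, h3⟩⟩
  obtain ⟨N2, hN20, hN2, hz2, hnz2⟩ := hN2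
  -- step 1
  have step1 : N2 * p ≤ N1 := by
    by_cases hP : P₂ = 0
    · rw [hz2 hP, zero_mul]; exact hN10
    · obtain ⟨j₀, hj, h1, hpos, h3⟩ := hnz2 hP
      have e2 : padicNorm p (PowerSeries.coeff (j₀ + m) ((P₂ : ℚ⟦X⟧) * PowerSeries.mk gam)) =
          N2 * (p : ℚ) ^ 2 := by
        apply coeff_mul_eq hp P₂ _ j₀ m N2 _ hpos (by positivity) h1 hN2 h3
        · rw [PowerSeries.coeff_mk]
          exact hbig
        · intro i hi
          rw [PowerSeries.coeff_mk, pow_two]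
          exact mul_le_mul_of_nonneg_right (hlow i hi) hp0.le
        · intro i hi1 hi2
          rw [PowerSeries.coeff_mk]
          exact hlow2 i (by omega)
      have e1 : padicNorm p (PowerSeries.coeff (j₀ + m) ((P₁ : ℚ⟦X⟧) * PowerSeries.mk lc)) ≤
          N1 * p := by
        apply coeff_mul_le hp P₁ _ _ N1 p hN10 hp0.le hN1
        intro i hi
        rw [PowerSeries.coeff_mk]
        apply ind_lc_le hp
        omega
      have e0 : PowerSeries.coeff (j₀ + m) (P₀ : ℚ⟦X⟧) = 0 := by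
        rw [Polynomial.coeff_coe]
        apply Polynomial.coeff_eq_zero_of_natDegree_lt
        omega
      have h' := h (j₀ + m) (by omega)
      rw [map_add, map_add, e0, zero_add] at h'
      have h'' : PowerSeries.coeff (j₀ + m) ((P₂ : ℚ⟦X⟧) * PowerSeries.mk gam) =
          - PowerSeries.coeff (j₀ + m) ((P₁ : ℚ⟦X⟧) * PowerSeries.mk lc) := by linarith
      rw [h'', padicNorm.neg] at e2
      rw [e2] at e1
      have : N2 * p * p ≤ N1 * p := by nlinarith
      exact le_of_mul_le_mul_right this hp0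
  -- step 2
  have hP1 : P₁ = 0 := by
    by_contra hne
    obtain ⟨j₀, hj, h1, hpos, h3⟩ := hnz1 hne
    have e1 : padicNorm p (PowerSeries.coeff (j₀ + p) ((P₁ : ℚ⟦X⟧) * PowerSeries.mk lc)) =
        N1 * p := by
      apply coeff_mul_eq hp P₁ _ j₀ p N1 _ hpos hp0 h1 hN1 h3
      · rw [PowerSeries.coeff_mk]
        exact ind_lc_p hp
      · intro i hi
        rw [PowerSeries.coeff_mk]
        have := ind_lc_small hp hi
        nlinarith
      · intro i hi1 hi2
        rw [PowerSeries.coeff_mk]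
        apply ind_lc_le hp
        omega
    have e2 : padicNorm p (PowerSeries.coeff (j₀ + p) ((P₂ : ℚ⟦X⟧) * PowerSeries.mk gam)) ≤
        N2 * p := by
      apply coeff_mul_le hp P₂ _ _ N2 p hN20 hp0.le hN2
      intro i hi
      rw [PowerSeries.coeff_mk]
      exact hlow i (by omega)
    have e0 : PowerSeries.coeff (j₀ + p) (P₀ : ℚ⟦X⟧) = 0 := by
      rw [Polynomial.coeff_coe]
      apply Polynomial.coeff_eq_zero_of_natDegree_lt
      omega
    have h' := h (j₀ + p) (by omega)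
    rw [map_add, map_add, e0, zero_add] at h'
    have h'' : PowerSeries.coeff (j₀ + p) ((P₁ : ℚ⟦X⟧) * PowerSeries.mk lc) =
        - PowerSeries.coeff (j₀ + p) ((P₂ : ℚ⟦X⟧) * PowerSeries.mk gam) := by linarith
    rw [h'', padicNorm.neg] at e1
    rw [e1] at e2
    nlinarith
  have hP2 : P₂ = 0 := by
    by_contra hne
    obtain ⟨j₀, hj, h1, hpos, h3⟩ := hnz2 hne
    rw [hz1 hP1] at step1
    nlinarith
  subst hP1
  subst hP2
  refine ⟨?_, rfl, rfl⟩
  ext k
  rw [Polynomial.coeff_zero]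
  by_cases hk : k < 12 * M
  · have h' := h k (by omega)
    simp only [Polynomial.coe_zero, zero_mul, add_zero] at h'
    rwa [Polynomial.coeff_coe] at h'
  · apply Polynomial.coeff_eq_zero_of_natDegree_lt
    omega

end

end Run7.h510.G
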