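import Mathlib
import Pool.Agent.Run7.h510.G.ZeroEst

/-!
The zero estimate for the rows, and the resulting bound for the greedy columns.
-/

namespace Run7.h510.G

noncomputable section

open PowerSeries Run7.h257

variable [C : CA] [P : Val]

theorem rows_zero {M p : ℕ} (hM : 1 ≤ M) (hp : p.Prime) (hpM : 30 * M < p) (hcp : 4 * C.c < p)
    {m : ℕ} (hm : C.c * m + C.a = (2 * C.c - 1) * p) (hD : ¬ p ∣ P.D)
    (g : Fin (30 * M) → ℚ)
    (h : ∀ k < m + 8 * M, ∑ r, g r * PowerSeries.coeff k (row M r) = 0) :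
    ∀ r, g r = 0 := by
  classical
  set Pol : ℕ → Polynomial ℚ := fun i =>
    ∑ r ∈ Finset.univ.filter (fun r : Fin (30 * M) => ty M r = i),
      Polynomial.C (g r) * (1 + Polynomial.X) ^ dg M r with hPol
  have hty : ∀ r : Fin (30 * M), ty M r = 0 ∨ ty M r = 1 ∨ ty M r = 2 := by
    intro r
    unfold ty
    split_ifs <;> simp
  have hdeg : ∀ (i D : ℕ), (∀ r : Fin (30 * M), ty M r = i → dg M r ≤ D) →
      (Pol i).natDegree ≤ D := by
    intro i D hD
    apply Polynomial.natDegree_sum_le_of_forall_le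
    intro r hr
    rw [Finset.mem_filter] at hr
    refine (Polynomial.natDegree_C_mul_le _ _).trans ?_
    refine (Polynomial.natDegree_pow_le).trans ?_
    have h1 : (1 + Polynomial.X : Polynomial ℚ).natDegree ≤ 1 := by
      refine (Polynomial.natDegree_add_le _ _).trans ?_
      simp
    calc dg M r * (1 + Polynomial.X : Polynomial ℚ).natDegree ≤ dg M r * 1 :=
          Nat.mul_le_mul_left _ h1
      _ ≤ D := by rw [mul_one]; exact hD r hr.2
  have d0 : (Pol 0).natDegree < 12 * M := by
    have := hdeg 0 (12 * M - 1) (by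
      intro r hr
      have hr2 := r.2
      unfold ty at hr
      unfold dg
      split_ifs at hr ⊢ <;> omega)
    omega
  have d1 : (Pol 1).natDegree < 10 * M := by
    have := hdeg 1 (10 * M - 1) (by
      intro r hr
      have hr2 := r.2
      unfold ty at hr
      unfold dg
      split_ifs at hr ⊢ <;> omega)
    omega
  have d2 : (Pol 2).natDegree < 8 * M := by
    have := hdeg 2 (8 * M - 1) (by
      intro r hr
      have hr2 := r.2
      unfold ty at hr
      unfold dg
      split_ifs at hr ⊢ <;> omega)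
    omega
  have e : (Pol 0 : ℚ⟦X⟧) + (Pol 1 : ℚ⟦X⟧) * PowerSeries.mk lc +
      (Pol 2 : ℚ⟦X⟧) * PowerSeries.mk gam = ∑ r : Fin (30 * M), g r • row M r := by
    have e0 : ∀ i, (Pol i : ℚ⟦X⟧) =
        ∑ r : Fin (30 * M), if ty M r = i then g r • (1 + X : ℚ⟦X⟧) ^ dg M r else 0 := by
      intro i
      rw [hPol]
      simp only
      rw [← Polynomial.coeToPowerSeries.ringHom_apply, map_sum, Finset.sum_filter]
      apply Finset.sum_congr rfl
      intro r _
      split_ifs
      · rw [map_mul, map_pow, map_add, map_one]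
        simp only [Polynomial.coeToPowerSeries.ringHom_apply, Polynomial.coe_C,
          Polynomial.coe_X]
        rw [PowerSeries.smul_eq_C_mul]
      · rfl
    rw [e0 0, e0 1, e0 2, Finset.sum_mul, Finset.sum_mul, ← Finset.sum_add_distrib,
      ← Finset.sum_add_distrib]
    apply Finset.sum_congr rfl
    intro r _
    rcases hty r with h | h | h <;> simp [row, fs, h]
  obtain ⟨h0, h1, h2⟩ := zero_est hM hp hpM hcp hm hD (Pol 0) (Pol 1) (Pol 2) d0 d1 d2 (by
    intro k hk
    rw [e, map_sum, ← h k hk]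
    apply Finset.sum_congr rfl
    intro r _
    simp)
  intro r
  have hall : Pol (ty M r) = 0 := by
    rcases hty r with h | h | h <;> rw [h] <;> assumption
  refine ind_pow _ g (fun r : Fin (30 * M) => dg M r) ?_ hall r (by simp)
  intro i hi j hj hij
  rw [Finset.mem_filter] at hi hj
  have e : ty M i = ty M j := hi.2.trans hj.2.symm
  have hi2 := i.2
  have hj2 := j.2
  ext
  unfold ty at e
  unfold dg at hij
  split_ifs at e hij <;> omega

/-- the greedy columns are `< m + 8M`. -/
theorem sel_lt {M p : ℕ} (hM : 1 ≤ M) (hp : p.Prime) (hpM : 30 * M < p) (hcp : 4 * C.c < p)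
    {m : ℕ} (hm : C.c * m + C.a = (2 * C.c - 1) * p) (hD : ¬ p ∣ P.D)
    (n : Fin (30 * M) → ℕ)
    (hgr : ∀ (t : Fin (30 * M)) (k : ℕ), k < n t → ∀ c : Fin (30 * M) → ℝ,
      (∀ s, s < t → ∑ r, c r * ((PowerSeries.coeff (n s) (row M r) : ℚ) : ℝ) = 0) →
        ∑ r, c r * ((PowerSeries.coeff k (row M r) : ℚ) : ℝ) = 0) :
    ∀ t, n t < m + 8 * M := by
  intro t
  by_contra hcon
  push Not at hcon
  -- a rational combination vanishing at the columns `n s`, `s < t`
  let φ : (Fin (30 * M) → ℚ) →ₗ[ℚ] (Fin (t : ℕ) → ℚ) :=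
    LinearMap.pi (fun s : Fin (t : ℕ) =>
      ∑ r : Fin (30 * M), (PowerSeries.coeff (n ⟨(s : ℕ), s.2.trans t.2⟩) (row M r) : ℚ) •
        (LinearMap.proj r : (Fin (30 * M) → ℚ) →ₗ[ℚ] ℚ))
  have hker : LinearMap.ker φ ≠ ⊥ := by
    apply LinearMap.ker_ne_bot_of_finrank_lt
    simp
  obtain ⟨c, hc, hc0⟩ := (Submodule.ne_bot_iff _).mp hker
  rw [LinearMap.mem_ker] at hc
  apply hc0
  have hzero := rows_zero hM hp hpM hcp hm hD c (by
    intro k hk
    have h1 := hgr t k (lt_of_lt_of_le hk hcon) (fun r => (c r : ℝ)) (by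
      intro s hs
      have h2 := congrFun hc ⟨(s : ℕ), hs⟩
      simp only [φ, LinearMap.pi_apply, LinearMap.sum_apply, LinearMap.smul_apply,
        LinearMap.proj_apply, smul_eq_mul, Pi.zero_apply] at h2
      have h3 : ∑ r, c r * (PowerSeries.coeff (n s) (row M r) : ℚ) = 0 := by
        rw [← h2]
        apply Finset.sum_congr rfl
        intro r _
        rw [mul_comm]
      exact_mod_cast h3)
    exact_mod_cast h1)
  ext r
  exact hzero r

omit P in
/-- a prime `p ≡ -a` gives the index `m` with `c m + a = (2c-1) p`. -/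
theorem exists_m {p : ℕ} (hpa : (p : ZMod C.c) = -(C.a : ZMod C.c)) (hcp : C.c < p) :
    ∃ m : ℕ, C.c * m + C.a = (2 * C.c - 1) * p := by
  have hc := C.hc
  have hac := C.hac
  have h1 : (((2 * C.c - 1) * p - C.a : ℕ) : ZMod C.c) = 0 := by
    have h2 : C.a ≤ (2 * C.c - 1) * p := by
      have : 1 * p ≤ (2 * C.c - 1) * p := Nat.mul_le_mul_right _ (by omega)
      omega
    rw [Nat.cast_sub h2, Nat.cast_mul, Nat.cast_sub (by omega), hpa]
    push_cast
    rw [ZMod.natCast_self]
    ring
  rw [ZMod.natCast_eq_zero_iff] at h1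
  obtain ⟨m, hm⟩ := h1
  refine ⟨m, ?_⟩
  have : 1 * p ≤ (2 * C.c - 1) * p := Nat.mul_le_mul_right _ (by omega)
  omega

omit P in
theorem neg_a_unit : IsUnit (-(C.a : ZMod C.c)) := by
  rw [IsUnit.neg_iff]
  exact (ZMod.isUnit_iff_coprime C.a C.c).mpr C.hcop

theorem rows_indep (M : ℕ) :
    LinearIndependent ℚ (fun (r : Fin (30 * M)) (n : ℕ) => PowerSeries.coeff n (row M r)) := by
  rcases Nat.eq_zero_or_pos M with rfl | hM
  · have : IsEmpty (Fin (30 * 0)) := by
      rw [mul_zero]
      exact Fin.isEmpty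
    exact linearIndependent_empty_type
  rw [Fintype.linearIndependent_iff]
  intro g hg
  obtain ⟨p, hpB, hp, hpa⟩ := Nat.forall_exists_prime_gt_and_eq_mod neg_a_unit
    (30 * M + P.D + 4 * C.c + 1)
  have hD : ¬ p ∣ P.D := fun h => by
    have := Nat.le_of_dvd P.hD h
    omega
  obtain ⟨m, hm⟩ := exists_m hpa (by omega)
  apply rows_zero hM hp (by omega) (by omega) hm hD g
  intro k _
  have := congrFun hg k
  simpa only [Finset.sum_apply, Pi.smul_apply, smul_eq_mul, Pi.zero_apply] using this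

end

end Run7.h510.G
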