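import Mathlib
import Pool.Agent.Run7.h361.Dens
import Pool.Agent.Run7.h510.G.Upper

/-!
The bad primes have positive lower density.
-/

namespace Run7.h510.G

noncomputable section

open PowerSeries Filter Topology Metric
open Run7.h257 (eL Bw Bw_pos al log_eL sum_wt lc lc_norm psi_bound valF_of_norm det_norm_le
  fin_le_of_strictMono log_abs_ge exists_sel sum_ge_range)
open Run7.h361 (log_eL')

attribute [local instance] Classical.propDecidable

section

variable [C : CA] [P : Val]

/-- the primes `≤ K` which are not good. -/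
def nw (K : ℕ) : Finset ℕ :=
  (Finset.range (K + 1)).filter (fun p => p.Prime ∧ ¬ (2 * C.c < p ∧ Good p))

lemma mem_nw {K p : ℕ} : p ∈ nw K ↔ p ≤ K ∧ p.Prime ∧ ¬ (2 * C.c < p ∧ Good p) := by
  unfold nw
  rw [Finset.mem_filter, Finset.mem_range, Nat.lt_succ_iff]

/-- `0` for good primes, `p` for the others. -/
def Q (p : ℕ) : ℕ := if 2 * C.c < p ∧ Good p then 0 else p

omit P in
/-- the bound for the contribution of a small prime -/
def smB : ℝ := Real.log (4 * C.c ^ 2)

omit P in
lemma smB_nonneg : 0 ≤ smB := by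
  unfold smB
  apply Real.log_nonneg
  have : (2 : ℝ) ≤ C.c := by exact_mod_cast C.hc
  nlinarith

lemma dd_Q_le {p : ℕ} (hp : p.Prime) (n : ℕ) :
    (dd (Q p) p n : ℝ) * Real.log p ≤ (dd 0 p n : ℝ) * Real.log p +
      (if p ≤ C.c * n + C.a ∧ ¬ (2 * C.c < p ∧ Good p) then Real.log p else 0) +
      (if p ≤ 2 * C.c then smB else 0) := by
  have hlog : 0 ≤ Real.log p := Real.log_nonneg (by exact_mod_cast hp.one_lt.le)
  have hsm := smB_nonneg
  by_cases hW : 2 * C.c < p ∧ Good p
  · have : Q p = 0 := by unfold Q; rw [if_pos hW]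
    rw [this]
    split_ifs <;> linarith
  · have hQ : Q p = p := by unfold Q; rw [if_neg hW]
    rw [hQ]
    unfold dd
    rw [if_pos (Or.inl le_rfl)]
    by_cases h : LL p * p ≤ C.c * n + C.a
    · rw [if_pos (Or.inr h)]
      split_ifs <;> linarith
    · rw [if_neg (by push Not; exact ⟨hp.pos, by omega⟩)]
      push Not at h
      by_cases h2 : p ≤ C.c * n + C.a
      · rw [if_pos ⟨h2, hW⟩]
        by_cases h3 : p ≤ 2 * C.c
        · rw [if_pos h3]
          have hN : C.c * n + C.a < 4 * C.c ^ 2 := by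
            have h4 : LL p * p ≤ (2 * C.c) * (2 * C.c) := Nat.mul_le_mul (LL_le p) h3
            nlinarith
          have hN0 : 0 < C.c * n + C.a := by have := C.ha; omega
          have h5 : (Nat.log p (C.c * n + C.a) : ℝ) * Real.log p ≤ smB := by
            rw [← Real.log_pow]
            unfold smB
            apply Real.log_le_log
            · have : (0 : ℝ) < p := by exact_mod_cast hp.pos
              positivity
            · have h6 : p ^ Nat.log p (C.c * n + C.a) ≤ 4 * C.c ^ 2 :=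
                (Nat.pow_log_le_self p hN0.ne').trans hN.le
              exact_mod_cast h6
          push_cast
          linarith
        · rw [if_neg h3]
          have h4 : Nat.log p (C.c * n + C.a) < 2 := by
            apply Nat.log_lt_of_lt_pow (by omega)
            have h5 : LL p * p ≤ p * p := Nat.mul_le_mul_right _ ((LL_le p).trans (by omega))
            rw [pow_two]
            omega
          have h5 : (Nat.log p (C.c * n + C.a) : ℝ) ≤ 1 := by exact_mod_cast (by omega)
          have := mul_le_mul_of_nonneg_right h5 hlog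
          push_cast
          linarith
      · rw [Nat.log_of_lt (by omega)]
        push_cast
        split_ifs <;> linarith

omit P in
/-- the total gain rate. -/
def gain : ℝ := ∑ q ∈ C.c.primeFactors, Core.kap q * Real.log q

end

variable [C : CA]

/-- lower bound for the determinant, with the loss at the primes which are not good. -/
lemma lowerD (ε : ℝ) (hε : 0 < ε) : ∃ K₀ : ℝ, ∀ (P : Val) (M : ℕ), 1 ≤ M →
    ∀ n : Fin (30 * M) → ℕ, StrictMono n → (mat M n).det ≠ 0 →
    ∀ K : ℕ, (∀ t, C.c * n t + C.a ≤ K) →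
      (71 * gain - ε) * (M : ℝ) ^ 2 - K₀ * M - ε * ∑ t, (n t : ℝ) -
        (1 + ε) * ∑ t : Fin (30 * M), (if 12 * M ≤ (t : ℕ) then (n t : ℝ) else 0) -
        (cost + ε) * ∑ t : Fin (30 * M), (if 22 * M ≤ (t : ℕ) then (n t : ℝ) else 0) -
        8 * M * ∑ p ∈ nw K, Real.log p ≤
      Real.log |((mat M n).det : ℝ)| := by
  obtain ⟨C1, h1⟩ := psi_bound ε hε
  obtain ⟨C2, h2⟩ := dd_bound ε hε
  -- the primes dividing `c`
  set T := C.c.primeFactors with hT
  have hTp : ∀ q ∈ T, q.Prime ∧ q ∣ C.c := fun q hq =>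
    ⟨Nat.prime_of_mem_primeFactors hq, Nat.dvd_of_mem_primeFactors hq⟩
  set W : ℝ := 1 + (T.card : ℝ) + ∑ q ∈ T, Real.log q with hW
  have hlogT : ∀ q ∈ T, 0 ≤ Real.log q := fun q hq =>
    Real.log_nonneg (by exact_mod_cast (hTp q hq).1.one_lt.le)
  have hlogT0 : 0 ≤ ∑ q ∈ T, Real.log q := Finset.sum_nonneg hlogT
  have hcard0 : (0 : ℝ) ≤ T.card := Nat.cast_nonneg _
  have hW1 : 1 ≤ W := by rw [hW]; linarith
  set ε' : ℝ := ε / W with hε'
  have hε'0 : 0 < ε' := by positivity
  have hε'W : ε' * W = ε := by rw [hε']; field_simp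
  have h3 : ∀ q : T, ∃ K : ℝ, ∀ (P : Val) (M : ℕ), 1 ≤ M →
      ∀ n : Fin (30 * M) → ℕ, StrictMono n → (mat M n).det ≠ 0 →
      (71 * Core.kap (q : ℕ) - ε') * (M : ℝ) ^ 2 - K * M - ∑ t, (Nat.log q (n t) : ℝ) ≤
        (padicValRat q (mat M n).det : ℝ) :=
    fun q => q_bound (hTp q q.2).1 (hTp q q.2).2 ε' hε'0
  choose C3 h3 using h3
  have h4 : ∀ q : T, ∃ K : ℝ, ∀ m : ℕ, (Nat.log q m : ℝ) * Real.log (q : ℕ) ≤ ε' * m + K :=
    fun q => logF_bound (hTp q q.2).1 ε' hε'0
  choose C4 h4 using h4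
  set K3 : ℝ := ∑ q ∈ T.attach, Real.log (q : ℕ) * C3 q with hK3
  set K4 : ℝ := ∑ q ∈ T.attach, |C4 q| with hK4
  have hsmB := smB_nonneg
  set B : ℝ := (2 * C.c + 1) * smB with hB
  have hB0 : 0 ≤ B := by rw [hB]; positivity
  refine ⟨30 * (|C1| + (|C2| + B) + K4) + K3, ?_⟩
  intro P M hM n hn hdet K hK
  have hharm : ∀ p : ℕ, p.Prime → Q p < p → 2 * C.c < p ∧ Good p := by
    intro p hp hPp
    unfold Q at hPp
    by_contra hcon
    rw [if_neg hcon] at hPp
    exact lt_irrefl _ hPp
  have hval : ∀ p : ℕ, p.Prime →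
      -(((∑ t : Fin (30 * M), (if 12 * M ≤ (t : ℕ) then Nat.log p (n t) else 0) +
        ∑ t : Fin (30 * M), (if 22 * M ≤ (t : ℕ) then dd (Q p) p (n t) else 0) : ℕ) : ℤ)) ≤
        padicValRat p (mat M n).det := by
    intro p hp
    apply valF_of_norm hp hdet
    apply det_norm_le hp (mat M n) (12 * M) (22 * M) (fun t => Nat.log p (n t))
      (fun t => dd (Q p) p (n t))
    · intro s t hst
      exact Nat.log_mono_right (hn.monotone hst)
    · intro s t hst
      exact ddF_mono (Q p) p (hn.monotone hst)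
    · intro r t
      exact row_norm hp (hharm p hp) M r (n t)
  have hM0 : 0 < 30 * M := by omega
  set l : Fin (30 * M) := ⟨30 * M - 1, by omega⟩ with hl
  have hnl : ∀ t, n t ≤ n l := fun t => hn.monotone (by
    rw [hl, Fin.le_def]
    have := t.isLt
    simp only
    omega)
  have hl29 : 29 ≤ n l := by
    have := fin_le_of_strictMono n hn l
    rw [hl] at this ⊢
    simp only at this
    omega
  have hcnl : ∀ t, C.c * n t + C.a ≤ C.c * n l + C.a := fun t => by
    have := Nat.mul_le_mul_left C.c (hnl t)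
    omega
  have hncl : ∀ t, n t ≤ C.c * n l + C.a := fun t => by
    have h5 := hcnl t
    have h6 : 1 * n t ≤ C.c * n t := Nat.mul_le_mul_right _ (by have := C.hc; omega)
    omega
  set S : Finset ℕ := (Finset.range (C.c * n l + C.a + 1)).filter Nat.Prime with hS
  have hSp : ∀ p ∈ S, p.Prime := fun p hp => (Finset.mem_filter.mp hp).2
  have hTS : T ⊆ S := by
    intro q hq
    obtain ⟨hqp, hqc⟩ := hTp q hq
    rw [hS, Finset.mem_filter, Finset.mem_range]
    refine ⟨?_, hqp⟩
    have h5 : q ≤ C.c := Nat.le_of_dvd (by have := C.hc; omega) hqc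
    have h6 : C.c * 1 ≤ C.c * n l := Nat.mul_le_mul_left _ (by omega)
    omega
  have hout : ∀ p : ℕ, p.Prime → p ∉ S → 0 ≤ padicValRat p (mat M n).det := by
    intro p hp hpS
    have hpl : C.c * n l + C.a + 1 ≤ p := by
      by_contra hcon
      apply hpS
      rw [hS, Finset.mem_filter, Finset.mem_range]
      exact ⟨by omega, hp⟩
    have := hval p hp
    have z1 : ∑ t : Fin (30 * M), (if 12 * M ≤ (t : ℕ) then Nat.log p (n t) else 0) = 0 := by
      apply Finset.sum_eq_zero
      intro t _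
      have := hncl t
      rw [Nat.log_of_lt (by omega)]
      simp
    have z2 : ∑ t : Fin (30 * M), (if 22 * M ≤ (t : ℕ) then dd (Q p) p (n t) else 0) = 0 := by
      apply Finset.sum_eq_zero
      intro t _
      have := hcnl t
      rw [ddF_eq_zero (by omega)]
      simp
    rw [z1, z2] at this
    simpa using this
  have hprod := log_abs_ge hdet S hSp hout
  rw [← Finset.sum_sdiff hTS] at hprod
  have hs0nn : 0 ≤ ∑ t, (n t : ℝ) := Finset.sum_nonneg (fun t _ => Nat.cast_nonneg _)
  have hMr : (0 : ℝ) ≤ M := Nat.cast_nonneg _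
  -- the part of `c`
  have hcpart : (71 * gain - ε) * (M : ℝ) ^ 2 - K3 * M - (ε * ∑ t, (n t : ℝ) + 30 * M * K4) ≤
      ∑ q ∈ T, (padicValRat q (mat M n).det : ℝ) * Real.log q := by
    rw [← Finset.sum_attach T (fun q => (padicValRat q (mat M n).det : ℝ) * Real.log q)]
    have e1 : ∀ q ∈ T.attach, Real.log (q : ℕ) * (71 * Core.kap (q : ℕ)) * (M : ℝ) ^ 2 -
        ε' * (M : ℝ) ^ 2 * Real.log (q : ℕ) - (Real.log (q : ℕ) * C3 q) * M -
        (ε' * ∑ t, (n t : ℝ) + 30 * M * |C4 q|) ≤
        (padicValRat q (mat M n).det : ℝ) * Real.log (q : ℕ) := by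
      intro q _
      have hlq := hlogT q q.2
      have f1 := mul_le_mul_of_nonneg_right (h3 q P M hM n hn hdet) hlq
      have f2 : (∑ t, (Nat.log q (n t) : ℝ)) * Real.log (q : ℕ) ≤
          ε' * ∑ t, (n t : ℝ) + 30 * M * |C4 q| := by
        rw [Finset.sum_mul, Finset.mul_sum]
        have : ∀ t ∈ (Finset.univ : Finset (Fin (30 * M))),
            (Nat.log q (n t) : ℝ) * Real.log (q : ℕ) ≤ ε' * (n t : ℝ) + |C4 q| := by
          intro t _
          exact (h4 q (n t)).trans (by linarith [le_abs_self (C4 q)])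
        refine (Finset.sum_le_sum this).trans (le_of_eq ?_)
        rw [Finset.sum_add_distrib, Finset.sum_const, Finset.card_univ, Fintype.card_fin,
          nsmul_eq_mul]
        push_cast
        ring
      nlinarith
    refine le_trans ?_ (Finset.sum_le_sum e1)
    have e0 : ∑ q ∈ T.attach, (ε' * ∑ t, (n t : ℝ) + 30 * M * |C4 q|) =
        T.card * (ε' * ∑ t, (n t : ℝ)) + 30 * M * K4 := by
      rw [Finset.sum_add_distrib, Finset.sum_const, Finset.card_attach, nsmul_eq_mul,
        ← Finset.mul_sum, ← hK4]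
    rw [Finset.sum_sub_distrib, Finset.sum_sub_distrib, Finset.sum_sub_distrib, e0,
      ← Finset.sum_mul, ← Finset.mul_sum, ← Finset.sum_mul, ← hK3]
    have e2 : ∑ q ∈ T.attach, Real.log (q : ℕ) * (71 * Core.kap (q : ℕ)) = 71 * gain := by
      rw [Finset.sum_attach T (fun q => Real.log q * (71 * Core.kap q))]
      unfold gain
      rw [Finset.mul_sum]
      apply Finset.sum_congr rfl
      intro q _
      ring
    have e3 : ∑ q ∈ T.attach, Real.log (q : ℕ) = ∑ q ∈ T, Real.log q :=
      Finset.sum_attach T (fun q => Real.log q)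
    rw [e2, e3]
    have e4 : ε' * ∑ q ∈ T, Real.log q ≤ ε := by
      rw [← hε'W]
      apply mul_le_mul_of_nonneg_left _ hε'0.le
      rw [hW]
      linarith
    have e5 : (T.card : ℝ) * ε' ≤ ε := by
      rw [← hε'W, mul_comm]
      apply mul_le_mul_of_nonneg_left _ hε'0.le
      rw [hW]
      linarith
    have e6 := mul_le_mul_of_nonneg_right e4 (sq_nonneg (M : ℝ))
    have e7 := mul_le_mul_of_nonneg_right e5 hs0nn
    nlinarith
  -- the other part
  have hodd : -(∑ p ∈ S, ((∑ t : Fin (30 * M), (if 12 * M ≤ (t : ℕ) then (Nat.log p (n t) : ℝ) else 0)) +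
        ∑ t : Fin (30 * M), (if 22 * M ≤ (t : ℕ) then (dd (Q p) p (n t) : ℝ) else 0)) * Real.log p) ≤
      ∑ p ∈ S \ T, (padicValRat p (mat M n).det : ℝ) * Real.log p := by
    have e1 : ∑ p ∈ S \ T, ((∑ t : Fin (30 * M),
        (if 12 * M ≤ (t : ℕ) then (Nat.log p (n t) : ℝ) else 0)) +
        ∑ t : Fin (30 * M), (if 22 * M ≤ (t : ℕ) then (dd (Q p) p (n t) : ℝ) else 0)) * Real.log p ≤
        ∑ p ∈ S, ((∑ t : Fin (30 * M), (if 12 * M ≤ (t : ℕ) then (Nat.log p (n t) : ℝ) else 0)) +
        ∑ t : Fin (30 * M), (if 22 * M ≤ (t : ℕ) then (dd (Q p) p (n t) : ℝ) else 0)) * Real.log p := by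
      apply Finset.sum_le_sum_of_subset_of_nonneg Finset.sdiff_subset
      intro p hp _
      apply mul_nonneg
      · apply add_nonneg <;>
        · apply Finset.sum_nonneg
          intro t _
          split_ifs <;> positivity
      · exact Real.log_nonneg (by exact_mod_cast (hSp p hp).one_lt.le)
    refine le_trans (neg_le_neg e1) ?_
    rw [← Finset.sum_neg_distrib]
    apply Finset.sum_le_sum
    intro p hp
    have hpS := (Finset.mem_sdiff.mp hp).1
    have hpp := hSp p hpS
    have hv := hval p hpp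
    have hlogp : 0 ≤ Real.log p := Real.log_nonneg (by exact_mod_cast hpp.one_lt.le)
    rw [← neg_mul]
    apply mul_le_mul_of_nonneg_right _ hlogp
    have hv' : (((-(((∑ t : Fin (30 * M), (if 12 * M ≤ (t : ℕ) then Nat.log p (n t) else 0) +
        ∑ t : Fin (30 * M), (if 22 * M ≤ (t : ℕ) then dd (Q p) p (n t) else 0) : ℕ) : ℤ)) : ℤ)) : ℝ) ≤
        ((padicValRat p (mat M n).det : ℤ) : ℝ) := by exact_mod_cast hv
    push_cast at hv'
    linarith
  have hA : ∑ p ∈ S, ((∑ t : Fin (30 * M), (if 12 * M ≤ (t : ℕ) then (Nat.log p (n t) : ℝ) else 0)) +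
        ∑ t : Fin (30 * M), (if 22 * M ≤ (t : ℕ) then (dd (Q p) p (n t) : ℝ) else 0)) * Real.log p =
      (∑ t : Fin (30 * M), (if 12 * M ≤ (t : ℕ) then
        ∑ p ∈ S, (Nat.log p (n t) : ℝ) * Real.log p else 0)) +
      ∑ t : Fin (30 * M), (if 22 * M ≤ (t : ℕ) then
        ∑ p ∈ S, (dd (Q p) p (n t) : ℝ) * Real.log p else 0) := by
    have : ∀ (m : ℕ) (f : ℕ → Fin (30 * M) → ℝ),
        ∑ p ∈ S, (∑ t : Fin (30 * M), (if m ≤ (t : ℕ) then f p t else 0)) * Real.log p =
        ∑ t : Fin (30 * M), (if m ≤ (t : ℕ) then ∑ p ∈ S, f p t * Real.log p else 0) := by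
      intro m f
      simp_rw [Finset.sum_mul]
      rw [Finset.sum_comm]
      apply Finset.sum_congr rfl
      intro t _
      split_ifs with h
      · rfl
      · simp
    simp_rw [add_mul]
    rw [Finset.sum_add_distrib, this (12 * M) (fun p t => (Nat.log p (n t) : ℝ)),
      this (22 * M) (fun p t => (dd (Q p) p (n t) : ℝ))]
  have hB1 : ∀ t : Fin (30 * M), ∑ p ∈ S, (Nat.log p (n t) : ℝ) * Real.log p ≤
      (1 + ε) * n t + |C1| := by
    intro t
    have e1 : ∑ p ∈ (Finset.range (n t + 1)).filter Nat.Prime, (Nat.log p (n t) : ℝ) * Real.log p =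
        ∑ p ∈ S, (Nat.log p (n t) : ℝ) * Real.log p := by
      apply Finset.sum_subset
      · intro p hp
        rw [Finset.mem_filter, Finset.mem_range] at hp
        rw [hS, Finset.mem_filter, Finset.mem_range]
        have := hncl t
        exact ⟨by omega, hp.2⟩
      · intro p hpS hp
        have : n t < p := by
          by_contra hcon
          apply hp
          rw [Finset.mem_filter, Finset.mem_range]
          exact ⟨by omega, hSp p hpS⟩
        rw [Nat.log_of_lt this]
        simp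
    rw [← e1]
    exact (h1 (n t)).trans (by linarith [le_abs_self C1])
  set Θ : ℝ := ∑ p ∈ nw K, Real.log p with hΘ
  have hΘ0 : 0 ≤ Θ := Finset.sum_nonneg (fun p hp => Real.log_nonneg (by
    exact_mod_cast (mem_nw.mp hp).2.1.one_lt.le))
  have hB2 : ∀ t : Fin (30 * M), ∑ p ∈ S, (dd (Q p) p (n t) : ℝ) * Real.log p ≤
      (cost + ε) * n t + (|C2| + B) + Θ := by
    intro t
    have e1 : ∑ p ∈ (Finset.range (C.c * n t + C.a + 1)).filter Nat.Prime,
        (dd 0 p (n t) : ℝ) * Real.log p = ∑ p ∈ S, (dd 0 p (n t) : ℝ) * Real.log p := by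
      apply Finset.sum_subset
      · intro p hp
        rw [Finset.mem_filter, Finset.mem_range] at hp
        rw [hS, Finset.mem_filter, Finset.mem_range]
        have := hcnl t
        exact ⟨by omega, hp.2⟩
      · intro p hpS hp
        have : C.c * n t + C.a < p := by
          by_contra hcon
          apply hp
          rw [Finset.mem_filter, Finset.mem_range]
          exact ⟨by omega, hSp p hpS⟩
        rw [ddF_eq_zero this]
        simp
    have e2 : ∑ p ∈ S, (dd (Q p) p (n t) : ℝ) * Real.log p ≤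
        ∑ p ∈ S, (dd 0 p (n t) : ℝ) * Real.log p +
        ∑ p ∈ S, (if p ≤ C.c * n t + C.a ∧ ¬ (2 * C.c < p ∧ Good p) then Real.log p else 0) +
        ∑ p ∈ S, (if p ≤ 2 * C.c then smB else 0) := by
      rw [← Finset.sum_add_distrib, ← Finset.sum_add_distrib]
      exact Finset.sum_le_sum (fun p hp => dd_Q_le (hSp p hp) _)
    have e3 : ∑ p ∈ S, (if p ≤ C.c * n t + C.a ∧ ¬ (2 * C.c < p ∧ Good p) then Real.log p else 0) ≤
        Θ := by
      rw [← Finset.sum_filter, hΘ]
      apply Finset.sum_le_sum_of_subset_of_nonneg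
      · intro p hp
        rw [Finset.mem_filter] at hp
        rw [mem_nw]
        have := hK t
        exact ⟨by omega, hSp p hp.1, hp.2.2⟩
      · intro p hp _
        exact Real.log_nonneg (by exact_mod_cast (mem_nw.mp hp).2.1.one_lt.le)
    have e5 : ∑ p ∈ S, (if p ≤ 2 * C.c then smB else 0) ≤ B := by
      rw [← Finset.sum_filter, Finset.sum_const, nsmul_eq_mul, hB]
      apply mul_le_mul_of_nonneg_right _ hsmB
      have e6 : (S.filter (fun p => p ≤ 2 * C.c)).card ≤ 2 * C.c + 1 := by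
        have e7 : S.filter (fun p => p ≤ 2 * C.c) ⊆ Finset.range (2 * C.c + 1) := by
          intro p hp
          rw [Finset.mem_filter] at hp
          rw [Finset.mem_range]
          omega
        have := Finset.card_le_card e7
        rwa [Finset.card_range] at this
      exact_mod_cast e6
    have e4 := h2 (n t)
    rw [e1] at e4
    linarith [le_abs_self C2]
  have hgen : ∀ (m : ℕ) (κ C : ℝ) (_ : 0 ≤ C) (f : Fin (30 * M) → ℝ)
      (_ : ∀ t, f t ≤ κ * n t + C),
      ∑ t : Fin (30 * M), (if m ≤ (t : ℕ) then f t else 0) ≤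
        κ * ∑ t : Fin (30 * M), (if m ≤ (t : ℕ) then (n t : ℝ) else 0) + 30 * M * C := by
    intro m κ C hC f hf
    rw [Finset.mul_sum]
    have : ∀ t ∈ (Finset.univ : Finset (Fin (30 * M))), (if m ≤ (t : ℕ) then f t else 0) ≤
        κ * (if m ≤ (t : ℕ) then (n t : ℝ) else 0) + C := by
      intro t _
      split_ifs
      · exact hf t
      · linarith
    refine (Finset.sum_le_sum this).trans (le_of_eq ?_)
    rw [Finset.sum_add_distrib, Finset.sum_const, Finset.card_univ, Fintype.card_fin, nsmul_eq_mul]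
    push_cast
    ring
  have hC1 := hgen (12 * M) (1 + ε) |C1| (abs_nonneg _) _ hB1
  have hC2' := hgen (22 * M) (cost + ε) (|C2| + B) (by positivity)
    (fun t => ∑ p ∈ S, (dd (Q p) p (n t) : ℝ) * Real.log p - Θ) (fun t => by
      have := hB2 t
      linarith)
  have hcount : ∑ t : Fin (30 * M), (if 22 * M ≤ (t : ℕ) then Θ else 0) = 8 * M * Θ := by
    rw [Fin.sum_univ_eq_sum_range (fun i : ℕ => if 22 * M ≤ i then Θ else 0) (30 * M),
      ← Finset.sum_filter, Finset.sum_const, nsmul_eq_mul]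
    have : (Finset.range (30 * M)).filter (fun i => 22 * M ≤ i) = Finset.Ico (22 * M) (30 * M) := by
      ext i
      rw [Finset.mem_filter, Finset.mem_range, Finset.mem_Ico, and_comm]
    rw [this, Nat.card_Ico]
    have h8 : 30 * M - 22 * M = 8 * M := by omega
    rw [h8]
    push_cast
    ring
  have hC2 : ∑ t : Fin (30 * M), (if 22 * M ≤ (t : ℕ) then
      ∑ p ∈ S, (dd (Q p) p (n t) : ℝ) * Real.log p else 0) ≤
      (cost + ε) * ∑ t : Fin (30 * M), (if 22 * M ≤ (t : ℕ) then (n t : ℝ) else 0) +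
        30 * M * (|C2| + B) + 8 * M * Θ := by
    rw [← hcount]
    have : ∑ t : Fin (30 * M), (if 22 * M ≤ (t : ℕ) then
        ∑ p ∈ S, (dd (Q p) p (n t) : ℝ) * Real.log p else 0) =
        ∑ t : Fin (30 * M), (if 22 * M ≤ (t : ℕ) then
        (∑ p ∈ S, (dd (Q p) p (n t) : ℝ) * Real.log p - Θ) else 0) +
        ∑ t : Fin (30 * M), (if 22 * M ≤ (t : ℕ) then Θ else 0) := by
      rw [← Finset.sum_add_distrib]
      apply Finset.sum_congr rfl
      intro t _
      split_ifs <;> ring
    rw [this]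
    linarith
  rw [hA] at hodd
  nlinarith

omit C in
/-- gaps of a strictly monotone sequence. -/
lemma gap_le {N : ℕ} (n : Fin N → ℕ) (hn : StrictMono n) (s : Fin N) :
    ∀ (k : ℕ) (h : (s : ℕ) + k < N), n s + k ≤ n ⟨(s : ℕ) + k, h⟩ := by
  intro k
  induction k with
  | zero => intro h; simp
  | succ k ih =>
    intro h
    have h1 := ih (by omega)
    have h2 : n ⟨(s : ℕ) + k, by omega⟩ < n ⟨(s : ℕ) + (k + 1), h⟩ := by
      apply hn
      rw [Fin.lt_def]
      simp only
      omega
    omega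

/-- the margin in the main inequality. -/
def margin : ℝ := 54.3 + 71 * gain - 208 * cost - 320 * max 0 (cost - 0.954)

lemma cost_nonneg : 0 ≤ cost := by
  unfold cost
  apply div_nonneg
  · apply Finset.sum_nonneg
    intro s _
    positivity
  · positivity

/-- the main inequality. -/
theorem theta_nw (μ η : ℝ) (hη : 0 ≤ η) (hμ : μ + 30 * η < margin)
    (hηc : η ≤ 1 / (4 * C.c)) : ∃ M₀ : ℕ, ∀ (P : Val) (M : ℕ), M₀ ≤ M →
    P.ht ≤ Real.exp (η * M) → μ / 8 * (M : ℝ) ≤ ∑ p ∈ nw (70 * C.c * M), Real.log p := by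
  set ρ : ℝ := margin - 30 * η - μ with hρ
  have hρ0 : 0 < ρ := by rw [hρ]; linarith
  set ε : ℝ := ρ / 16802 with hε
  have hε0 : 0 < ε := by positivity
  obtain ⟨K, hK0, hup⟩ := upper ε hε0
  obtain ⟨K', hlow⟩ := lowerD ε hε0
  obtain ⟨M₁, hM₁⟩ := exists_prime_class neg_a_unit
  have hc2 := C.hc
  have hcr : (2 : ℝ) ≤ C.c := by exact_mod_cast hc2
  have hcost := cost_nonneg
  -- the inequality for every M
  have key : ∀ (P : Val) (M : ℕ), C.c + 1 ≤ M → M₁ ≤ M → P.ht ≤ Real.exp (η * M) →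
      (margin - 30 * η - ρ / 2) * (M : ℝ) ^ 2 ≤ 30 * M * Real.log (K * M) + (K' + 30) * M +
        8 * M * ∑ p ∈ nw (70 * C.c * M), Real.log p := by
    intro P M hMc hMM hht
    have hM : 1 ≤ M := by omega
    have hP1 := P.one_le_ht
    have hMr : (1 : ℝ) ≤ M := by exact_mod_cast hM
    have hDle : (P.D : ℝ) ≤ Real.exp (M / (4 * C.c)) := by
      refine le_trans ?_ (hht.trans (Real.exp_le_exp.mpr ?_))
      · unfold Val.ht
        have := abs_nonneg (P.N : ℝ)
        linarith
      · have := mul_le_mul_of_nonneg_right hηc (show (0 : ℝ) ≤ M by linarith)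
        refine this.trans (le_of_eq ?_)
        ring
    obtain ⟨n, hn, hdet, hgr⟩ := exists_sel _ (rows_indep M)
    obtain ⟨p, hp, hpa, hp1, hp2, hpD⟩ := hM₁ M hMM P.D P.hD hDle
    obtain ⟨m, hm⟩ := exists_m hpa (by omega)
    have hnlt := sel_lt hM hp hp1 (by omega) hm hpD n hgr
    have hm62 : m < 62 * M := by
      have h1 : C.c * m < C.c * (62 * M) := by
        have h2 : (2 * C.c - 1) * p < 2 * C.c * p :=
          Nat.mul_lt_mul_of_pos_right (by omega) hp.pos
        have h3 : 2 * C.c * p ≤ 2 * C.c * (31 * M) := Nat.mul_le_mul_left _ hp2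
        have h4 : 2 * C.c * (31 * M) = C.c * (62 * M) := by ring
        omega
      exact Nat.lt_of_mul_lt_mul_left h1
    have hn70 : ∀ t, n t < 70 * M := by
      intro t
      have := hnlt t
      omega
    have hK : ∀ t, C.c * n t + C.a ≤ 70 * C.c * M := by
      intro t
      have h0 : C.c * (n t + 1) ≤ C.c * (70 * M) := Nat.mul_le_mul_left _ (hn70 t)
      have h1 : C.c * (70 * M) = 70 * C.c * M := by ring
      have h2 := C.hac
      rw [mul_add] at h0
      omega
    have hdet' : (mat M n).det ≠ 0 := hdet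
    have u := hup P M hM n hdet' hgr
    have hloght : Real.log (K * P.ht * M) ≤ Real.log (K * M) + η * M := by
      have e1 : K * P.ht * M = (K * M) * P.ht := by ring
      rw [e1, Real.log_mul (by positivity) (by positivity)]
      have := Real.log_le_log (by linarith) hht
      rw [Real.log_exp] at this
      linarith
    have u' : 30 * (M : ℝ) * Real.log (K * P.ht * M) ≤
        30 * M * Real.log (K * M) + 30 * η * (M : ℝ) ^ 2 := by
      have := mul_le_mul_of_nonneg_left hloght (show (0 : ℝ) ≤ 30 * M by positivity)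
      refine this.trans (le_of_eq ?_)
      ring
    have l := hlow P M hM n hn hdet' _ hK
    set Θ := ∑ p ∈ nw (70 * C.c * M), Real.log p with hΘ
    set s0 := ∑ t, (n t : ℝ) with hs0
    set s1 := ∑ t : Fin (30 * M), (if 12 * M ≤ (t : ℕ) then (n t : ℝ) else 0) with hs1
    set s2 := ∑ t : Fin (30 * M), (if 22 * M ≤ (t : ℕ) then (n t : ℝ) else 0) with hs2
    have hlogE := log_eL'
    have hs0nn : 0 ≤ s0 := Finset.sum_nonneg (fun t _ => Nat.cast_nonneg _)
    have hs1le : s1 ≤ s0 := by
      rw [hs1, hs0]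
      apply Finset.sum_le_sum
      intro t _
      have := Nat.cast_nonneg (α := ℝ) (n t)
      split_ifs <;> linarith
    have hs2le : s2 ≤ s0 := by
      rw [hs2, hs0]
      apply Finset.sum_le_sum
      intro t _
      have := Nat.cast_nonneg (α := ℝ) (n t)
      split_ifs <;> linarith
    have hs0le : s0 ≤ 2100 * (M : ℝ) ^ 2 := by
      have : ∀ t ∈ (Finset.univ : Finset (Fin (30 * M))), (n t : ℝ) ≤ 70 * M := by
        intro t _
        exact_mod_cast (hn70 t).le
      refine (Finset.sum_le_sum this).trans (le_of_eq ?_)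
      rw [Finset.sum_const, Finset.card_univ, Fintype.card_fin, nsmul_eq_mul]
      push_cast
      ring
    set κ : ℝ := max 0 (cost - 0.954) with hκ
    have hκ0 : 0 ≤ κ := le_max_left _ _
    have hκ1 : cost - 0.954 ≤ κ := le_max_right _ _
    -- the sequence `n` against `t`
    have hgap1 : ∀ t : Fin (30 * M), ((t : ℕ) : ℝ) ≤ n t := fun t => by
      exact_mod_cast fin_le_of_strictMono n hn t
    have hgap2 : ∀ t : Fin (30 * M), (n t : ℝ) ≤ (t : ℕ) + 40 * M := by
      intro t
      have ht := t.2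
      have h1 := gap_le n hn t (30 * M - 1 - t) (by omega)
      have h2 := hn70 ⟨(t : ℕ) + (30 * M - 1 - t), by omega⟩
      have h3 : n t ≤ t + 40 * M := by omega
      exact_mod_cast h3
    have hsum : ∑ t : Fin (30 * M), ((1.954 - (if 12 * M ≤ (t : ℕ) then 1 else 0) -
        (if 22 * M ≤ (t : ℕ) then cost else 0) : ℝ) * ((t : ℕ) : ℝ) -
        (if 22 * M ≤ (t : ℕ) then κ * (40 * M) else 0)) ≤
        1.954 * s0 - s1 - cost * s2 := by
      rw [hs0, hs1, hs2, Finset.mul_sum, Finset.mul_sum, ← Finset.sum_sub_distrib,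
        ← Finset.sum_sub_distrib]
      apply Finset.sum_le_sum
      intro t _
      have h1 := hgap1 t
      have h2 := hgap2 t
      by_cases ht : 22 * M ≤ (t : ℕ)
      · have ht' : 12 * M ≤ (t : ℕ) := by omega
        rw [if_pos ht, if_pos ht', if_pos ht, if_pos ht', if_pos ht]
        have h3 : 0 ≤ (κ - (cost - 0.954)) * ((n t : ℝ) - (t : ℕ)) :=
          mul_nonneg (by linarith) (by linarith)
        have h4 : 0 ≤ κ * ((t : ℕ) + 40 * M - (n t : ℝ)) := mul_nonneg hκ0 (by linarith)
        nlinarith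
      · rw [if_neg ht, if_neg ht, if_neg ht]
        split_ifs <;> nlinarith
    have hexact : ∑ t : Fin (30 * M), ((1.954 - (if 12 * M ≤ (t : ℕ) then 1 else 0) -
        (if 22 * M ≤ (t : ℕ) then cost else 0) : ℝ) * ((t : ℕ) : ℝ) -
        (if 22 * M ≤ (t : ℕ) then κ * (40 * M) else 0)) ≥
        (501.3 - 208 * cost - 320 * κ) * (M : ℝ) ^ 2 - 30 * M := by
      have e0 := Fin.sum_univ_eq_sum_range (fun i : ℕ => ((1.954 - (if 12 * M ≤ i then 1 else 0) -
        (if 22 * M ≤ i then cost else 0) : ℝ) * (i : ℝ) -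
        (if 22 * M ≤ i then κ * (40 * M) else 0))) (30 * M)
      rw [e0]
      have e1 := sum_ge_range 0 (30 * M) (by omega)
      have e2 := sum_ge_range (12 * M) (30 * M) (by omega)
      have e3 := sum_ge_range (22 * M) (30 * M) (by omega)
      have e5 : ∑ i ∈ Finset.range (30 * M), (if 22 * M ≤ i then κ * (40 * (M : ℝ)) else 0) =
          8 * M * (κ * (40 * M)) := by
        rw [← Finset.sum_filter, Finset.sum_const, nsmul_eq_mul]
        have : (Finset.range (30 * M)).filter (fun i => 22 * M ≤ i) =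
            Finset.Ico (22 * M) (30 * M) := by
          ext i
          rw [Finset.mem_filter, Finset.mem_range, Finset.mem_Ico, and_comm]
        rw [this, Nat.card_Ico]
        have h8 : 30 * M - 22 * M = 8 * M := by omega
        rw [h8]
        push_cast
        ring
      have e4 : ∑ i ∈ Finset.range (30 * M), ((1.954 - (if 12 * M ≤ i then 1 else 0) -
        (if 22 * M ≤ i then cost else 0) : ℝ) * (i : ℝ) -
        (if 22 * M ≤ i then κ * (40 * M) else 0)) =
        1.954 * ∑ i ∈ Finset.range (30 * M), (if 0 ≤ i then (i : ℝ) else 0) -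
        ∑ i ∈ Finset.range (30 * M), (if 12 * M ≤ i then (i : ℝ) else 0) -
        cost * ∑ i ∈ Finset.range (30 * M), (if 22 * M ≤ i then (i : ℝ) else 0) -
        ∑ i ∈ Finset.range (30 * M), (if 22 * M ≤ i then κ * (40 * (M : ℝ)) else 0) := by
        rw [Finset.mul_sum, Finset.mul_sum, ← Finset.sum_sub_distrib,
          ← Finset.sum_sub_distrib, ← Finset.sum_sub_distrib]
        apply Finset.sum_congr rfl
        intro i _
        rw [if_pos (Nat.zero_le i)]
        split_ifs <;> ring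
      rw [e4, e1, e2, e3, e5]
      push_cast
      nlinarith
    have hm1 : margin = 54.3 + 71 * gain - 208 * cost - 320 * κ := by rw [hκ]; rfl
    have hεs : ε * ((M : ℝ) ^ 2 + 2 * s0 + s1 + s2) ≤ ρ / 2 * (M : ℝ) ^ 2 := by
      have h1 : (M : ℝ) ^ 2 + 2 * s0 + s1 + s2 ≤ 8401 * (M : ℝ) ^ 2 := by linarith
      refine (mul_le_mul_of_nonneg_left h1 hε0.le).trans (le_of_eq ?_)
      rw [hε]
      ring
    have hlogs0 : 1.954 * s0 ≤ Real.log eL * s0 := mul_le_mul_of_nonneg_right hlogE hs0nn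
    have hexp : (margin - 30 * η - ρ / 2) * (M : ℝ) ^ 2 =
        54.3 * (M : ℝ) ^ 2 + 71 * gain * (M : ℝ) ^ 2 - 208 * cost * (M : ℝ) ^ 2 -
        320 * κ * (M : ℝ) ^ 2 - 30 * η * (M : ℝ) ^ 2 - ρ / 2 * (M : ℝ) ^ 2 := by
      rw [hm1]; ring
    rw [hexp]
    nlinarith
  have hlim : Tendsto (fun M : ℕ => (30 * Real.log (K * M) + (K' + 30)) / (M : ℝ)) atTop (𝓝 0) := by
    have l1 : Tendsto (fun x : ℝ => Real.log x / x) atTop (𝓝 0) :=
      Real.isLittleO_log_id_atTop.tendsto_div_nhds_zero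
    have l2 : Tendsto (fun M : ℕ => K * (M : ℝ)) atTop atTop :=
      tendsto_natCast_atTop_atTop.const_mul_atTop hK0
    have l3 := (l1.comp l2).const_mul (30 * K)
    have l4 : Tendsto (fun M : ℕ => (K' + 30) / (M : ℝ)) atTop (𝓝 0) :=
      tendsto_const_div_atTop_nhds_zero_nat _
    have l5 := l3.add l4
    rw [mul_zero, add_zero] at l5
    refine l5.congr ?_
    intro M
    simp only [Function.comp_apply]
    field_simp
  have hev := hlim.eventually (gt_mem_nhds (show (0 : ℝ) < ρ / 2 by linarith))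
  obtain ⟨M₂, hM₂⟩ := eventually_atTop.mp (hev.and (eventually_ge_atTop (C.c + 1)))
  refine ⟨max M₁ M₂, ?_⟩
  intro P M hM hht
  obtain ⟨hM1, hM2⟩ := hM₂ M ((le_max_right _ _).trans hM)
  have hMr : (0 : ℝ) < M := by
    have : 0 < M := by omega
    exact_mod_cast this
  have h1 := key P M hM2 ((le_max_left _ _).trans hM) hht
  rw [div_lt_iff₀ hMr] at hM1
  set Θ := ∑ p ∈ nw (70 * C.c * M), Real.log p with hΘ
  have h2 : μ * (M : ℝ) ^ 2 ≤ 8 * M * Θ := by
    have h3 : μ = (margin - 30 * η - ρ / 2) - ρ / 2 := by rw [hρ]; ring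
    rw [h3, sub_mul]
    nlinarith
  have h3 : M * (μ * (M : ℝ)) ≤ M * (8 * Θ) := by nlinarith
  have h4 := le_of_mul_le_mul_left h3 hMr
  linarith

lemma nw_mono [P : Val] {a b : ℕ} (h : a ≤ b) : nw a ⊆ nw b := by
  intro p hp
  rw [mem_nw] at hp ⊢
  exact ⟨hp.1.trans h, hp.2⟩

/-- **Theorem.** For all large `x` and all parameters of size at most `exp (η' x)` at least
`κ x / log x` primes `p ≤ x` are not good, for `κ < μ / (560 c)`, `η' < η / (70 c)`. -/
theorem density (μ η : ℝ) (hμ0 : 0 < μ) (hη : 0 ≤ η) (hμ : μ + 30 * η < margin)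
    (hηc : η ≤ 1 / (4 * C.c)) (κ η' : ℝ) (hκ : κ < μ / (560 * C.c))
    (hη' : η' * (70 * C.c) < η ∨ (η' = 0 ∧ η = 0)) :
    ∃ x₀ : ℕ, ∀ x : ℕ, x₀ ≤ x → ∀ P : Val, P.ht ≤ Real.exp (η' * x) →
    κ * ((x : ℝ) / Real.log x) ≤ (nw x).card := by
  obtain ⟨M₀, hM₀⟩ := theta_nw μ η hη hμ hηc
  have hc2 := C.hc
  have hcr : (2 : ℝ) ≤ C.c := by exact_mod_cast hc2
  set N : ℕ := 70 * C.c with hN
  have hNr : (N : ℝ) = 70 * C.c := by rw [hN]; push_cast; ring
  have hN0 : 0 < N := by rw [hN]; omega
  have hN0r : (0 : ℝ) < N := by exact_mod_cast hN0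
  -- thresholds
  have hκ' : κ * N < μ / 8 := by
    have h1 : μ / (560 * C.c) * N = μ / 8 := by
      rw [hNr]; field_simp; ring
    have := mul_lt_mul_of_pos_right hκ hN0r
    linarith
  set g : ℝ := μ / 8 - κ * N with hg
  have hg0 : 0 < g := by rw [hg]; linarith
  obtain ⟨x₁, hx₁⟩ : ∃ x₁ : ℕ, ∀ M : ℕ, x₁ ≤ M → |κ| * N ≤ g * M := by
    refine ⟨⌈|κ| * N / g⌉₊, ?_⟩
    intro M hM
    have h1 := Nat.ceil_le.mp hM
    rw [div_le_iff₀ hg0] at h1
    linarith
  obtain ⟨x₂, hx₂⟩ : ∃ x₂ : ℕ, ∀ M : ℕ, x₂ ≤ M → ∀ x : ℕ, N * M ≤ x → x ≤ N * M + N →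
      η' * x ≤ η * M := by
    rcases hη' with h | ⟨h, h'⟩
    · rw [← hNr] at h
      rcases le_or_gt η' 0 with h0 | h0
      · refine ⟨0, ?_⟩
        intro M _ x _ _
        have h1 : η' * x ≤ 0 := mul_nonpos_of_nonpos_of_nonneg h0 (Nat.cast_nonneg _)
        have h2 : 0 ≤ η * M := mul_nonneg hη (Nat.cast_nonneg _)
        linarith
      · have hgap : 0 < η - η' * N := by linarith
        refine ⟨⌈η' * N / (η - η' * N)⌉₊, ?_⟩
        intro M hM x _ hx
        have h1 := Nat.ceil_le.mp hM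
        rw [div_le_iff₀ hgap] at h1
        have h2 : (x : ℝ) ≤ N * M + N := by exact_mod_cast hx
        have h3 := mul_le_mul_of_nonneg_left h2 h0.le
        nlinarith
    · refine ⟨0, ?_⟩
      intro M _ x _ _
      rw [h, h']
      simp
  refine ⟨N * (max M₀ (max x₁ x₂)) + 3 * N, ?_⟩
  intro x hx P hP
  set M := x / N with hMdef
  have hle : N * M ≤ x := Nat.mul_div_le x N
  have hge : x < N * M + N := by
    have := Nat.lt_mul_div_succ x hN0
    rw [Nat.mul_add, Nat.mul_one] at this
    exact this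
  have hMmax : max M₀ (max x₁ x₂) ≤ M := by
    rw [hMdef, Nat.le_div_iff_mul_le hN0, mul_comm]
    omega
  have hM0 : M₀ ≤ M := (le_max_left _ _).trans hMmax
  have hM1 : x₁ ≤ M := (le_max_left _ _).trans ((le_max_right _ _).trans hMmax)
  have hM2 : x₂ ≤ M := (le_max_right _ _).trans ((le_max_right _ _).trans hMmax)
  have hPht : P.ht ≤ Real.exp (η * M) :=
    hP.trans (Real.exp_le_exp.mpr (hx₂ M hM2 x hle hge.le))
  have h1 := hM₀ P M hM0 hPht
  have hx3 : 3 ≤ x := by
    have : 3 * 1 ≤ 3 * N := Nat.mul_le_mul_left _ hN0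
    omega
  have hlogx : 0 < Real.log x := Real.log_pos (by
    have : (3 : ℝ) ≤ x := by exact_mod_cast hx3
    linarith)
  have h2 : ∑ p ∈ nw (N * M), Real.log p ≤ (nw x).card * Real.log x := by
    calc ∑ p ∈ nw (N * M), Real.log p ≤ ∑ p ∈ nw x, Real.log p := by
          apply Finset.sum_le_sum_of_subset_of_nonneg (nw_mono hle)
          intro p hp _
          exact Real.log_nonneg (by exact_mod_cast (mem_nw.mp hp).2.1.one_lt.le)
      _ ≤ ∑ p ∈ nw x, Real.log x := by
          apply Finset.sum_le_sum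
          intro p hp
          have := (mem_nw.mp hp)
          apply Real.log_le_log (by exact_mod_cast this.2.1.pos)
          exact_mod_cast this.1
      _ = (nw x).card * Real.log x := by rw [Finset.sum_const, nsmul_eq_mul]
  have h3 : κ * ((x : ℝ) / Real.log x) = (κ * x) / Real.log x := by ring
  rw [h3, div_le_iff₀ hlogx]
  have h4 : κ * x ≤ μ / 8 * M := by
    have hgeR : (x : ℝ) ≤ N * M + N := by exact_mod_cast hge.le
    have hleR : (N : ℝ) * M ≤ x := by exact_mod_cast hle
    have h5 := hx₁ M hM1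
    have h6 : κ * (x - N * M) ≤ |κ| * N := by
      have h7 : κ * (x - N * M) ≤ |κ| * (x - N * M) :=
        mul_le_mul_of_nonneg_right (le_abs_self κ) (by linarith)
      have h8 : |κ| * (x - N * M) ≤ |κ| * N :=
        mul_le_mul_of_nonneg_left (by linarith) (abs_nonneg _)
      linarith
    have h9 : g * M = μ / 8 * M - κ * N * M := by rw [hg]; ring
    nlinarith
  linarith

end

end Run7.h510.G
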