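import Mathlib
import Pool.Agent.Run7.h510.B3.Dens
import Pool.Agent.Run7.h510.G.Dens

/-!
The case where all residue classes are assumed: `D H_k + N` is not divisible by `p`
for some `k < p` with `p ∣ c k + a`, for a positive proportion of the primes `p`.
-/

namespace Run7.h510.G

noncomputable section

open Filter Topology

attribute [local instance] Classical.propDecidable

/-- Removing the small primes in `density`. -/
theorem density_gt [C : CA] (μ η : ℝ) (hμ0 : 0 < μ) (hη : 0 ≤ η) (hμ : μ + 30 * η < margin)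
    (hηc : η ≤ 1 / (4 * C.c)) (κ η' : ℝ) (hκ : κ < μ / (560 * C.c))
    (hη' : η' * (70 * C.c) < η) :
    ∃ x₀ : ℕ, ∀ x : ℕ, x₀ ≤ x → ∀ P : Val, P.ht ≤ Real.exp (η' * x) →
    κ * ((x : ℝ) / Real.log x) ≤
      (((Finset.range (x + 1)).filter (fun p => p.Prime ∧ 2 * C.c < p ∧ ¬ Good p)).card : ℝ) := by
  obtain ⟨κ₁, hκ1, hκ2⟩ := exists_between hκ
  obtain ⟨x₀, hx₀⟩ := density μ η hμ0 hη hμ hηc κ₁ η' hκ2 (Or.inl hη')
  have hlim : Tendsto (fun x : ℕ => (κ₁ - κ) * ((x : ℝ) / Real.log x)) atTop atTop := by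
    apply Tendsto.const_mul_atTop (by linarith)
    have l1 : Tendsto (fun x : ℝ => Real.log x / x) atTop (𝓝[>] 0) := by
      rw [tendsto_nhdsWithin_iff]
      refine ⟨Real.isLittleO_log_id_atTop.tendsto_div_nhds_zero, ?_⟩
      filter_upwards [eventually_gt_atTop 1] with x hx
      exact div_pos (Real.log_pos hx) (by linarith)
    have l2 := l1.inv_tendsto_nhdsGT_zero.comp tendsto_natCast_atTop_atTop
    refine l2.congr ?_
    intro x
    simp only [Function.comp_apply, Pi.inv_apply, inv_div]
  obtain ⟨x₁, hx₁⟩ := eventually_atTop.mp (hlim.eventually_ge_atTop ((2 * C.c + 1 : ℕ) : ℝ))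
  refine ⟨max x₀ x₁, ?_⟩
  intro x hx P hP
  have h1 := hx₀ x ((le_max_left _ _).trans hx) P hP
  have h2 := hx₁ x ((le_max_right _ _).trans hx)
  have h3 : (nw x).card ≤
      ((Finset.range (x + 1)).filter (fun p => p.Prime ∧ 2 * C.c < p ∧ ¬ Good p)).card +
        (2 * C.c + 1) := by
    have h4 : nw x ⊆ (Finset.range (x + 1)).filter (fun p => p.Prime ∧ 2 * C.c < p ∧ ¬ Good p) ∪
        Finset.range (2 * C.c + 1) := by
      intro p hp
      rw [mem_nw] at hp
      rw [Finset.mem_union, Finset.mem_filter, Finset.mem_range, Finset.mem_range]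
      by_cases h : 2 * C.c < p
      · left
        refine ⟨by omega, hp.2.1, h, ?_⟩
        intro h5
        exact hp.2.2 ⟨h, h5⟩
      · right
        omega
    refine (Finset.card_le_card h4).trans ((Finset.card_union_le _ _).trans ?_)
    rw [Finset.card_range]
  have h3' : ((nw x).card : ℝ) ≤
      (((Finset.range (x + 1)).filter (fun p => p.Prime ∧ 2 * C.c < p ∧ ¬ Good p)).card : ℝ) +
        ((2 * C.c + 1 : ℕ) : ℝ) := by exact_mod_cast h3
  have h6 : (κ₁ - κ) * ((x : ℝ) / Real.log x) =
      κ₁ * ((x : ℝ) / Real.log x) - κ * ((x : ℝ) / Real.log x) := by ring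
  linarith

/-- all classes assumed. -/
@[instance_reducible]
def full (c a : ℕ) (hc : 2 ≤ c) (ha : 0 < a) (hac : a < c) (hcop : Nat.Coprime a c) : CA where
  c := c
  a := a
  hc := hc
  ha := ha
  hac := hac
  hcop := hcop
  L := fun s => c + ((a : ZMod c) * s⁻¹).val
  hL0 := fun s => by omega
  hL := fun s => by
    have : NeZero c := ⟨by omega⟩
    have := ZMod.val_lt ((a : ZMod c) * s⁻¹)
    omega

section
variable (c a : ℕ) (hc : 2 ≤ c) (ha : 0 < a) (hac : a < c) (hcop : Nat.Coprime a c)
include hc ha hac hcop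

theorem full_cost : @cost (full c a hc ha hac hcop) ≤ 3 / 4 := by
  have hne : NeZero c := ⟨by omega⟩
  set f : (ZMod c)ˣ → ℝ := fun m => (c : ℝ) / (c + ((m : ZMod c).val : ℝ)) with hf
  have hcpos : (0 : ℝ) < c := by
    have : 0 < c := by omega
    exact_mod_cast this
  have e1 : @cost (full c a hc ha hac hcop) = (∑ m : (ZMod c)ˣ, f m) / (c.totient : ℝ) := by
    unfold cost
    congr 1
    rw [← Equiv.sum_comp ((Equiv.inv (ZMod c)ˣ).trans
      (Equiv.mulLeft (ZMod.unitOfCoprime a hcop))) f]
    apply Finset.sum_congr rfl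
    intro s _
    rw [hf]
    simp only [Equiv.trans_apply, Equiv.inv_apply, Equiv.coe_mulLeft, Units.val_mul,
      ZMod.coe_unitOfCoprime]
    show (c : ℝ) / ((c + ((a : ZMod c) * (s : ZMod c)⁻¹).val : ℕ) : ℝ) = _
    rw [ZMod.inv_coe_unit]
    push_cast
    rfl
  have e2 : ∑ m : (ZMod c)ˣ, f (-m) = ∑ m : (ZMod c)ˣ, f m :=
    Equiv.sum_comp (Equiv.neg (ZMod c)ˣ) f
  have e3 : ∀ m ∈ (Finset.univ : Finset (ZMod c)ˣ), f m + f (-m) ≤ 3 / 2 := by
    intro m _
    rw [hf]
    simp only [Units.val_neg]
    have hm0 : (m : ZMod c) ≠ 0 := by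
      intro h
      have h1 := m.isUnit
      rw [h] at h1
      have : Nontrivial (ZMod c) := ⟨⟨0, 1, by
        have : Fact (1 < c) := ⟨by omega⟩
        exact zero_ne_one⟩⟩
      exact not_isUnit_zero h1
    rw [ZMod.neg_val, if_neg hm0]
    have hv := ZMod.val_lt (m : ZMod c)
    set v := (m : ZMod c).val with hvdef
    rw [Nat.cast_sub hv.le]
    have hv' : (v : ℝ) ≤ c := by exact_mod_cast hv.le
    have hv0 : (0 : ℝ) ≤ v := Nat.cast_nonneg _
    have h1 : (0 : ℝ) < c + v := by linarith
    have h2 : (0 : ℝ) < c + (c - v) := by linarith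
    rw [div_add_div _ _ h1.ne' h2.ne', div_le_div_iff₀ (mul_pos h1 h2) (by norm_num)]
    nlinarith [mul_nonneg hv0 (sub_nonneg.mpr hv')]
  have e4 : 2 * ∑ m : (ZMod c)ˣ, f m ≤ 3 / 2 * (c.totient : ℝ) := by
    have h1 : 2 * ∑ m : (ZMod c)ˣ, f m = ∑ m : (ZMod c)ˣ, (f m + f (-m)) := by
      rw [Finset.sum_add_distrib, e2]
      ring
    rw [h1]
    refine (Finset.sum_le_sum e3).trans (le_of_eq ?_)
    rw [Finset.sum_const, Finset.card_univ, ZMod.card_units_eq_totient, nsmul_eq_mul]
    ring
  have hφ : (0 : ℝ) < c.totient := by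
    have : 0 < c.totient := Nat.totient_pos.mpr (by omega)
    exact_mod_cast this
  rw [e1, div_le_iff₀ hφ]
  linarith

theorem kap_term {q : ℕ} (hq : q.Prime) :
    0 ≤ @Core.kap (full c a hc ha hac hcop) q * Real.log q := by
  have hq2 : (2 : ℝ) ≤ q := by exact_mod_cast hq.two_le
  apply mul_nonneg
  · unfold Core.kap
    have : (0 : ℝ) < (q : ℝ) - 1 := by linarith
    positivity
  · exact Real.log_nonneg (by linarith)

theorem full_gain (hc3 : 3 ≤ c) : 1.647 ≤ @gain (full c a hc ha hac hcop) := by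
  have hlog2 := Real.log_two_gt_d9
  have hlog3 := Run7.h510.B3.log_three_gt
  -- a prime factor with a large term
  have hmain : ∃ q ∈ c.primeFactors,
      1.647 ≤ @Core.kap (full c a hc ha hac hcop) q * Real.log q := by
    by_cases h4 : 4 ∣ c
    · refine ⟨2, ?_, ?_⟩
      · rw [Nat.mem_primeFactors]
        exact ⟨Nat.prime_two, (by norm_num : 2 ∣ 4).trans h4, by omega⟩
      · have h5 : 2 ≤ padicValNat 2 c := by
          have : Fact (Nat.Prime 2) := ⟨Nat.prime_two⟩
          exact (padicValNat_dvd_iff_le (p := 2) (n := 2) (by omega)).mp (by simpa using h4)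
        have h6 : (3 : ℝ) ≤ @Core.kap (full c a hc ha hac hcop) 2 := by
          unfold Core.kap
          have : (2 : ℝ) ≤ (padicValNat 2 (full c a hc ha hac hcop).c : ℝ) := by exact_mod_cast h5
          push_cast
          linarith
        have h7 : (3 : ℝ) * Real.log 2 ≤ @Core.kap (full c a hc ha hac hcop) 2 *
            Real.log ((2 : ℕ) : ℝ) := by
          push_cast
          exact mul_le_mul_of_nonneg_right h6 (by linarith)
        exact le_trans (by linarith) h7
    · -- an odd prime factor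
      obtain ⟨q, hq, hqc, hq3⟩ : ∃ q : ℕ, q.Prime ∧ q ∣ c ∧ 3 ≤ q := by
        rcases Nat.even_or_odd c with he | ho
        · obtain ⟨d, hd⟩ := he
          have hd2 : d ≠ 1 := by omega
          refine ⟨d.minFac, Nat.minFac_prime hd2, (Nat.minFac_dvd d).trans ⟨2, by omega⟩, ?_⟩
          have h5 := (Nat.minFac_prime hd2).two_le
          rcases Nat.lt_or_ge 2 d.minFac with h6 | h6
          · exact h6
          · exfalso
            have h7 : d.minFac = 2 := by omega
            have h8 : 2 ∣ d := h7 ▸ Nat.minFac_dvd d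
            apply h4
            omega
        · have hd2 : c ≠ 1 := by omega
          refine ⟨c.minFac, Nat.minFac_prime hd2, Nat.minFac_dvd c, ?_⟩
          have h5 := (Nat.minFac_prime hd2).two_le
          rcases Nat.lt_or_ge 2 c.minFac with h6 | h6
          · exact h6
          · exfalso
            have h7 : c.minFac = 2 := by omega
            have h8 : 2 ∣ c := h7 ▸ Nat.minFac_dvd c
            rw [Nat.odd_iff] at ho
            omega
      refine ⟨q, ?_, ?_⟩
      · rw [Nat.mem_primeFactors]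
        exact ⟨hq, hqc, by omega⟩
      · have h5 : 1 ≤ padicValNat q c := by
          have : Fact (Nat.Prime q) := ⟨hq⟩
          exact one_le_padicValNat_of_dvd (by omega) hqc
        have hq3' : (3 : ℝ) ≤ q := by exact_mod_cast hq3
        have hq1 : (0 : ℝ) < (q : ℝ) - 1 := by linarith
        have hlogq : 0 ≤ Real.log q := Real.log_nonneg (by linarith)
        have h6 : 1 + 1 / ((q : ℝ) - 1) ≤ @Core.kap (full c a hc ha hac hcop) q := by
          unfold Core.kap
          have : (1 : ℝ) ≤ (padicValNat q (full c a hc ha hac hcop).c : ℝ) := by exact_mod_cast h5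
          linarith
        refine le_trans ?_ (mul_le_mul_of_nonneg_right h6 hlogq)
        rcases Nat.lt_or_ge q 6 with h7 | h7
        · interval_cases q
          · push_cast
            norm_num
            linarith
          · exact absurd hq (by norm_num)
          · have h8 : Real.log 4 ≤ Real.log 5 := Real.log_le_log (by norm_num) (by norm_num)
            have h9 : Real.log 4 = 2 * Real.log 2 := by
              rw [show (4 : ℝ) = 2 ^ 2 by norm_num, Real.log_pow]
              push_cast
              ring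
            push_cast
            norm_num
            linarith
        · have h8 : Real.log 6 ≤ Real.log q := Real.log_le_log (by norm_num) (by exact_mod_cast h7)
          have h9 : Real.log 6 = Real.log 2 + Real.log 3 := by
            rw [show (6 : ℝ) = 2 * 3 by norm_num, Real.log_mul (by norm_num) (by norm_num)]
          have h10 : 0 ≤ 1 / ((q : ℝ) - 1) := by positivity
          nlinarith
  obtain ⟨q, hq, hq'⟩ := hmain
  refine hq'.trans ?_
  unfold gain
  exact Finset.single_le_sum (f := fun q => @Core.kap (full c a hc ha hac hcop) q * Real.log q)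
    (fun q' hq' => kap_term c a hc ha hac hcop (Nat.prime_of_mem_primeFactors hq')) hq

theorem full_margin (hc3 : 3 ≤ c) : 15.23 < @margin (full c a hc ha hac hcop) := by
  have h1 := full_cost c a hc ha hac hcop
  have h2 := full_gain c a hc ha hac hcop hc3
  unfold margin
  have h3 : max 0 (@cost (full c a hc ha hac hcop) - 0.954) = 0 :=
    max_eq_left (by linarith)
  rw [h3]
  linarith

/-- the good primes in the full case. -/
theorem full_good {P : Val} {p : ℕ} (hp : p.Prime) (hpc : c < p)
    (h : ∀ k : ℕ, k < p → p ∣ c * k + a → padicNorm p ((P.D : ℚ) * harmonic k + P.N) ≤ (p : ℚ)⁻¹) :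
    @Good (full c a hc ha hac hcop) P p := by
  intro k hk1 hk2
  change p ∣ c * k + a at hk1
  change c * k + a < (c + ((a : ZMod c) * ((p : ℕ) : ZMod c)⁻¹).val) * p at hk2
  change padicNorm p ((P.D : ℚ) * harmonic k + P.N) ≤ (p : ℚ)⁻¹
  have hne : NeZero c := ⟨by omega⟩
  apply h k _ hk1
  obtain ⟨m, hm⟩ := hk1
  set v := ((a : ZMod c) * ((p : ℕ) : ZMod c)⁻¹).val with hv
  have hvlt : v < c := ZMod.val_lt _
  have hmv : m < c + v := by
    rw [hm, mul_comm p m] at hk2
    exact Nat.lt_of_mul_lt_mul_right hk2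
  have hpcop : Nat.Coprime p c := by
    rw [Nat.Prime.coprime_iff_not_dvd hp]
    intro h5
    have := Nat.le_of_dvd (by omega) h5
    omega
  have hmod : (m : ZMod c) = ((v : ℕ) : ZMod c) := by
    rw [hv, ZMod.natCast_zmod_val]
    have h6 : (p : ZMod c) * (m : ZMod c) = a := by
      have := congrArg (Nat.cast : ℕ → ZMod c) hm
      push_cast at this
      rw [ZMod.natCast_self] at this
      rw [← this]
      ring
    have h7 := ZMod.coe_mul_inv_eq_one p hpcop
    rw [← h6]
    calc (m : ZMod c) = ((p : ZMod c) * (p : ZMod c)⁻¹) * m := by rw [h7, one_mul]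
      _ = _ := by ring
  rw [ZMod.natCast_eq_natCast_iff] at hmod
  have hmeq : m = v := by
    rcases Nat.lt_or_ge m v with h8 | h8
    · have := (Nat.modEq_iff_dvd' h8.le).mp hmod
      have := Nat.le_of_dvd (by omega) this
      omega
    · by_contra h9
      have := (Nat.modEq_iff_dvd' h8).mp hmod.symm
      have := Nat.le_of_dvd (by omega) this
      omega
  have h10 : p * m ≤ p * (c - 1) := Nat.mul_le_mul_left _ (by omega)
  have h11 : p * (c - 1) < c * p := by
    rw [mul_comm p]
    exact Nat.mul_lt_mul_of_pos_right (by omega) hp.pos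
  by_contra hcon
  push Not at hcon
  have := Nat.mul_le_mul_left c hcon
  omega

/-- **Theorem.** Let `c ≥ 3`, `0 < a < c` be coprime. For all large `x` and all integers `D > 0`,
`N` with `1 + D + |N| ≤ e^(x/(80000 c²))`, at least `x / (37 c log x)` primes `2 c < p ≤ x` do not
divide (the numerator of) `D H_k + N` for some `k < p` with `p ∣ c k + a`. -/
theorem full_density (hc3 : 3 ≤ c) : ∃ x₀ : ℕ, ∀ x : ℕ, x₀ ≤ x → ∀ P : Val,
    P.ht ≤ Real.exp ((x : ℝ) / (80000 * (c : ℝ) ^ 2)) →
    (x : ℝ) / (37 * c * Real.log x) ≤ (((Finset.range (x + 1)).filter (fun p => p.Prime ∧ 2 * c < p ∧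
      ∃ k < p, p ∣ c * k + a ∧ ¬ padicNorm p ((P.D : ℚ) * harmonic k + P.N) ≤ (p : ℚ)⁻¹)).card : ℝ) := by
  have hcr : (3 : ℝ) ≤ c := by exact_mod_cast hc3
  have hcpos : (0 : ℝ) < c := by linarith
  set η : ℝ := min 0.001 (1 / (4 * (c : ℝ))) with hη
  have hη1 : η ≤ 0.001 := min_le_left _ _
  have hη2 : η ≤ 1 / (4 * (c : ℝ)) := min_le_right _ _
  have hη0 : 0 ≤ η := by rw [hη]; positivity
  have hmar := full_margin c a hc ha hac hcop hc3
  obtain ⟨x₀, hx₀⟩ := @density_gt (full c a hc ha hac hcop) 15.2 η (by norm_num) hη0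
    (by linarith) hη2 (1 / (37 * c)) (1 / (80000 * (c : ℝ) ^ 2)) (by
      show 1 / (37 * (c : ℝ)) < 15.2 / (560 * (c : ℝ))
      rw [div_lt_div_iff₀ (by positivity) (by positivity)]
      nlinarith) (by
      show 1 / (80000 * (c : ℝ) ^ 2) * (70 * (c : ℝ)) < η
      rw [hη, lt_min_iff]
      have h1 : 1 / (80000 * (c : ℝ) ^ 2) * (70 * (c : ℝ)) = 7 / (8000 * c) := by
        field_simp
        ring
      rw [h1]
      constructor
      · rw [div_lt_iff₀ (by positivity)]
        nlinarith
      · rw [div_lt_div_iff₀ (by positivity) (by positivity)]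
        nlinarith)
  refine ⟨x₀, ?_⟩
  intro x hx P hP
  have h1 := hx₀ x hx P (by
    refine hP.trans (le_of_eq ?_)
    congr 1
    ring)
  have h2 : (x : ℝ) / (37 * c * Real.log x) = 1 / (37 * c) * ((x : ℝ) / Real.log x) := by
    rw [div_mul_div_comm, one_mul]
  rw [h2]
  refine h1.trans ?_
  have h3 : ((Finset.range (x + 1)).filter (fun p => p.Prime ∧
      2 * (full c a hc ha hac hcop).c < p ∧ ¬ @Good (full c a hc ha hac hcop) P p)).card ≤
      ((Finset.range (x + 1)).filter (fun p => p.Prime ∧ 2 * c < p ∧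
      ∃ k < p, p ∣ c * k + a ∧ ¬ padicNorm p ((P.D : ℚ) * harmonic k + P.N) ≤ (p : ℚ)⁻¹)).card := by
    apply Finset.card_le_card
    intro p hp
    rw [Finset.mem_filter] at hp ⊢
    obtain ⟨h4, h5, h6, h7⟩ := hp
    change 2 * c < p at h6
    refine ⟨h4, h5, h6, ?_⟩
    by_contra hcon
    push Not at hcon
    apply h7
    apply full_good c a hc ha hac hcop h5 (by omega)
    intro k hk1 hk2
    exact hcon k hk1 hk2
  exact_mod_cast h3

end

end

end Run7.h510.G
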