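import Mathlib
import Pool.Agent.Run7.h510.B3.Lerch
import Pool.Agent.Run7.h510.G.Full

/-!
Base `432 = 2^4 3^3` in the residue classes modulo `6`.
-/

namespace Run7.h510.G.Six

noncomputable section

open Filter Topology

attribute [local instance] Classical.propDecidable

section Arith

variable {p : ℕ} (hp : p.Prime)
include hp

/-- the Fermat quotient, as a rational number. -/
def Q (p a : ℕ) : ℚ := ((a : ℚ) ^ (p - 1) - 1) / p

theorem Q_ig {a : ℕ} (ha : ¬ p ∣ a) : Ig p (Q p a) := by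
  have h1 : (p : ℤ) ∣ (a : ℤ) ^ (p - 1) - 1 := by
    have := Fact.mk hp
    rw [← ZMod.intCast_zmod_eq_zero_iff_dvd]
    push_cast
    rw [ZMod.pow_card_sub_one_eq_one, sub_self]
    intro h
    apply ha
    exact (ZMod.natCast_eq_zero_iff a p).mp h
  obtain ⟨w, hw⟩ := h1
  have h2 : Q p a = (w : ℚ) := by
    unfold Q
    have hp0 : (p : ℚ) ≠ 0 := by exact_mod_cast hp.ne_zero
    rw [div_eq_iff hp0]
    have : ((a : ℚ) ^ (p - 1) - 1) = (p : ℚ) * w := by exact_mod_cast hw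
    rw [this]
    ring
  rw [h2]
  exact Ig.int hp w

theorem Q_mul {a b : ℕ} (ha : ¬ p ∣ a) (hb : ¬ p ∣ b) :
    Sm p (Q p (a * b) - (Q p a + Q p b)) := by
  have hp0 : (p : ℚ) ≠ 0 := by exact_mod_cast hp.ne_zero
  have h1 : Q p (a * b) - (Q p a + Q p b) = p * (Q p a * Q p b) := by
    unfold Q
    push_cast
    rw [mul_pow]
    field_simp
    ring
  rw [h1]
  exact Sm.p_mul hp (Ig.mul hp (Q_ig hp ha) (Q_ig hp hb))

/-- `2 H_[p/6] + q_p(432) ≡ 0`. -/
theorem harm_six (h3 : 3 < p) : Sm p (2 * harmonic (p / 6) + Q p 432) := by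
  have hd : ∀ n : ℕ, 0 < n → n < p → ¬ p ∣ n := fun n h0 hn h => by
    have := Nat.le_of_dvd h0 h
    omega
  have h5 : 5 ≤ p := by
    rcases Nat.lt_or_ge p 5 with h | h
    · have : p = 4 := by omega
      rw [this] at hp
      exact absurd hp (by norm_num)
    · exact h
  have hd2 : ¬ p ∣ 2 := hd 2 (by norm_num) (by omega)
  have hd3 : ¬ p ∣ 3 := hd 3 (by norm_num) (by omega)
  have hmul : ∀ a b : ℕ, ¬ p ∣ a → ¬ p ∣ b → ¬ p ∣ a * b := by
    intro a b ha hb h
    rcases (Nat.Prime.dvd_mul hp).1 h with h | h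
    · exact ha h
    · exact hb h
  have hd6 : ¬ p ∣ 6 := hmul 2 3 hd2 hd3
  -- Lerch's formula for 2, 3, 6
  have l2 := lerch hp (by omega) hd2
  have l3 := lerch hp (by omega) hd3
  have l6 := lerch hp (by omega) hd6
  have s2 : ∑ i ∈ Finset.Ico 1 2, harmonic (i * p / 2) = harmonic (p / 2) := by
    simp
  have s3 : ∑ i ∈ Finset.Ico 1 3, harmonic (i * p / 3) =
      harmonic (p / 3) + harmonic (2 * p / 3) := by
    rw [Finset.sum_Ico_succ_top (by norm_num), Finset.sum_Ico_succ_top (by norm_num)]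
    simp
  have s6 : ∑ i ∈ Finset.Ico 1 6, harmonic (i * p / 6) =
      harmonic (p / 6) + harmonic (p / 3) + harmonic (p / 2) + harmonic (2 * p / 3) +
        harmonic (5 * p / 6) := by
    rw [Finset.sum_Ico_succ_top (by norm_num), Finset.sum_Ico_succ_top (by norm_num),
      Finset.sum_Ico_succ_top (by norm_num), Finset.sum_Ico_succ_top (by norm_num),
      Finset.sum_Ico_succ_top (by norm_num)]
    have e1 : 2 * p / 6 = p / 3 := by omega
    have e2 : 3 * p / 6 = p / 2 := by omega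
    have e3 : 4 * p / 6 = 2 * p / 3 := by omega
    rw [e1, e2, e3]
    simp
  rw [s2] at l2
  rw [s3] at l3
  rw [s6] at l6
  have hpr : harmonic (5 * p / 6) = harmonic (p - 1 - p / 6) := by
    have hmod : p % 6 ≠ 0 := by
      intro h
      exact hd 2 (by norm_num) (by omega) (by
        exact ((Nat.prime_dvd_prime_iff_eq hp Nat.prime_two).mpr
          (((Nat.prime_dvd_prime_iff_eq Nat.prime_two hp).mp (by omega)).symm)))
    congr 1
    omega
  rw [hpr] at l6
  have hr := harm_refl hp (by omega) (k := p / 6) (by omega)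
  have q6 := Q_mul hp hd2 hd3
  -- `Q 432 = 4 Q 2 + 3 Q 3`
  have q4 := Q_mul hp hd2 hd2
  have d4 := hmul 2 2 hd2 hd2
  have q16 := Q_mul hp d4 d4
  have d16 := hmul _ _ d4 d4
  have q9 := Q_mul hp hd3 hd3
  have d9 := hmul 3 3 hd3 hd3
  have q27 := Q_mul hp d9 hd3
  have d27 := hmul _ _ d9 hd3
  have q432 := Q_mul hp d16 d27
  norm_num at q6 q4 q16 q9 q27 q432
  have e : 2 * harmonic (p / 6) + Q p 432 =
      ((((6 : ℕ) : ℚ) * ((((6 : ℕ) : ℚ) ^ (p - 1) - 1) / p) +
        (harmonic (p / 6) + harmonic (p / 3) + harmonic (p / 2) + harmonic (2 * p / 3) +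
        harmonic (p - 1 - p / 6))) + (harmonic (p / 6) - harmonic (p - 1 - p / 6)) -
      (((2 : ℕ) : ℚ) * ((((2 : ℕ) : ℚ) ^ (p - 1) - 1) / p) + harmonic (p / 2)) -
      (((3 : ℕ) : ℚ) * ((((3 : ℕ) : ℚ) ^ (p - 1) - 1) / p) +
        (harmonic (p / 3) + harmonic (2 * p / 3)))) -
      (Q p 6 - (Q p 2 + Q p 3)) * ((6 : ℤ) : ℚ) +
      ((Q p 432 - (Q p 16 + Q p 27)) + (Q p 16 - (Q p 4 + Q p 4)) +
        (Q p 4 - (Q p 2 + Q p 2)) * ((2 : ℤ) : ℚ) +
        (Q p 27 - (Q p 9 + Q p 3)) + (Q p 9 - (Q p 3 + Q p 3))) := by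
    have e6 : ((((6 : ℕ) : ℚ) ^ (p - 1) - 1) / p) = Q p 6 := rfl
    have e2 : ((((2 : ℕ) : ℚ) ^ (p - 1) - 1) / p) = Q p 2 := rfl
    have e3 : ((((3 : ℕ) : ℚ) ^ (p - 1) - 1) / p) = Q p 3 := rfl
    rw [e6, e2, e3]
    push_cast
    ring
  rw [e]
  apply Sm.add hp
  · apply Sm.sub hp
    · apply Sm.sub hp
      · apply Sm.sub hp
        · exact Sm.add hp l6 hr
        · exact l2
      · exact l3
    · exact Sm.mul hp q6 (Ig.int hp 6)
  · apply Sm.add hp
    · apply Sm.add hp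
      · apply Sm.add hp
        · exact Sm.add hp q432 q16
        · exact Sm.mul hp q4 (Ig.int hp 2)
      · exact q27
    · exact q9

end Arith

/-- the class `p ≡ a (mod 6)` assumed, the other one not. -/
@[instance_reducible]
def six (a : ℕ) (ha : a = 1 ∨ a = 5) : CA where
  c := 6
  a := a
  hc := by norm_num
  ha := by rcases ha with rfl | rfl <;> norm_num
  hac := by rcases ha with rfl | rfl <;> norm_num
  hcop := by rcases ha with rfl | rfl <;> norm_num
  L := fun s => if s = (a : ZMod 6) then 7 else 5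
  hL0 := fun s => by split_ifs <;> norm_num
  hL := fun s => by split_ifs <;> norm_num

theorem six_cost (a : ℕ) (ha : a = 1 ∨ a = 5) : @cost (six a ha) = 36 / 35 := by
  unfold cost
  have h1 : ((6 : ℕ).totient : ℝ) = 2 := by
    have : (6 : ℕ).totient = 2 := by decide
    rw [this]
    norm_num
  have h2 : (∑ s : (ZMod 6)ˣ, (((6 : ℕ)) : ℝ) / ((if (s : ZMod 6) = (a : ZMod 6) then 7 else 5 : ℕ) : ℝ)) =
      72 / 35 := by
    have h3 : (Finset.univ : Finset (ZMod 6)ˣ) = {1, -1} := by decide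
    have h4 : (1 : (ZMod 6)ˣ) ≠ -1 := by decide
    rw [h3, Finset.sum_pair h4]
    rcases ha with rfl | rfl
    · have e1 : (((1 : (ZMod 6)ˣ) : ZMod 6) = ((1 : ℕ) : ZMod 6)) := by decide
      have e2 : ¬ (((-1 : (ZMod 6)ˣ) : ZMod 6) = ((1 : ℕ) : ZMod 6)) := by decide
      rw [if_pos e1, if_neg e2]
      norm_num
    · have e1 : ¬ (((1 : (ZMod 6)ˣ) : ZMod 6) = ((5 : ℕ) : ZMod 6)) := by decide
      have e2 : (((-1 : (ZMod 6)ˣ) : ZMod 6) = ((5 : ℕ) : ZMod 6)) := by decide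
      rw [if_neg e1, if_pos e2]
      norm_num
  change (∑ s : (ZMod 6)ˣ, (((6 : ℕ)) : ℝ) / ((if (s : ZMod 6) = (a : ZMod 6) then 7 else 5 : ℕ) : ℝ)) /
    ((6 : ℕ).totient : ℝ) = 36 / 35
  rw [h1, h2]
  norm_num

theorem six_gain (a : ℕ) (ha : a = 1 ∨ a = 5) : 3.0339 ≤ @gain (six a ha) := by
  have hlog2 := Real.log_two_gt_d9
  have hlog3 := Run7.h510.B3.log_three_gt
  unfold gain
  have h1 : (six a ha).c.primeFactors = {2, 3} := by
    show (6 : ℕ).primeFactors = {2, 3}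
    decide +kernel
  rw [h1, Finset.sum_pair (by norm_num)]
  have h2 : padicValNat 2 6 = 1 := by
    have : Fact (Nat.Prime 2) := ⟨Nat.prime_two⟩
    rw [show (6 : ℕ) = 2 * 3 by norm_num, padicValNat.mul (by norm_num) (by norm_num),
      padicValNat.self (by norm_num)]
    have : padicValNat 2 3 = 0 := padicValNat.eq_zero_of_not_dvd (by norm_num)
    rw [this]
  have h3 : padicValNat 3 6 = 1 := by
    have : Fact (Nat.Prime 3) := ⟨Nat.prime_three⟩
    rw [show (6 : ℕ) = 2 * 3 by norm_num, padicValNat.mul (by norm_num) (by norm_num),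
      padicValNat.self (by norm_num)]
    have : padicValNat 3 2 = 0 := padicValNat.eq_zero_of_not_dvd (by norm_num)
    rw [this]
  have k2 : @Core.kap (six a ha) 2 = 2 := by
    unfold Core.kap
    change ((padicValNat 2 6 : ℕ) : ℝ) + 1 / (((2 : ℕ) : ℝ) - 1) = 2
    rw [h2]
    norm_num
  have k3 : @Core.kap (six a ha) 3 = 3 / 2 := by
    unfold Core.kap
    change ((padicValNat 3 6 : ℕ) : ℝ) + 1 / (((3 : ℕ) : ℝ) - 1) = 3 / 2
    rw [h3]
    norm_num
  rw [k2, k3]
  push_cast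
  linarith

theorem six_margin (a : ℕ) (ha : a = 1 ∨ a = 5) : 31.9 < @margin (six a ha) := by
  have h1 := six_cost a ha
  have h2 := six_gain a ha
  unfold margin
  rw [h1]
  have h3 : max (0 : ℝ) (36 / 35 - 0.954) = 36 / 35 - 0.954 := max_eq_right (by norm_num)
  rw [h3]
  linarith

/-- the parameters for `q_p(432) ≡ n / b`. -/
@[instance_reducible]
def par (n : ℤ) (b : ℕ) (hb : 0 < b) : Val where
  D := 2 * b
  N := n
  hD := by omega

theorem good_of (a : ℕ) (ha : a = 1 ∨ a = 5) {n : ℤ} {b : ℕ} (hb : 0 < b) {p : ℕ} (hp : p.Prime)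
    (h12 : 12 < p)
    (h : p % 6 = a → ((p : ℤ)) ^ 2 ∣ b * (432 ^ (p - 1) - 1) - n * p) :
    @Good (six a ha) (par n b hb) p := by
  intro k hk1 hk2
  change p ∣ 6 * k + a at hk1
  change 6 * k + a < (if (p : ZMod 6) = (a : ZMod 6) then 7 else 5) * p at hk2
  change padicNorm p (((2 * b : ℕ) : ℚ) * harmonic k + (n : ℚ)) ≤ (p : ℚ)⁻¹
  have hp6 : p % 6 = 1 ∨ p % 6 = 5 := by
    have h2 : ¬ 2 ∣ p := by
      intro h
      have := (Nat.prime_dvd_prime_iff_eq Nat.prime_two hp).mp h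
      omega
    have h3 : ¬ 3 ∣ p := by
      intro h
      have := (Nat.prime_dvd_prime_iff_eq Nat.prime_three hp).mp h
      omega
    omega
  have hcast : ((p : ZMod 6) = (a : ZMod 6)) ↔ p % 6 = a := by
    rw [ZMod.natCast_eq_natCast_iff']
    rcases ha with rfl | rfl <;> rfl
  obtain ⟨m, hm⟩ := hk1
  by_cases hpa : p % 6 = a
  · rw [if_pos (hcast.mpr hpa)] at hk2
    have hm7 : m < 7 := by
      rw [hm, mul_comm p m] at hk2
      exact Nat.lt_of_mul_lt_mul_right hk2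
    -- `m = 1`
    have hm1 : m = 1 := by
      have h1 : (6 * k + a) % 6 = (p * m) % 6 := by rw [hm]
      rw [Nat.mul_mod, hpa] at h1
      rcases ha with rfl | rfl
      · interval_cases m <;> omega
      · interval_cases m <;> omega
    rw [hm1, mul_one] at hm
    have hk : k = p / 6 := by
      rcases ha with rfl | rfl <;> omega
    obtain ⟨w, hw⟩ := h hpa
    have hp0 : (p : ℚ) ≠ 0 := by exact_mod_cast hp.ne_zero
    have hw' : (b : ℚ) * (432 ^ (p - 1) - 1) - n * p = (p : ℚ) ^ 2 * w := by exact_mod_cast hw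
    have h1 := harm_six hp (by omega)
    rw [hk]
    have h2 : ((2 * b : ℕ) : ℚ) * harmonic (p / 6) + (n : ℚ) =
        (2 * harmonic (p / 6) + Q p 432) * b - p * w := by
      have h4 : (b : ℚ) * Q p 432 = p * w + n := by
        unfold Q
        push_cast
        field_simp
        linear_combination hw'
      push_cast
      linear_combination (-1 : ℚ) * h4
    show Sm p _
    rw [h2]
    apply Sm.sub hp
    · exact Sm.mul hp h1 (Ig.nat hp b)
    · exact Sm.p_mul hp (Ig.int hp w)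
  · exfalso
    rw [if_neg (fun h => hpa (hcast.mp h))] at hk2
    have hm5 : m < 5 := by
      rw [hm, mul_comm p m] at hk2
      exact Nat.lt_of_mul_lt_mul_right hk2
    have h1 : (6 * k + a) % 6 = (p * m) % 6 := by rw [hm]
    rw [Nat.mul_mod] at h1
    rcases hp6 with h6 | h6 <;> rw [h6] at h1 hpa <;> rcases ha with rfl | rfl <;>
      interval_cases m <;> omega

/-- **Theorem.** Base `432` in the classes modulo `6`. -/
theorem density_six (a : ℕ) (ha : a = 1 ∨ a = 5) : ∃ x₀ : ℕ, ∀ x : ℕ, x₀ ≤ x → ∀ (n : ℤ) (b : ℕ),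
    0 < b → 1 + 2 * (b : ℝ) + |(n : ℝ)| ≤ Real.exp ((x : ℝ) / 14001) →
    (x : ℝ) / (110 * Real.log x) ≤ (((Finset.range (x + 1)).filter (fun p => p.Prime ∧ p % 6 = a ∧
      ¬ ((p : ℤ)) ^ 2 ∣ b * (432 ^ (p - 1) - 1) - n * p)).card : ℝ) := by
  have hmar := six_margin a ha
  obtain ⟨x₀, hx₀⟩ := @density_gt (six a ha) 31 0.03 (by norm_num) (by norm_num)
    (by linarith) (by
      show (0.03 : ℝ) ≤ 1 / (4 * ((6 : ℕ) : ℝ))
      norm_num) (1 / 110) (1 / 14001) (by
      show (1 : ℝ) / 110 < 31 / (560 * ((6 : ℕ) : ℝ))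
      norm_num) (by
      show (1 : ℝ) / 14001 * (70 * ((6 : ℕ) : ℝ)) < 0.03
      norm_num)
  refine ⟨x₀, ?_⟩
  intro x hx n b hb hht
  have h1 := hx₀ x hx (par n b hb) (by
    unfold Val.ht
    show 1 + ((2 * b : ℕ) : ℝ) + |(n : ℝ)| ≤ _
    push_cast
    refine hht.trans (le_of_eq ?_)
    congr 1
    ring)
  have h2 : (x : ℝ) / (110 * Real.log x) = 1 / 110 * ((x : ℝ) / Real.log x) := by
    rw [div_mul_div_comm, one_mul]
  rw [h2]
  refine h1.trans ?_
  have h3 : ((Finset.range (x + 1)).filter (fun p => p.Prime ∧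
      2 * (six a ha).c < p ∧ ¬ @Good (six a ha) (par n b hb) p)).card ≤
      ((Finset.range (x + 1)).filter (fun p => p.Prime ∧ p % 6 = a ∧
      ¬ ((p : ℤ)) ^ 2 ∣ b * (432 ^ (p - 1) - 1) - n * p)).card := by
    apply Finset.card_le_card
    intro p hp
    rw [Finset.mem_filter] at hp ⊢
    obtain ⟨h4, h5, h6, h7⟩ := hp
    change 2 * 6 < p at h6
    refine ⟨h4, h5, ?_⟩
    by_contra hcon
    apply h7
    apply good_of a ha hb h5 (by omega)
    intro h8
    by_contra h9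
    exact hcon ⟨h8, h9⟩
  exact_mod_cast h3

/-- **Theorem.** For `r = 1, 5` and large `x`, every rational number `a/b` of height at most
`exp (x / 15000)` is avoided by the Fermat quotients `(432^(p-1)-1)/p` modulo `p` of at least
`x/(110 log x)` primes `p ≤ x`, `p ≡ r (mod 6)`. -/
theorem density_all (r : ℕ) (hr : r = 1 ∨ r = 5) : ∃ x₀ : ℕ, ∀ x : ℕ, x₀ ≤ x →
    ∀ a b : ℤ, b ≠ 0 → |(a : ℝ)| ≤ Real.exp (x / 15000) → |(b : ℝ)| ≤ Real.exp (x / 15000) →
    (x : ℝ) / (110 * Real.log x) ≤ ({p : ℕ | p ≤ x ∧ p.Prime ∧ p % 6 = r ∧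
      ¬ (p : ℤ) ^ 2 ∣ b * (432 ^ (p - 1) - 1) - a * p}.ncard : ℝ) := by
  obtain ⟨x₀, h⟩ := density_six r hr
  refine ⟨max x₀ 1000000, ?_⟩
  -- the case of a positive denominator
  have hpos : ∀ x : ℕ, max x₀ 1000000 ≤ x → ∀ (a : ℤ) (b : ℕ), 0 < b →
      |(a : ℝ)| ≤ Real.exp (x / 15000) → (b : ℝ) ≤ Real.exp (x / 15000) →
      (x : ℝ) / (110 * Real.log x) ≤ ({p : ℕ | p ≤ x ∧ p.Prime ∧ p % 6 = r ∧
        ¬ (p : ℤ) ^ 2 ∣ b * (432 ^ (p - 1) - 1) - a * p}.ncard : ℝ) := by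
    intro x hx a b hb ha' hb'
    have hx1 : x₀ ≤ x := (le_max_left _ _).trans hx
    have hx0 : (1000000 : ℝ) ≤ x := by exact_mod_cast (le_max_right _ _).trans hx
    refine (h x hx1 a b hb ?_).trans ?_
    · have e4 : (1 : ℝ) ≤ Real.exp (x / 15000) := Real.one_le_exp (by positivity)
      have e5 : Real.exp ((x : ℝ) / 14001) =
          Real.exp (x / 15000) * Real.exp (x / 14001 - x / 15000) := by
        rw [← Real.exp_add]
        congr 1
        ring
      have e6 : (4 : ℝ) ≤ Real.exp (x / 14001 - x / 15000) := by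
        have := Real.add_one_le_exp ((x : ℝ) / 14001 - x / 15000)
        have h7 : (x : ℝ) / 14001 - x / 15000 = x * (999 / (14001 * 15000)) := by
          ring
        have h8 : (1000000 : ℝ) * (999 / (14001 * 15000)) ≤ x * (999 / (14001 * 15000)) :=
          mul_le_mul_of_nonneg_right hx0 (by norm_num)
        norm_num at h8
        linarith
      rw [e5]
      nlinarith
    · have hset : {p : ℕ | p ≤ x ∧ p.Prime ∧ p % 6 = r ∧
          ¬ (p : ℤ) ^ 2 ∣ b * (432 ^ (p - 1) - 1) - a * p} =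
          (((Finset.range (x + 1)).filter (fun p => p.Prime ∧ p % 6 = r ∧
            ¬ ((p : ℤ)) ^ 2 ∣ b * (432 ^ (p - 1) - 1) - a * p) : Finset ℕ) : Set ℕ) := by
        ext p
        rw [Finset.mem_coe, Finset.mem_filter, Finset.mem_range, Nat.lt_succ_iff]
        rfl
      rw [hset, Set.ncard_coe_finset]
  intro x hx a b hb ha1 hb1
  rcases lt_or_gt_of_ne hb with hlt | hgt
  · obtain ⟨b', hb'⟩ : ∃ b' : ℕ, b = -(b' : ℤ) := ⟨b.natAbs, by omega⟩
    refine (hpos x hx (-a) b' (by omega) ?_ ?_).trans (le_of_eq ?_)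
    · rw [Int.cast_neg, abs_neg]
      exact ha1
    · rw [hb', Int.cast_neg, abs_neg, Int.cast_natCast] at hb1
      exact (le_abs_self _).trans hb1
    congr 2
    ext p
    simp only [Set.mem_ofPred_eq]
    have : b * (432 ^ (p - 1) - 1) - a * (p : ℤ) =
        -((b' : ℤ) * (432 ^ (p - 1) - 1) - -a * p) := by
      rw [hb']; ring
    rw [this, dvd_neg]
  · obtain ⟨b', hb'⟩ : ∃ b' : ℕ, b = (b' : ℤ) := ⟨b.natAbs, by omega⟩
    refine (hpos x hx a b' (by omega) ha1 ?_).trans (le_of_eq ?_)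
    · rw [hb', Int.cast_natCast] at hb1
      exact (le_abs_self _).trans hb1
    rw [hb']

end

end Run7.h510.G.Six
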