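import Mathlib
import Pool.Agent.Run7.h257.Final
import Pool.Agent.Run7.h510.B3.Main
import Pool.Agent.Run7.h510.G.Six

/-!
The bases `a` with finitely many non-Wieferich primes are the integers `≥ 2` of a root-closed
subgroup of `ℚˣ` which contains none of `2`, `3`, `432`; they are at most half of the integers.
-/

namespace Run7.h510.G.Bases

open Filter Topology

/-- `x^(p-1) ≡ 1 (mod p²)`. -/
def WQ (p : ℕ) (x : ℚ) : Prop := padicNorm p (x ^ (p - 1) - 1) ≤ (p : ℚ) ^ (-2 : ℤ)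

section

variable {p : ℕ} (hp : p.Prime)
include hp

theorem small_lt_one : (p : ℚ) ^ (-2 : ℤ) < 1 := by
  have h1 : (1 : ℚ) < p := by exact_mod_cast hp.one_lt
  exact zpow_lt_one_of_neg₀ h1 (by norm_num)

theorem WQ.norm_eq {x : ℚ} (h : WQ p x) : padicNorm p (x ^ (p - 1)) = 1 := by
  have := Fact.mk hp
  unfold WQ at h
  have h1 : padicNorm p (x ^ (p - 1) - 1) < 1 := lt_of_le_of_lt h (small_lt_one hp)
  have h2 : x ^ (p - 1) = (x ^ (p - 1) - 1) + 1 := by ring
  have h3 : padicNorm p (x ^ (p - 1) - 1) ≠ padicNorm p (1 : ℚ) := by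
    rw [padicNorm.one]
    exact h1.ne
  rw [h2, padicNorm.add_eq_max_of_ne h3, padicNorm.one]
  exact max_eq_right h1.le

theorem WQ.mul {x y : ℚ} (hx : WQ p x) (hy : WQ p y) : WQ p (x * y) := by
  have := Fact.mk hp
  have h1 := WQ.norm_eq hp hy
  unfold WQ at *
  have h2 : (x * y) ^ (p - 1) - 1 = (x ^ (p - 1) - 1) * y ^ (p - 1) + (y ^ (p - 1) - 1) := by
    rw [mul_pow]
    ring
  rw [h2]
  refine (padicNorm.nonarchimedean (p := p)).trans (max_le ?_ hy)
  rw [padicNorm.mul, h1, mul_one]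
  exact hx

theorem WQ.inv {x : ℚ} (hx : WQ p x) : WQ p x⁻¹ := by
  have := Fact.mk hp
  have h1 := WQ.norm_eq hp hx
  unfold WQ at *
  have h0 : x ^ (p - 1) ≠ 0 := by
    intro h
    rw [h, padicNorm.zero] at h1
    exact zero_ne_one h1
  have h2 : x⁻¹ ^ (p - 1) - 1 = -((x ^ (p - 1) - 1) / x ^ (p - 1)) := by
    rw [inv_pow]
    field_simp
    ring
  rw [h2, padicNorm.neg, padicNorm.div, h1, div_one]
  exact hx

theorem WQ.one : WQ p 1 := by
  have := Fact.mk hp
  unfold WQ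
  rw [one_pow, sub_self, padicNorm.zero]
  have : (0 : ℚ) < p := by exact_mod_cast hp.pos
  positivity

/-- roots: if `x^k` is Wieferich, `p ∤ k` and `x^(p-1) ≡ 1 (mod p)`, so is `x`. -/
theorem WQ.root {x : ℚ} {k : ℕ} (hk : ¬ p ∣ k) (hx1 : padicNorm p (x ^ (p - 1) - 1) < 1)
    (h : WQ p (x ^ k)) : WQ p x := by
  have := Fact.mk hp
  unfold WQ at *
  set y := x ^ (p - 1) with hy
  have h1 : (x ^ k) ^ (p - 1) - 1 = (y - 1) * ∑ i ∈ Finset.range k, y ^ i := by
    rw [← pow_mul, mul_comm k, pow_mul, ← hy]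
    exact (mul_geom_sum y k).symm
  rw [h1, padicNorm.mul] at h
  -- the geometric sum is a unit
  have hy1 : padicNorm p y = 1 := by
    have h2 : y = (y - 1) + 1 := by ring
    have h3 : padicNorm p (y - 1) ≠ padicNorm p (1 : ℚ) := by
      rw [padicNorm.one]
      exact hx1.ne
    rw [h2, padicNorm.add_eq_max_of_ne h3, padicNorm.one]
    exact max_eq_right hx1.le
  have h2 : padicNorm p (∑ i ∈ Finset.range k, y ^ i) = 1 := by
    have h3 : ∑ i ∈ Finset.range k, y ^ i = ∑ i ∈ Finset.range k, (y ^ i - 1) + (k : ℚ) := by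
      rw [Finset.sum_sub_distrib]
      simp
    have h4 : padicNorm p (∑ i ∈ Finset.range k, (y ^ i - 1)) < 1 := by
      have h5 : ∑ i ∈ Finset.range k, (y ^ i - 1) =
          (y - 1) * ∑ i ∈ Finset.range k, ∑ j ∈ Finset.range i, y ^ j := by
        rw [Finset.mul_sum]
        apply Finset.sum_congr rfl
        intro i _
        exact (mul_geom_sum y i).symm
      rw [h5, padicNorm.mul]
      have h6 : padicNorm p (∑ i ∈ Finset.range k, ∑ j ∈ Finset.range i, y ^ j) ≤ 1 := by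
        apply padicNorm.sum_le' _ (by norm_num)
        intro i _
        apply padicNorm.sum_le' _ (by norm_num)
        intro j _
        have hpow : ∀ n : ℕ, padicNorm p (y ^ n) = 1 := by
          intro n
          induction n with
          | zero => simp
          | succ n ih => rw [pow_succ, padicNorm.mul, ih, hy1, one_mul]
        exact (hpow j).le
      calc padicNorm p (y - 1) * padicNorm p (∑ i ∈ Finset.range k, ∑ j ∈ Finset.range i, y ^ j)
          ≤ padicNorm p (y - 1) * 1 := mul_le_mul_of_nonneg_left h6 (padicNorm.nonneg _)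
        _ < 1 := by rw [mul_one]; exact hx1
    have h5 : padicNorm p (k : ℚ) = 1 := (padicNorm.nat_eq_one_iff (p := p) k).mpr hk
    have h6 : padicNorm p (∑ i ∈ Finset.range k, (y ^ i - 1)) ≠ padicNorm p (k : ℚ) := by
      rw [h5]
      exact h4.ne
    rw [h3, padicNorm.add_eq_max_of_ne h6, h5]
    exact max_eq_right h4.le
  rw [h2, mul_one] at h
  exact h

theorem WQ_nat {a : ℕ} : WQ p a ↔ (p : ℤ) ^ 2 ∣ (a : ℤ) ^ (p - 1) - 1 := by
  have := Fact.mk hp
  unfold WQ
  have h1 : ((a : ℚ) ^ (p - 1) - 1) = (((a : ℤ) ^ (p - 1) - 1 : ℤ) : ℚ) := by push_cast; rfl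
  rw [h1]
  have h2 := padicNorm.dvd_iff_norm_le (p := p) (n := 2) (z := (a : ℤ) ^ (p - 1) - 1)
  rw [show (-2 : ℤ) = -((2 : ℕ) : ℤ) by norm_num, ← h2]
  push_cast
  rfl

end

/-- for all large primes. -/
def Ev (x : ℚ) : Prop := ∃ P : ℕ, ∀ p : ℕ, p.Prime → P < p → WQ p x

/-- the subgroup. -/
def B : Subgroup ℚˣ where
  carrier := {x | Ev x}
  mul_mem' := by
    rintro x y ⟨P, hP⟩ ⟨P', hP'⟩
    refine ⟨max P P', fun p hp hpp => ?_⟩
    rw [Units.val_mul]
    exact WQ.mul hp (hP p hp (lt_of_le_of_lt (le_max_left _ _) hpp))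
      (hP' p hp (lt_of_le_of_lt (le_max_right _ _) hpp))
  one_mem' := ⟨0, fun p hp _ => by
    rw [Units.val_one]
    exact WQ.one hp⟩
  inv_mem' := by
    rintro x ⟨P, hP⟩
    refine ⟨P, fun p hp hpp => ?_⟩
    rw [Units.val_inv_eq_inv_val]
    exact WQ.inv hp (hP p hp hpp)

theorem mem_B {x : ℚˣ} : x ∈ B ↔ Ev x := Iff.rfl

/-- Fermat's little theorem for rational numbers. -/
theorem fermat (x : ℚ) (hx : x ≠ 0) : ∃ P : ℕ, ∀ p : ℕ, p.Prime → P < p →
    padicNorm p (x ^ (p - 1) - 1) < 1 := by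
  refine ⟨max x.num.natAbs x.den, fun p hp hpp => ?_⟩
  have := Fact.mk hp
  have hn : ¬ (p : ℤ) ∣ x.num := by
    intro h
    have h1 := Int.natCast_dvd.mp h
    have h2 : x.num.natAbs ≠ 0 := by
      rw [Ne, Int.natAbs_eq_zero, Rat.num_eq_zero]
      exact hx
    have h3 := Nat.le_of_dvd (Nat.pos_of_ne_zero h2) h1
    have := le_max_left x.num.natAbs x.den
    omega
  have hd : ¬ (p : ℤ) ∣ (x.den : ℤ) := by
    intro h
    have h1 : p ∣ x.den := by exact_mod_cast h
    have h3 := Nat.le_of_dvd x.den_pos h1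
    have := le_max_right x.num.natAbs x.den
    omega
  have h1 : (p : ℤ) ∣ x.num ^ (p - 1) - (x.den : ℤ) ^ (p - 1) := by
    rw [← ZMod.intCast_zmod_eq_zero_iff_dvd]
    push_cast
    rw [ZMod.pow_card_sub_one_eq_one, ZMod.pow_card_sub_one_eq_one, sub_self]
    · intro h
      apply hd
      rw [← ZMod.intCast_zmod_eq_zero_iff_dvd]
      push_cast
      exact h
    · intro h
      apply hn
      rw [← ZMod.intCast_zmod_eq_zero_iff_dvd]
      exact h
  have hd0 : (x.den : ℚ) ≠ 0 := by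
    exact_mod_cast x.den_nz
  have h2 : x ^ (p - 1) - 1 = ((x.num ^ (p - 1) - (x.den : ℤ) ^ (p - 1) : ℤ) : ℚ) /
      ((x.den : ℚ)) ^ (p - 1) := by
    conv_lhs => rw [← Rat.num_div_den x]
    rw [div_pow]
    push_cast
    field_simp
  have h3 : padicNorm p ((x.den : ℚ) ^ (p - 1)) = 1 := by
    have h4 : padicNorm p (x.den : ℚ) = 1 := by
      rw [padicNorm.nat_eq_one_iff]
      intro h
      exact hd (by exact_mod_cast h)
    have : ∀ n : ℕ, padicNorm p ((x.den : ℚ) ^ n) = 1 := by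
      intro n
      induction n with
      | zero => simp
      | succ n ih => rw [pow_succ, padicNorm.mul, ih, h4, one_mul]
    exact this _
  rw [h2, padicNorm.div, h3, div_one]
  exact (padicNorm.int_lt_one_iff _).mpr h1

theorem B_root (x : ℚˣ) (k : ℕ) (hk : 0 < k) (h : x ^ k ∈ B) : x ∈ B := by
  obtain ⟨P, hP⟩ := h
  obtain ⟨P', hP'⟩ := fermat x x.ne_zero
  refine ⟨max k (max P P'), fun p hp hpp => ?_⟩
  have h1 : k < p := lt_of_le_of_lt (le_max_left _ _) hpp
  have h2 : P < p := lt_of_le_of_lt ((le_max_left _ _).trans (le_max_right _ _)) hpp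
  have h3 : P' < p := lt_of_le_of_lt ((le_max_right _ _).trans (le_max_right _ _)) hpp
  have h4 := hP p hp h2
  rw [Units.val_pow_eq_pow_val] at h4
  apply WQ.root hp _ (hP' p hp h3) h4
  intro h
  have := Nat.le_of_dvd hk h
  omega

/-- from a density statement to infinitely many primes. -/
theorem inf_of_density {R : ℕ → Prop} (h : ∃ x₀ : ℕ, ∀ x : ℕ, x₀ ≤ x →
    (x : ℝ) / (110 * Real.log x) ≤ ({p : ℕ | p ≤ x ∧ R p}.ncard : ℝ)) (P : ℕ) :
    ∃ p : ℕ, P < p ∧ R p := by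
  obtain ⟨x₀, h⟩ := h
  by_contra hcon
  push Not at hcon
  have hlim : Tendsto (fun x : ℕ => (1 / 110 : ℝ) * ((x : ℝ) / Real.log x)) atTop atTop := by
    apply Tendsto.const_mul_atTop (by norm_num)
    have l1 : Tendsto (fun x : ℝ => Real.log x / x) atTop (𝓝[>] 0) := by
      rw [tendsto_nhdsWithin_iff]
      refine ⟨Real.isLittleO_log_id_atTop.tendsto_div_nhds_zero, ?_⟩
      filter_upwards [eventually_gt_atTop 1] with x hx
      exact div_pos (Real.log_pos hx) (by linarith)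
    have l2 := l1.inv_tendsto_nhdsGT_zero.comp tendsto_natCast_atTop_atTop
    refine l2.congr ?_
    intro x
    simp only [Function.comp_apply, Pi.inv_apply, inv_div]
  obtain ⟨x₁, hx₁⟩ := eventually_atTop.mp (hlim.eventually_ge_atTop ((P + 2 : ℕ) : ℝ))
  have h1 := h (max x₀ x₁) (le_max_left _ _)
  have h2 := hx₁ (max x₀ x₁) (le_max_right _ _)
  have h3 : {p : ℕ | p ≤ max x₀ x₁ ∧ R p}.ncard ≤ P + 1 := by
    have h4 : {p : ℕ | p ≤ max x₀ x₁ ∧ R p} ⊆ ((Finset.range (P + 1) : Finset ℕ) : Set ℕ) := by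
      intro p hp
      rw [Finset.mem_coe, Finset.mem_range]
      by_contra h5
      exact hcon p (by omega) hp.2
    have h5 := Set.ncard_le_ncard h4 (Finset.finite_toSet _)
    rwa [Set.ncard_coe_finset, Finset.card_range] at h5
  have h3' : ({p : ℕ | p ≤ max x₀ x₁ ∧ R p}.ncard : ℝ) ≤ ((P + 1 : ℕ) : ℝ) := by exact_mod_cast h3
  have h6 : ((max x₀ x₁ : ℕ) : ℝ) / (110 * Real.log ((max x₀ x₁ : ℕ) : ℝ)) =
      (1 / 110 : ℝ) * (((max x₀ x₁ : ℕ) : ℝ) / Real.log ((max x₀ x₁ : ℕ) : ℝ)) := by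
    rw [div_mul_div_comm, one_mul]
  rw [h6] at h1
  have h7 : ((P + 2 : ℕ) : ℝ) = ((P + 1 : ℕ) : ℝ) + 1 := by push_cast; ring
  linarith

theorem not_Ev_two : ¬ Ev 2 := by
  rintro ⟨P, hP⟩
  have h0 := Run7.h257.not_wief P
  unfold Run7.h257.Wief at h0
  push Not at h0
  obtain ⟨p, hp, hB, hnd⟩ := h0
  apply hnd
  have h1 := hP p hp hB
  have h2 : WQ p ((2 : ℕ) : ℚ) := by exact_mod_cast h1
  rw [WQ_nat hp] at h2
  have h3 : 1 ≤ 2 ^ (p - 1) := Nat.one_le_two_pow
  zify [h3]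
  exact_mod_cast h2

theorem not_Ev_three : ¬ Ev 3 := by
  rintro ⟨P, hP⟩
  obtain ⟨x₀, hx₀⟩ := Run7.h510.B3.density_all
  obtain ⟨p, hp1, hp2, hp3⟩ := inf_of_density (R := fun p => p.Prime ∧
      ¬ (p : ℤ) ^ 2 ∣ 1 * (3 ^ (p - 1) - 1) - 0 * p) ⟨x₀, fun x hx =>
      hx₀ x hx 0 1 one_ne_zero (by simpa using (Real.exp_pos _).le)
        (by simpa using Real.one_le_exp (by positivity))⟩ P
  apply hp3
  have h1 := hP p hp2 hp1
  have h2 : WQ p ((3 : ℕ) : ℚ) := by exact_mod_cast h1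
  rw [WQ_nat hp2] at h2
  simpa using h2

theorem not_Ev_432 : ¬ Ev 432 := by
  rintro ⟨P, hP⟩
  obtain ⟨x₀, hx₀⟩ := Run7.h510.G.Six.density_all 1 (Or.inl rfl)
  obtain ⟨p, hp1, hp2, -, hp3⟩ := inf_of_density (R := fun p => p.Prime ∧ p % 6 = 1 ∧
      ¬ (p : ℤ) ^ 2 ∣ 1 * (432 ^ (p - 1) - 1) - 0 * p) ⟨x₀, fun x hx =>
      hx₀ x hx 0 1 one_ne_zero (by simpa using (Real.exp_pos _).le)
        (by simpa using Real.one_le_exp (by positivity))⟩ P
  apply hp3
  have h1 := hP p hp2 hp1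
  have h2 : WQ p ((432 : ℕ) : ℚ) := by exact_mod_cast h1
  rw [WQ_nat hp2] at h2
  simpa using h2

/-- `a` has infinitely many `m` with a primitive prime factor of `a^m - 1` dividing it once. -/
def Gd (a : ℕ) : Prop := {m : ℕ | 1 ≤ m ∧ ∃ p : ℕ, p.Prime ∧ p ∣ a ^ m - 1 ∧
  (∀ k : ℕ, 1 ≤ k → k < m → ¬ p ∣ a ^ k - 1) ∧ ¬ p ^ 2 ∣ a ^ m - 1}.Infinite

/-- infinitely many non-Wieferich primes suffice. -/
theorem Gd_of {a : ℕ} (ha : 2 ≤ a) (h : ¬ Ev a) : Gd a := by
  unfold Gd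
  refine Set.infinite_of_forall_exists_gt fun K => ?_
  unfold Ev at h
  push Not at h
  obtain ⟨p, hp, hB, hnd⟩ := h (a ^ (K + 7))
  haveI : Fact p.Prime := ⟨hp⟩
  rw [WQ_nat hp] at hnd
  have key : ∀ m : ℕ, p ∣ a ^ m - 1 ↔ (a : ZMod p) ^ m = 1 := by
    intro m
    have h1 : 1 ≤ a ^ m := Nat.one_le_pow _ _ (by omega)
    rw [← CharP.cast_eq_zero_iff (ZMod p) p, Nat.cast_sub h1]
    push_cast
    exact sub_eq_zero
  have hap : a < p := by
    have : a ^ 1 ≤ a ^ (K + 7) := Nat.pow_le_pow_right (by omega) (by omega)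
    rw [pow_one] at this
    omega
  have ha0 : (a : ZMod p) ≠ 0 := by
    intro hc
    rw [CharP.cast_eq_zero_iff (ZMod p) p] at hc
    have := Nat.le_of_dvd (by omega) hc
    omega
  have hflt : (a : ZMod p) ^ (p - 1) = 1 := ZMod.pow_card_sub_one_eq_one ha0
  have hpos : 0 < orderOf (a : ZMod p) := by
    apply orderOf_pos_iff.mpr
    exact isOfFinOrder_iff_pow_eq_one.mpr ⟨p - 1, by have := hp.two_le; omega, hflt⟩
  have hdvd : orderOf (a : ZMod p) ∣ p - 1 := orderOf_dvd_of_pow_eq_one hflt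
  set n := orderOf (a : ZMod p) with hn
  have hpn : p ∣ a ^ n - 1 := (key n).mpr (pow_orderOf_eq_one _)
  have hne : a ^ n - 1 ≠ 0 := by
    have : a ^ 1 ≤ a ^ n := Nat.pow_le_pow_right (by omega) hpos
    rw [pow_one] at this
    omega
  have hle : p ≤ a ^ n - 1 := Nat.le_of_dvd (by omega) hpn
  have hlt : K + 7 < n := by
    have : a ^ (K + 7) < a ^ n := by omega
    exact (Nat.pow_lt_pow_iff_right (by omega)).mp this
  refine ⟨n, ⟨by omega, p, hp, hpn, ?_, ?_⟩, by omega⟩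
  · intro m h1 hm hc
    have := orderOf_dvd_of_pow_eq_one ((key m).mp hc)
    have := Nat.le_of_dvd (by omega) this
    omega
  · intro h2
    apply hnd
    have h3 : p ^ 2 ∣ a ^ (p - 1) - 1 := h2.trans (Nat.pow_sub_one_dvd_pow_sub_one a hdvd)
    have h4 : 1 ≤ a ^ (p - 1) := Nat.one_le_pow _ _ (by omega)
    have h5 : ((p ^ 2 : ℕ) : ℤ) ∣ ((a ^ (p - 1) - 1 : ℕ) : ℤ) := by exact_mod_cast h3
    rw [Nat.cast_sub h4] at h5
    push_cast at h5
    exact h5

/-- the converse. -/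
theorem not_Ev_of {a : ℕ} (ha : 2 ≤ a) (h : Gd a) : ¬ Ev a := by
  rintro ⟨P, hP⟩
  unfold Gd at h
  obtain ⟨m, ⟨hm1, p, hp, hpm, hprim, hsq⟩, hm⟩ := h.exists_gt (P + 2)
  haveI : Fact p.Prime := ⟨hp⟩
  have key : ∀ m : ℕ, p ∣ a ^ m - 1 ↔ (a : ZMod p) ^ m = 1 := by
    intro m
    have h1 : 1 ≤ a ^ m := Nat.one_le_pow _ _ (by omega)
    rw [← CharP.cast_eq_zero_iff (ZMod p) p, Nat.cast_sub h1]
    push_cast
    exact sub_eq_zero
  have ha0 : (a : ZMod p) ≠ 0 := by
    intro hc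
    have h1 := (key m).mp hpm
    rw [hc, zero_pow (by omega)] at h1
    exact zero_ne_one h1
  have hflt : (a : ZMod p) ^ (p - 1) = 1 := ZMod.pow_card_sub_one_eq_one ha0
  have hpp := hp.two_le
  -- `m ∣ p - 1`
  have hord : m = orderOf (a : ZMod p) := by
    have h1 : 0 < orderOf (a : ZMod p) :=
      orderOf_pos_iff.mpr (isOfFinOrder_iff_pow_eq_one.mpr ⟨p - 1, by omega, hflt⟩)
    have h2 : orderOf (a : ZMod p) ∣ m := orderOf_dvd_of_pow_eq_one ((key m).mp hpm)
    have h3 := Nat.le_of_dvd (by omega) h2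
    by_contra h4
    exact hprim _ h1 (by omega) ((key _).mpr (pow_orderOf_eq_one _))
  have hdvd : m ∣ p - 1 := by
    rw [hord]
    exact orderOf_dvd_of_pow_eq_one hflt
  have hmp : m ≤ p - 1 := Nat.le_of_dvd (by omega) hdvd
  have hW := hP p hp (by omega)
  rw [WQ_nat hp] at hW
  apply hsq
  obtain ⟨e, he⟩ := hdvd
  have hodd : Odd p := hp.odd_of_ne_two (by omega)
  have he0 : e ≠ 0 := by
    rintro rfl
    omega
  have hpe : ¬ p ∣ e := by
    intro h1
    have h2 := Nat.le_of_dvd (Nat.pos_of_ne_zero he0) h1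
    have h3 : e ≤ m * e := Nat.le_mul_of_pos_left e hm1
    omega
  have hnam : ¬ p ∣ a ^ m := by
    intro h1
    have h2 : ((a ^ m : ℕ) : ZMod p) = 0 := (CharP.cast_eq_zero_iff (ZMod p) p _).mpr h1
    push_cast at h2
    exact pow_ne_zero m ha0 h2
  have hgt : 1 < a ^ m := Nat.one_lt_pow (by omega) (by omega)
  have h5 := padicValNat.pow_sub_pow (p := p) (hyx := hgt) hodd hpm hnam (n := e) he0
  rw [one_pow, padicValNat.eq_zero_of_not_dvd hpe, add_zero, ← pow_mul, ← he] at h5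
  have hne2 : a ^ m - 1 ≠ 0 := by omega
  have hgt3 : 1 < a ^ (p - 1) := Nat.one_lt_pow (by omega) (by omega)
  have hne3 : a ^ (p - 1) - 1 ≠ 0 := by omega
  have h3 : p ^ 2 ∣ a ^ (p - 1) - 1 := by
    zify [hgt3.le]
    exact hW
  rw [padicValNat_dvd_iff_le hne3, h5] at h3
  exact (padicValNat_dvd_iff_le hne2).mpr h3

theorem Gd_iff {a : ℕ} (ha : 2 ≤ a) : Gd a ↔ ¬ Ev a := ⟨not_Ev_of ha, Gd_of ha⟩

/-- two exceptional bases never differ by a power of `2`. -/
theorem ratio {n i j : ℕ} (hn : 0 < n) (hij : i < j) (h1 : Ev ((n * 2 ^ i : ℕ) : ℚ))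
    (h2 : Ev ((n * 2 ^ j : ℕ) : ℚ)) : False := by
  have hn0 : (n : ℚ) ≠ 0 := by exact_mod_cast hn.ne'
  have h10 : ((n * 2 ^ i : ℕ) : ℚ) ≠ 0 := by push_cast; positivity
  have h20 : ((n * 2 ^ j : ℕ) : ℚ) ≠ 0 := by push_cast; positivity
  have m1 : Units.mk0 _ h10 ∈ B := h1
  have m2 : Units.mk0 _ h20 ∈ B := h2
  have m3 := B.mul_mem m2 (B.inv_mem m1)
  have e : Units.mk0 _ h20 * (Units.mk0 _ h10)⁻¹ = (Units.mk0 (2 : ℚ) two_ne_zero) ^ (j - i) := by
    ext
    rw [Units.val_mul, Units.val_inv_eq_inv_val, Units.val_pow_eq_pow_val, Units.val_mk0,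
      Units.val_mk0, Units.val_mk0]
    push_cast
    have hji : j = i + (j - i) := by omega
    conv_lhs => rw [hji, pow_add]
    field_simp
  rw [e] at m3
  exact not_Ev_two (B_root _ (j - i) (by omega) m3)

/-- at least half of the integers are not exceptional. -/
theorem half (x : ℕ) : x ≤ 2 * {a : ℕ | 2 ≤ a ∧ a ≤ x ∧ Gd a}.ncard + 1 := by
  classical
  set G : Finset ℕ := (Finset.Icc 2 x).filter (fun a => Gd a) with hG
  set E : Finset ℕ := (Finset.Icc 2 x).filter (fun a => ¬ Gd a) with hE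
  have h1 : G.card + E.card = (Finset.Icc 2 x).card :=
    Finset.card_filter_add_card_filter_not (s := Finset.Icc 2 x) (fun a => Gd a)
  rw [Nat.card_Icc] at h1
  have h2 : {a : ℕ | 2 ≤ a ∧ a ≤ x ∧ Gd a} = (G : Set ℕ) := by
    ext a
    rw [hG, Finset.mem_coe, Finset.mem_filter, Finset.mem_Icc, and_assoc]
    rfl
  rw [h2, Set.ncard_coe_finset]
  -- the odd part is injective on `E`, with values the odd numbers `≥ 3`
  have h3 : E.card ≤ ((Finset.Icc 3 x).filter (fun a => a % 2 = 1)).card := by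
    apply Finset.card_le_card_of_injOn (fun a => ordCompl[2] a)
    · intro a ha
      rw [hE, Finset.mem_coe, Finset.mem_filter, Finset.mem_Icc] at ha
      obtain ⟨⟨ha2, hax⟩, haE⟩ := ha
      rw [Finset.mem_coe, Finset.mem_filter, Finset.mem_Icc]
      show (3 ≤ ordCompl[2] a ∧ ordCompl[2] a ≤ x) ∧ ordCompl[2] a % 2 = 1
      have hodd : ¬ 2 ∣ ordCompl[2] a := Nat.not_dvd_ordCompl Nat.prime_two (by omega)
      have hle : ordCompl[2] a ≤ a := Nat.ordCompl_le a 2
      have hpos : 0 < ordCompl[2] a := Nat.ordCompl_pos 2 (by omega)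
      refine ⟨⟨?_, by omega⟩, by omega⟩
      by_contra hlt
      have h1' : ordCompl[2] a = 1 := by omega
      have h4 := Nat.ordProj_mul_ordCompl_eq_self a 2
      rw [h1', mul_one] at h4
      have h5 : Ev a := by
        by_contra h6
        exact haE (Gd_of ha2 h6)
      have hk : 0 < a.factorization 2 := by
        rw [Nat.pos_iff_ne_zero]
        intro h6
        rw [h6] at h4
        omega
      have h20 : (2 : ℚ) ≠ 0 := two_ne_zero
      apply not_Ev_two
      apply B_root (Units.mk0 (2 : ℚ) h20) (a.factorization 2) hk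
      show Ev _
      rw [Units.val_pow_eq_pow_val, Units.val_mk0]
      have h7 : ((2 : ℚ)) ^ a.factorization 2 = (a : ℚ) := by exact_mod_cast h4
      rw [h7]
      exact h5
    · intro a ha b hb hab
      rw [hE, Finset.mem_coe, Finset.mem_filter, Finset.mem_Icc] at ha hb
      obtain ⟨⟨ha2, hax⟩, haE⟩ := ha
      obtain ⟨⟨hb2, hbx⟩, hbE⟩ := hb
      have ha5 : Ev a := by
        by_contra h6
        exact haE (Gd_of ha2 h6)
      have hb5 : Ev b := by
        by_contra h6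
        exact hbE (Gd_of hb2 h6)
      simp only at hab
      have ea := Nat.ordProj_mul_ordCompl_eq_self a 2
      have eb := Nat.ordProj_mul_ordCompl_eq_self b 2
      set n := ordCompl[2] a with hn
      have hnpos : 0 < n := Nat.ordCompl_pos 2 (by omega)
      rw [← hab] at eb
      rcases lt_trichotomy (a.factorization 2) (b.factorization 2) with h | h | h
      · exfalso
        apply ratio hnpos h
        · rw [mul_comm, ea]
          exact ha5
        · rw [mul_comm, eb]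
          exact hb5
      · rw [← ea, ← eb, h]
      · exfalso
        apply ratio hnpos h
        · rw [mul_comm, eb]
          exact hb5
        · rw [mul_comm, ea]
          exact ha5
  have h4 : ((Finset.Icc 3 x).filter (fun a => a % 2 = 1)).card ≤ (x - 1) / 2 := by
    have h5 : (Finset.Icc 3 x).filter (fun a => a % 2 = 1) ⊆
        (Finset.Icc 1 ((x - 1) / 2)).image (fun k => 2 * k + 1) := by
      intro a ha
      rw [Finset.mem_filter, Finset.mem_Icc] at ha
      rw [Finset.mem_image]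
      refine ⟨a / 2, ?_, by omega⟩
      rw [Finset.mem_Icc]
      omega
    refine (Finset.card_le_card h5).trans (Finset.card_image_le.trans ?_)
    rw [Nat.card_Icc]
    omega
  omega

end Run7.h510.G.Bases
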