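import Mathlib
import Pool.Agent.Run7.h510.B3.Lerch

/-!
From `(1-ζ^j)^(p^N) ≡ 1-ζ^j (mod p²)` for all `j` to the vanishing modulo `p` of the sums
`∑_{i ≡ b (mod m)} 1/i`, and of the harmonic numbers `H_k`, `p ∣ m k + 1`, `k < p`.
-/

namespace Run7.h510.G.Cyc

open Finset

section Ring

variable {R : Type*} [CommRing R]

/-- the truncated logarithm `∑_{0<i<p} (C(p,i)/p) (-y)^i`. -/
def T (p : ℕ) (y : R) : R := ∑ i ∈ Ico 1 p, ((p.choose i / p : ℕ) : R) * (-y) ^ i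

theorem expand {p : ℕ} (hp : p.Prime) (h2 : p ≠ 2) (y : R) :
    (1 - y) ^ p = 1 - y ^ p + p * T p y := by
  have h1 : (1 - y) ^ p = ∑ i ∈ range (p + 1), (-y) ^ i * (p.choose i : R) := by
    rw [show (1 : R) - y = -y + 1 by ring, add_pow]
    apply sum_congr rfl
    intro i _
    rw [one_pow, mul_one]
  have h3 : (-y) ^ p = - y ^ p := (hp.odd_of_ne_two h2).neg_pow y
  have hp0 : 0 < p := hp.pos
  rw [h1, sum_range_succ, Nat.choose_self, Nat.cast_one, mul_one, h3,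
    range_eq_Ico, ← sum_erase_add (Ico 0 p) _ (mem_Ico.mpr ⟨le_refl 0, hp0⟩)]
  have h4 : (Ico 0 p).erase 0 = Ico 1 p := by
    ext i
    rw [mem_erase, mem_Ico, mem_Ico]
    omega
  rw [h4]
  have h5 : ∑ i ∈ Ico 1 p, (-y) ^ i * (p.choose i : R) = p * T p y := by
    unfold T
    rw [mul_sum]
    apply sum_congr rfl
    intro i hi
    rw [mem_Ico] at hi
    have h6 : p ∣ p.choose i := hp.dvd_choose_self (by omega) hi.2
    have h7 : (p.choose i : R) = (p : R) * ((p.choose i / p : ℕ) : R) := by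
      rw [← Nat.cast_mul, Nat.mul_div_cancel' h6]
    rw [h7]
    ring
  rw [h5]
  simp
  ring

/-- the key step: the truncated logarithm vanishes modulo `p`. -/
theorem T_dvd {p : ℕ} (hp : p.Prime) (h2 : p ≠ 2) (hreg : ∀ z : R, (p : R) * z = 0 → z = 0)
    {N : ℕ} (hN : 2 ≤ N) {y : R} (h1 : (p : R) ^ 2 ∣ (1 - y) ^ p ^ N - (1 - y))
    (h3 : (p : R) ^ 2 ∣ (1 - y ^ p) ^ p ^ N - (1 - y ^ p)) : (p : R) ∣ T p y := by
  have e1 : (p : R) ∣ (1 - y) ^ p - (1 - y ^ p) := by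
    rw [expand hp h2]
    exact ⟨T p y, by ring⟩
  have e2 := dvd_sub_pow_of_dvd_sub e1 (N - 1)
  have hN1 : N - 1 + 1 = N := by omega
  rw [hN1, ← pow_mul] at e2
  have e3 : p * p ^ (N - 1) = p ^ N := by
    rw [← pow_succ', hN1]
  rw [e3] at e2
  have e4 : (p : R) ^ 2 ∣ (1 - y) ^ p ^ N - (1 - y ^ p) ^ p ^ (N - 1) :=
    (pow_dvd_pow _ hN).trans e2
  have e5 : (p : R) ^ 2 ∣ (1 - y) - (1 - y ^ p) ^ p ^ (N - 1) := by
    have := dvd_sub e4 h1
    have e : (1 - y) ^ p ^ N - (1 - y ^ p) ^ p ^ (N - 1) - ((1 - y) ^ p ^ N - (1 - y)) =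
        (1 - y) - (1 - y ^ p) ^ p ^ (N - 1) := by ring
    rwa [e] at this
  have e6 : (p : R) ^ 2 ∣ (1 - y) ^ p - ((1 - y ^ p) ^ p ^ (N - 1)) ^ p :=
    e5.trans (sub_dvd_pow_sub_pow _ _ p)
  rw [← pow_mul, ← pow_succ, hN1] at e6
  have e7 := dvd_add e6 h3
  have e8 : (1 - y) ^ p - (1 - y ^ p) ^ p ^ N + ((1 - y ^ p) ^ p ^ N - (1 - y ^ p)) =
      p * T p y := by
    rw [expand hp h2]
    ring
  rw [e8] at e7
  obtain ⟨w, hw⟩ := e7
  refine ⟨w, ?_⟩
  have h5 : (p : R) * (T p y - p * w) = 0 := by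
    rw [mul_sub, hw]
    ring
  exact sub_eq_zero.mp (hreg _ h5)

variable [IsDomain R]

theorem geom_root {m : ℕ} (hm : 0 < m) {ζ : R} (hζ : IsPrimitiveRoot ζ m) (t : ℕ) :
    ∑ j ∈ range m, (ζ ^ t) ^ j = if m ∣ t then (m : R) else 0 := by
  split_ifs with h
  · have : ζ ^ t = 1 := (hζ.pow_eq_one_iff_dvd t).mpr h
    rw [this]
    simp
  · have h1 : ζ ^ t ≠ 1 := fun h2 => h ((hζ.pow_eq_one_iff_dvd t).mp h2)
    have h3 := mul_geom_sum (ζ ^ t) m
    rw [← pow_mul, mul_comm t m, pow_mul, hζ.pow_eq_one, one_pow, sub_self] at h3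
    rcases mul_eq_zero.mp h3 with h4 | h4
    · exact absurd (sub_eq_zero.mp h4) h1
    · exact h4

/-- the partial sums of the truncated logarithm. -/
def Tt (m p t : ℕ) : ℤ := ∑ i ∈ (Ico 1 p).filter (fun i => m ∣ t + i), (-1) ^ i * ((p.choose i / p : ℕ) : ℤ)

theorem fourier {m : ℕ} (hm : 0 < m) {ζ : R} (hζ : IsPrimitiveRoot ζ m) (p t : ℕ) :
    ∑ j ∈ range m, ζ ^ (j * t) * T p (ζ ^ j) = (m : R) * ((Tt m p t : ℤ) : R) := by
  unfold T Tt
  have h1 : ∀ j ∈ range m, ζ ^ (j * t) * ∑ i ∈ Ico 1 p, ((p.choose i / p : ℕ) : R) * (-ζ ^ j) ^ i =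
      ∑ i ∈ Ico 1 p, ((-1) ^ i * ((p.choose i / p : ℕ) : R)) * (ζ ^ (t + i)) ^ j := by
    intro j _
    rw [mul_sum]
    apply sum_congr rfl
    intro i _
    rw [neg_pow (ζ ^ j) i, ← pow_mul, ← pow_mul]
    have : ζ ^ ((t + i) * j) = ζ ^ (j * t) * ζ ^ (j * i) := by
      rw [← pow_add]
      congr 1
      ring
    rw [this]
    ring
  rw [sum_congr rfl h1, sum_comm]
  have h2 : ∀ i ∈ Ico 1 p, ∑ j ∈ range m, ((-1) ^ i * ((p.choose i / p : ℕ) : R)) * (ζ ^ (t + i)) ^ j =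
      (m : R) * (if m ∣ t + i then ((-1) ^ i * ((p.choose i / p : ℕ) : R)) else 0) := by
    intro i _
    rw [← mul_sum, geom_root hm hζ]
    split_ifs <;> ring
  rw [sum_congr rfl h2, ← mul_sum, ← sum_filter]
  simp only [Int.cast_sum, Int.cast_mul, Int.cast_pow, Int.cast_neg, Int.cast_one,
    Int.cast_natCast]

end Ring

section Harm

/-- `C(p-1,k) ≡ (-1)^k`. -/
theorem choose_pred {p : ℕ} (hp : p.Prime) (k : ℕ) (hk : k < p) :
    (p : ℤ) ∣ ((p - 1).choose k : ℤ) - (-1) ^ k := by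
  induction k with
  | zero => simp
  | succ k ih =>
    have h1 := ih (by omega)
    have h2 : p.choose (k + 1) = (p - 1).choose k + (p - 1).choose (k + 1) := by
      have : p = (p - 1) + 1 := by have := hp.pos; omega
      rw [this, Nat.choose_succ_succ]
      simp
    have h3 : (p : ℤ) ∣ (p.choose (k + 1) : ℤ) := by
      exact_mod_cast hp.dvd_choose_self (by omega) hk
    rw [h2] at h3
    push_cast at h3
    have h4 := dvd_sub h3 h1
    have e : ((p - 1).choose k : ℤ) + ((p - 1).choose (k + 1) : ℤ) -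
        (((p - 1).choose k : ℤ) - (-1) ^ k) =
        ((p - 1).choose (k + 1) : ℤ) - (-1) ^ (k + 1) := by
      rw [pow_succ]
      ring
    rwa [e] at h4

theorem Sm_int {p : ℕ} (hp : p.Prime) {n : ℤ} (h : (p : ℤ) ∣ n) : Sm p (n : ℚ) := by
  obtain ⟨w, hw⟩ := h
  rw [hw]
  push_cast
  apply Sm.p_mul hp
  exact Ig.int hp w

/-- `(-1)^i C(p,i)/p + 1/i ≡ 0`. -/
theorem term_sm {p : ℕ} (hp : p.Prime) {i : ℕ} (hi : i ∈ Ico 1 p) :
    Sm p ((((-1) ^ i * ((p.choose i / p : ℕ) : ℤ) : ℤ) : ℚ) + (i : ℚ)⁻¹) := by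
  rw [mem_Ico] at hi
  have hpi : ¬ p ∣ i := fun h => by
    have := Nat.le_of_dvd (by omega) h
    omega
  apply Sm.of_mul hp hpi
  have hi0 : (i : ℚ) ≠ 0 := by
    have : i ≠ 0 := by omega
    exact_mod_cast this
  have h1 : i * (p.choose i / p) = (p - 1).choose (i - 1) := by
    have h2 : p ∣ p.choose i := hp.dvd_choose_self (by omega) hi.2
    obtain ⟨w, hw⟩ := h2
    rw [hw, Nat.mul_div_cancel_left _ hp.pos]
    have h3 := Nat.add_one_mul_choose_eq (p - 1) (i - 1)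
    have h4 : p - 1 + 1 = p := by have := hp.pos; omega
    have h5 : i - 1 + 1 = i := by omega
    rw [h4, h5, hw] at h3
    have h6 : p * ((p - 1).choose (i - 1)) = p * (i * w) := by
      rw [h3]
      ring
    exact (Nat.eq_of_mul_eq_mul_left hp.pos h6).symm
  have h7 := choose_pred hp (i - 1) (by omega)
  have h8 : (i : ℚ) * ((((-1) ^ i * ((p.choose i / p : ℕ) : ℤ) : ℤ) : ℚ) + (i : ℚ)⁻¹) =
      (((-1) ^ i * (((p - 1).choose (i - 1) : ℤ) - (-1) ^ (i - 1)) : ℤ) : ℚ) := by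
    rw [mul_add, mul_inv_cancel₀ hi0, ← h1]
    have h9 : (-1 : ℚ) ^ i * (-1) ^ (i - 1) = -1 := by
      have : i = (i - 1) + 1 := by omega
      conv_lhs => rw [this]
      rw [Nat.add_sub_cancel, pow_succ, mul_assoc, ← mul_comm ((-1 : ℚ) ^ (i - 1)), ← mul_assoc,
        ← mul_pow]
      norm_num
    push_cast
    linear_combination h9
  rw [h8]
  apply Sm_int hp
  exact dvd_mul_of_dvd_right h7 _

/-- the sums `∑_{m ∣ t + i} 1/i`. -/
theorem S_sm {p : ℕ} (hp : p.Prime) {m t : ℕ} (h : (p : ℤ) ∣ Tt m p t) :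
    Sm p (∑ i ∈ (Ico 1 p).filter (fun i => m ∣ t + i), (i : ℚ)⁻¹) := by
  have h1 : ∑ i ∈ (Ico 1 p).filter (fun i => m ∣ t + i), (i : ℚ)⁻¹ =
      ∑ i ∈ (Ico 1 p).filter (fun i => m ∣ t + i),
        ((((-1) ^ i * ((p.choose i / p : ℕ) : ℤ) : ℤ) : ℚ) + (i : ℚ)⁻¹) - ((Tt m p t : ℤ) : ℚ) := by
    rw [sum_add_distrib]
    unfold Tt
    push_cast
    ring
  rw [h1]
  apply Sm.sub hp
  · apply Sm.sum hp
    intro i hi
    exact term_sm hp (mem_filter.mp hi).1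
  · exact Sm_int hp h

/-- the harmonic numbers from the sums over residue classes. -/
theorem harm_of_S {p : ℕ} (hp : p.Prime) {m : ℕ} (hm : 2 ≤ m) (hmp : m < p) {k : ℕ} (hk : k < p)
    (hd : p ∣ m * k + 1)
    (h : ∀ t, Sm p (∑ i ∈ (Ico 1 p).filter (fun i => m ∣ t + i), (i : ℚ)⁻¹)) :
    Sm p (harmonic k) := by
  obtain ⟨q0, hq0⟩ := hd
  have hpm : ¬ p ∣ m := fun h => by
    have := Nat.le_of_dvd (by omega) h
    omega
  have hndvd : ∀ n ∈ Ico 1 (k + 1), ¬ p ∣ m * n := by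
    intro n hn h1
    rw [mem_Ico] at hn
    rcases (Nat.Prime.dvd_mul hp).1 h1 with h2 | h2
    · exact hpm h2
    · have := Nat.le_of_dvd (by omega) h2
      omega
  have e1 : harmonic k = ∑ n ∈ Ico 1 (k + 1), (n : ℚ)⁻¹ := by
    unfold harmonic
    rw [range_eq_Ico, ← sum_Ico_add' (fun n : ℕ => ((n : ℕ) : ℚ)⁻¹) 0 k 1]
  have e2 : harmonic k = ∑ n ∈ Ico 1 (k + 1),
      (m : ℚ) * (((m * n : ℕ) : ℚ)⁻¹ - ((m * n % p : ℕ) : ℚ)⁻¹) +
      m * ∑ n ∈ Ico 1 (k + 1), ((m * n % p : ℕ) : ℚ)⁻¹ := by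
    rw [mul_sum, ← sum_add_distrib, e1]
    apply sum_congr rfl
    intro n hn
    rw [mem_Ico] at hn
    have hm0 : (m : ℚ) ≠ 0 := by
      have : m ≠ 0 := by omega
      exact_mod_cast this
    have hn0 : (n : ℚ) ≠ 0 := by
      have : n ≠ 0 := by omega
      exact_mod_cast this
    push_cast
    field_simp
    ring
  have e3 : ∑ n ∈ Ico 1 (k + 1), ((m * n % p : ℕ) : ℚ)⁻¹ =
      ∑ q ∈ range q0, ∑ i ∈ (Ico 1 p).filter (fun i => m ∣ q * p + i), (i : ℚ)⁻¹ := by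
    rw [sum_sigma']
    apply sum_bij' (fun (n : ℕ) _ => (⟨m * n / p, m * n % p⟩ : (_ : ℕ) × ℕ))
      (fun (x : (_ : ℕ) × ℕ) _ => (x.1 * p + x.2) / m)
    · intro n hn
      have h1 := hndvd n hn
      rw [mem_Ico] at hn
      rw [mem_sigma, mem_range, mem_filter, mem_Ico]
      refine ⟨?_, ⟨?_, Nat.mod_lt _ hp.pos⟩, ?_⟩
      · rw [Nat.div_lt_iff_lt_mul hp.pos, mul_comm q0 p, ← hq0]
        have := Nat.mul_le_mul_left m (show n ≤ k by omega)
        omega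
      · rw [Nat.one_le_iff_ne_zero]
        intro h2
        exact h1 (Nat.dvd_of_mod_eq_zero h2)
      · have : m * n / p * p + m * n % p = m * n := by
          rw [mul_comm (m * n / p) p]
          exact Nat.div_add_mod _ _
        rw [this]
        exact dvd_mul_right _ _
    · intro x hx
      rw [mem_sigma, mem_range, mem_filter, mem_Ico] at hx
      obtain ⟨h1, ⟨h2, h3⟩, h4⟩ := hx
      rw [mem_Ico]
      constructor
      · rw [Nat.one_le_div_iff (by omega)]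
        exact Nat.le_of_dvd (by omega) h4
      · rw [Nat.lt_succ_iff]
        have h5 : x.1 * p + x.2 < m * k + 1 := by
          rw [hq0, mul_comm p q0]
          have : (x.1 + 1) * p ≤ q0 * p := Nat.mul_le_mul_right p h1
          rw [Nat.add_mul] at this
          omega
        calc (x.1 * p + x.2) / m ≤ (m * k) / m := Nat.div_le_div_right (by omega)
          _ = k := Nat.mul_div_cancel_left k (by omega)
    · intro n hn
      simp only
      have : m * n / p * p + m * n % p = m * n := by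
        rw [mul_comm (m * n / p) p]
        exact Nat.div_add_mod _ _
      rw [this]
      exact Nat.mul_div_cancel_left n (by omega)
    · intro x hx
      rw [mem_sigma, mem_range, mem_filter, mem_Ico] at hx
      obtain ⟨h1, ⟨h2, h3⟩, h4⟩ := hx
      rw [Nat.mul_div_cancel' h4]
      have h5 : (x.1 * p + x.2) / p = x.1 := by
        rw [mul_comm, Nat.mul_add_div hp.pos, Nat.div_eq_of_lt h3, add_zero]
      have h6 : (x.1 * p + x.2) % p = x.2 := by
        rw [mul_comm, Nat.mul_add_mod, Nat.mod_eq_of_lt h3]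
      rw [h5, h6]
    · intro n hn
      rfl
  rw [e2, e3]
  apply Sm.add hp
  · apply Sm.sum hp
    intro n hn
    have h1 := hndvd n hn
    have h2 : ¬ p ∣ m * n % p := by
      rwa [Nat.dvd_mod_iff dvd_rfl]
    have h3 : ((m * n : ℕ) : ℚ) ≠ 0 := by
      intro h4
      apply h1
      have : m * n = 0 := by exact_mod_cast h4
      rw [this]
      exact dvd_zero _
    have h3' : ((m * n % p : ℕ) : ℚ) ≠ 0 := by
      intro h4
      apply h2
      have : m * n % p = 0 := by exact_mod_cast h4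
      rw [this]
      exact dvd_zero _
    have h5 : ((m * n : ℕ) : ℚ) = p * ((m * n / p : ℕ) : ℚ) + ((m * n % p : ℕ) : ℚ) := by
      rw [← Nat.cast_mul, ← Nat.cast_add]
      congr 1
      exact (Nat.div_add_mod _ _).symm
    have h6 : (m : ℚ) * (((m * n : ℕ) : ℚ)⁻¹ - ((m * n % p : ℕ) : ℚ)⁻¹) =
        p * ((((-(m : ℤ) * ((m * n / p : ℕ) : ℤ) : ℤ)) : ℚ) *
          (((m * n : ℕ) : ℚ)⁻¹ * ((m * n % p : ℕ) : ℚ)⁻¹)) := by
      have h7 : ((m * n : ℕ) : ℚ)⁻¹ - ((m * n % p : ℕ) : ℚ)⁻¹ =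
          (((m * n % p : ℕ) : ℚ) - ((m * n : ℕ) : ℚ)) *
            (((m * n : ℕ) : ℚ)⁻¹ * ((m * n % p : ℕ) : ℚ)⁻¹) := by
        field_simp
      have h8 : ((m * n % p : ℕ) : ℚ) - ((m * n : ℕ) : ℚ) = -(p * ((m * n / p : ℕ) : ℚ)) := by
        rw [h5]
        ring
      rw [h7, h8]
      simp only [Int.cast_mul, Int.cast_neg, Int.cast_natCast]
      ring
    rw [h6]
    apply Sm.p_mul hp
    exact Ig.mul hp (Ig.int hp _) (Ig.mul hp (Ig.inv hp h1) (Ig.inv hp h2))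
  · rw [mul_comm]
    apply Sm.mul hp _ (Ig.nat hp m)
    apply Sm.sum hp
    intro q _
    exact h (q * p)

end Harm

end Run7.h510.G.Cyc
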