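import Mathlib
import Pool.Agent.Run7.h510.G.CycRing
import Pool.Agent.Run7.h510.G.Full

/-!
Non-Wieferich places for the cyclotomic numbers `1 - ζ`.
-/

namespace Run7.h510.G.Cyc

open NumberField

section Ded

variable {R : Type*} [CommRing R] [IsDedekindDomain R]

/-- `π² ∣ x` from membership in the squares of all the primes above `π`. -/
theorem sq_dvd_of_mem {π : R} (hp0 : π ≠ 0)
    (hred : ∀ (β : R) (k : ℕ), π ∣ β ^ k → π ∣ β) {x : R}
    (hx : ∀ P : Ideal R, P.IsPrime → π ∈ P → x ∈ P ^ 2) : π ^ 2 ∣ x := by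
  have hspan0 : Ideal.span {π} ≠ 0 := by
    rw [Ne, Ideal.zero_eq_bot, Ideal.span_singleton_eq_bot]
    exact hp0
  -- an element of all the primes above `π` is divisible by `π`
  have hrad : ∀ z : R, (∀ P : Ideal R, P.IsPrime → π ∈ P → z ∈ P) → π ∣ z := by
    intro z hz
    have h1 : z ∈ (Ideal.span {π}).radical := by
      rw [Ideal.radical_eq_sInf, Submodule.mem_sInf]
      intro P hP
      obtain ⟨h2, h3⟩ := hP
      exact hz P h3 (h2 (Ideal.mem_span_singleton_self _))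
    obtain ⟨k, hk⟩ := h1
    rw [Ideal.mem_span_singleton] at hk
    exact hred z k hk
  -- the primes above `π` are unramified
  have hunr : ∀ P : Ideal R, P.IsPrime → π ∈ P → ¬ P ^ 2 ∣ Ideal.span {π} := by
    intro P hP hpP hdvd
    obtain ⟨J, hJ⟩ := hdvd
    have h1 : P * J ≤ Ideal.span {π} := by
      intro β hβ
      rw [Ideal.mem_span_singleton]
      apply hred β 2
      rw [← Ideal.mem_span_singleton]
      have h2 : β ^ 2 ∈ (P * J) * (P * J) := by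
        rw [pow_two]
        exact Ideal.mul_mem_mul hβ hβ
      have h3 : (P * J) * (P * J) = Ideal.span {π} * J := by
        rw [hJ]
        ring
      rw [h3] at h2
      have h3' : Ideal.span {π} * J ≤ Ideal.span {π} := Ideal.mul_le_left
      exact h3' h2
    have h4 : P * J ≠ 0 := by
      intro h5
      apply hspan0
      rw [hJ, pow_two, mul_assoc, h5, mul_zero]
    obtain ⟨L, hL⟩ : Ideal.span {π} ∣ P * J := Ideal.dvd_iff_le.mpr h1
    have h5 : (P * J) * (P * L) = (P * J) * 1 := by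
      rw [mul_one]
      conv_rhs => rw [hL, hJ]
      ring
    have h6 : P * L = 1 := mul_left_cancel₀ h4 h5
    have h7 : P = ⊤ := by
      have h7' : P * L ≤ P := Ideal.mul_le_left
      rw [h6, Ideal.one_eq_top] at h7'
      exact top_le_iff.mp h7'
    exact hP.ne_top h7
  have h1 : π ∣ x := hrad x (fun P hP hpP => Ideal.pow_le_self (by norm_num) (hx P hP hpP))
  obtain ⟨z, hz⟩ := h1
  have h2 : π ∣ z := by
    apply hrad
    intro P hP hpP
    obtain ⟨J, hJ⟩ := Ideal.dvd_iff_le.mpr ((Ideal.span_singleton_le_iff_mem P).mpr hpP)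
    have hPJ : ¬ P ∣ J := by
      intro h3
      apply hunr P hP hpP
      rw [hJ, pow_two]
      exact mul_dvd_mul_left P h3
    have hP0 : P ≠ 0 := by
      intro h3
      rw [h3] at hpP
      exact hp0 (by simpa using hpP)
    have h3 : P ^ 2 ∣ Ideal.span {x} := Ideal.dvd_iff_le.mpr
      ((Ideal.span_singleton_le_iff_mem _).mpr (hx P hP hpP))
    have h4 : Ideal.span {x} = P * (J * Ideal.span {z}) := by
      rw [hz, ← Ideal.span_singleton_mul_span_singleton, hJ, mul_assoc]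
    rw [h4, pow_two] at h3
    have h5 : P ∣ J * Ideal.span {z} := (mul_dvd_mul_iff_left hP0).mp h3
    have hPp : Prime P := Ideal.prime_of_isPrime hP0 hP
    rcases hPp.dvd_or_dvd h5 with h6 | h6
    · exact absurd h6 hPJ
    · rw [Ideal.dvd_iff_le, Ideal.span_singleton_le_iff_mem] at h6
      exact h6
  rw [hz, pow_two]
  exact mul_dvd_mul_left _ h2

end Ded

section Root

variable {R : Type*} [CommMonoid R] {m : ℕ} {ζ : R}

theorem pow_mod_eq (hζ : IsPrimitiveRoot ζ m) (a : ℕ) : ζ ^ a = ζ ^ (a % m) := by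
  conv_lhs => rw [← Nat.div_add_mod a m, pow_add, pow_mul, hζ.pow_eq_one, one_pow, one_mul]

theorem pow_of_modEq (hζ : IsPrimitiveRoot ζ m) {a b : ℕ} (h : a ≡ b [MOD m]) :
    ζ ^ a = ζ ^ b := by
  have h1 : a % m = b % m := h
  rw [pow_mod_eq hζ a, pow_mod_eq hζ b, h1]

theorem modEq_of_pow (hζ : IsPrimitiveRoot ζ m) (hm : 0 < m) {a b : ℕ} (h : ζ ^ a = ζ ^ b) :
    a ≡ b [MOD m] := by
  rw [pow_mod_eq hζ a, pow_mod_eq hζ b] at h
  exact hζ.pow_inj (Nat.mod_lt _ hm) (Nat.mod_lt _ hm) h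

end Root

section Field

variable {K : Type*} [Field K] [NumberField K]

variable {m : ℕ} [NeZero m] [IsCyclotomicExtension {m} ℚ K]

/-- the elements of `𝓞 K` are polynomials in `ζ`. -/
theorem exists_poly {ζ : 𝓞 K} (hζ : IsPrimitiveRoot ζ m) (z : 𝓞 K) :
    ∃ G : Polynomial ℤ, Polynomial.aeval ζ G = z := by
  have hζK : IsPrimitiveRoot (ζ : K) m := by
    exact hζ.map_of_injective (f := algebraMap (𝓞 K) K) RingOfIntegers.coe_injective
  have h1 := IsCyclotomicExtension.Rat.adjoin_singleton_eq_top hζK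
  have h2 : hζK.toInteger = ζ := IsPrimitiveRoot.toInteger_coe hζK
  rw [h2, Algebra.adjoin_singleton_eq_range_aeval] at h1
  have h3 : z ∈ (⊤ : Subalgebra ℤ (𝓞 K)) := Algebra.mem_top
  rw [← h1] at h3
  exact h3

/-- Frobenius acts trivially modulo `p` after raising to `p^N`, if `p^N ≡ 1 (mod m)`. -/
theorem frob {ζ : 𝓞 K} (hζ : IsPrimitiveRoot ζ m) {p N : ℕ} (hp : p.Prime)
    (hN : ζ ^ p ^ N = ζ) (z : 𝓞 K) : (p : 𝓞 K) ∣ z ^ p ^ N - z := by
  obtain ⟨G, rfl⟩ := exists_poly hζ z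
  induction G using Polynomial.induction_on' with
  | add F G hF hG =>
    rw [map_add]
    obtain ⟨r, hr⟩ := exists_add_pow_prime_pow_eq hp (Polynomial.aeval ζ F) (Polynomial.aeval ζ G) N
    rw [hr]
    have h1 := dvd_add (dvd_add hF hG) (Dvd.intro
      (Polynomial.aeval ζ F * Polynomial.aeval ζ G * r) (rfl : (p : 𝓞 K) * _ = _))
    convert h1 using 1
    ring
  | monomial n a =>
    rw [Polynomial.aeval_monomial, mul_pow, ← pow_mul, mul_comm n, pow_mul, hN, ← sub_mul]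
    apply dvd_mul_of_dvd_left
    have h1 : (p : ℤ) ∣ a ^ p ^ N - a := by
      have := Fact.mk hp
      rw [← ZMod.intCast_zmod_eq_zero_iff_dvd]
      push_cast
      rw [ZMod.pow_card_pow, sub_self]
    have h2 := map_dvd (algebraMap ℤ (𝓞 K)) h1
    rw [map_sub, map_pow] at h2
    simpa using h2

/-- radicality of `(p)`. -/
theorem red {ζ : 𝓞 K} (hζ : IsPrimitiveRoot ζ m) {p N : ℕ} (hp : p.Prime) (hN0 : 0 < N)
    (hN : ζ ^ p ^ N = ζ) (β : 𝓞 K) (k : ℕ) (h : (p : 𝓞 K) ∣ β ^ k) : (p : 𝓞 K) ∣ β := by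
  have h1 : ∀ j : ℕ, (p : 𝓞 K) ∣ β ^ p ^ (N * j) - β := by
    intro j
    induction j with
    | zero => simp
    | succ j ih =>
      have h2 := frob hζ hp hN (β ^ p ^ (N * j))
      rw [← pow_mul, ← pow_add] at h2
      have h3 := dvd_add h2 ih
      have e : N * (j + 1) = N * j + N := by ring
      rw [e]
      convert h3 using 1
      ring
  have h2 := h1 k
  have h3 : k ≤ p ^ (N * k) := by
    calc k ≤ N * k := Nat.le_mul_of_pos_left k hN0
      _ ≤ p ^ (N * k) := (Nat.lt_pow_self hp.one_lt).le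
  have h4 : (p : 𝓞 K) ∣ β ^ p ^ (N * k) := h.trans (pow_dvd_pow β h3)
  have h5 := dvd_sub h4 h2
  convert h5 using 1
  ring

/-- conjugation: if `p² ∣ F(ζ)` then `p² ∣ F(ζ^j)`. -/
theorem conj {ζ : 𝓞 K} (hζ : IsPrimitiveRoot ζ m) {j : ℕ} (hj : Nat.Coprime j m)
    (F : Polynomial ℤ) (n : ℤ) (h : (n : 𝓞 K) ∣ Polynomial.aeval ζ F) :
    (n : 𝓞 K) ∣ Polynomial.aeval (ζ ^ j) F := by
  obtain ⟨z, hz⟩ := h
  obtain ⟨G, rfl⟩ := exists_poly hζ z
  have h1 : Polynomial.aeval ζ (F - Polynomial.C n * G) = 0 := by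
    rw [map_sub, map_mul, hz, Polynomial.aeval_C]
    simp
  have hint : IsIntegral ℤ ζ := RingOfIntegers.isIntegral ζ
  have h2 : minpoly ℤ ζ ∣ F - Polynomial.C n * G := minpoly.isIntegrallyClosed_dvd hint h1
  rw [IsPrimitiveRoot.minpoly_eq_pow_coprime hζ hj] at h2
  obtain ⟨H, hH⟩ := h2
  have h3 : Polynomial.aeval (ζ ^ j) (F - Polynomial.C n * G) = 0 := by
    rw [hH, map_mul, minpoly.aeval, zero_mul]
  rw [map_sub, map_mul, Polynomial.aeval_C, sub_eq_zero] at h3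
  rw [h3]
  simp

/-- `p² ∣ x^(p^N) - x`. -/
def W (p N : ℕ) (x : 𝓞 K) : Prop := (p : 𝓞 K) ^ 2 ∣ x ^ p ^ N - x

omit [NeZero m] [IsCyclotomicExtension {m} ℚ K] in
theorem W_mul {p N : ℕ} {x y : 𝓞 K} (hx : W p N x) (hy : W p N y) : W p N (x * y) := by
  unfold W at *
  have h1 : (x * y) ^ p ^ N - x * y = (x ^ p ^ N - x) * y ^ p ^ N + x * (y ^ p ^ N - y) := by
    rw [mul_pow]
    ring
  rw [h1]
  exact dvd_add (dvd_mul_of_dvd_left hx _) (dvd_mul_of_dvd_right hy _)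

omit [NeZero m] [IsCyclotomicExtension {m} ℚ K] in
theorem W_one {p N : ℕ} : W p N (1 : 𝓞 K) := by
  unfold W
  simp

omit [NeZero m] [IsCyclotomicExtension {m} ℚ K] in
theorem W_zero {p N : ℕ} (hp : p.Prime) : W p N (0 : 𝓞 K) := by
  unfold W
  rw [zero_pow (pow_pos hp.pos N).ne', sub_zero]
  exact dvd_zero _

omit [NeZero m] [IsCyclotomicExtension {m} ℚ K] in
theorem W_prod {p N : ℕ} {ι : Type*} (s : Finset ι) (f : ι → 𝓞 K) (h : ∀ i ∈ s, W p N (f i)) :
    W p N (∏ i ∈ s, f i) := by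
  classical
  induction s using Finset.induction_on with
  | empty => simpa using W_one
  | insert a s ha ih =>
    rw [Finset.prod_insert ha]
    exact W_mul (h a (Finset.mem_insert_self _ _))
      (ih (fun i hi => h i (Finset.mem_insert_of_mem hi)))

theorem W_conj {ζ : 𝓞 K} (hζ : IsPrimitiveRoot ζ m) {p N : ℕ} (h : W p N (1 - ζ)) {j : ℕ}
    (hj : Nat.Coprime j m) : W p N (1 - ζ ^ j) := by
  unfold W at *
  have h1 := conj hζ hj ((1 - Polynomial.X) ^ p ^ N - (1 - Polynomial.X)) ((p : ℤ) ^ 2) (by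
    simpa using h)
  simpa using h1

/-- all the roots of unity, in the case of a prime power. -/
theorem W_all {q n : ℕ} (hq : q.Prime) (hm : m = q ^ n) {ζ : 𝓞 K} (hζ : IsPrimitiveRoot ζ m)
    {p N : ℕ} (hp : p.Prime) (h : W p N (1 - ζ)) (j : ℕ) : W p N (1 - ζ ^ j) := by
  have hmpos : 0 < m := NeZero.pos m
  by_cases hmj : m ∣ j
  · rw [(hζ.pow_eq_one_iff_dvd j).mpr hmj, sub_self]
    exact W_zero hp
  have hj0 : j ≠ 0 := by
    rintro rfl
    exact hmj (dvd_zero _)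
  -- write `j = q^i j'`
  obtain ⟨i, j', hj', hji⟩ := Nat.exists_eq_pow_mul_and_not_dvd hj0 q hq.ne_one
  have hin : i < n := by
    by_contra hcon
    push Not at hcon
    apply hmj
    rw [hm, hji]
    exact dvd_mul_of_dvd_left (pow_dvd_pow q hcon) _
  have hprod := IsPrimitiveRoot.pow_sub_pow_eq_prod_sub_mul (1 : 𝓞 K) (ζ ^ j')
    (pow_pos hq.pos i) (hζ.pow hmpos (show m = q ^ (n - i) * q ^ i by
      rw [hm, ← pow_add]
      congr 1
      omega))
  have e : 1 - ζ ^ j = 1 ^ q ^ i - (ζ ^ j') ^ q ^ i := by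
    rw [one_pow, ← pow_mul, hji, mul_comm]
  rw [e, hprod]
  apply W_prod
  intro η hη
  rw [Polynomial.mem_nthRootsFinset (pow_pos hq.pos i)] at hη
  have hηm : η ^ m = 1 := by
    have : m = q ^ i * q ^ (n - i) := by
      rw [hm, ← pow_add]
      congr 1
      omega
    rw [this, pow_mul, hη, one_pow]
  obtain ⟨s, hs, hs'⟩ := hζ.eq_pow_of_pow_eq_one (ξ := η * ζ ^ j') (by
    rw [mul_pow, hηm, ← pow_mul, mul_comm j' m, pow_mul, hζ.pow_eq_one, one_pow, mul_one])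
  rw [← hs']
  apply W_conj hζ h
  rw [hm]
  apply Nat.Coprime.pow_right
  rw [Nat.coprime_comm, Nat.Prime.coprime_iff_not_dvd hq]
  intro hqs
  apply hj'
  -- `s q^i ≡ j' q^i` modulo `q^n`
  have h1 : ζ ^ (s * q ^ i) = ζ ^ (j' * q ^ i) := by
    rw [pow_mul, hs', mul_pow, hη, one_mul, ← pow_mul]
  have h2 : s * q ^ i ≡ j' * q ^ i [MOD m] := modEq_of_pow hζ hmpos h1
  have h3 : (q : ℤ) ^ (i + 1) ∣ (j' * q ^ i : ℤ) - (s * q ^ i : ℤ) := by
    have h4 := Nat.modEq_iff_dvd.mp h2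
    push_cast at h4
    refine dvd_trans ?_ h4
    rw [hm]
    push_cast
    exact pow_dvd_pow _ hin
  have h4 : (q : ℤ) ∣ (j' : ℤ) - s := by
    have hq0 : (q : ℤ) ^ i ≠ 0 := by
      have : (q : ℤ) ≠ 0 := by exact_mod_cast hq.ne_zero
      positivity
    have h5 : (q : ℤ) ^ i * q ∣ (q : ℤ) ^ i * ((j' : ℤ) - s) := by
      rw [← pow_succ]
      convert h3 using 1
      ring
    exact (mul_dvd_mul_iff_left hq0).mp h5
  have h5 : (q : ℤ) ∣ (s : ℤ) := by exact_mod_cast hqs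
  have h6 : (q : ℤ) ∣ (j' : ℤ) := by
    have := dvd_add h4 h5
    simpa using this
  exact_mod_cast h6

omit [NeZero m] [IsCyclotomicExtension {m} ℚ K] in
theorem int_dvd {p : ℕ} (hp : p.Prime) {n : ℤ} (h : (p : 𝓞 K) ∣ (n : 𝓞 K)) : (p : ℤ) ∣ n := by
  have h1 := map_dvd (Algebra.norm ℤ) h
  have e1 : Algebra.norm ℤ ((n : ℤ) : 𝓞 K) = n ^ (Module.finrank ℤ (𝓞 K)) := by
    have := Algebra.norm_algebraMap (S := 𝓞 K) n
    simpa using this
  have e2 : Algebra.norm ℤ ((p : ℕ) : 𝓞 K) = (p : ℤ) ^ (Module.finrank ℤ (𝓞 K)) := by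
    have := Algebra.norm_algebraMap (S := 𝓞 K) (p : ℤ)
    simpa using this
  rw [e1, e2] at h1
  have h2 : 0 < Module.finrank ℤ (𝓞 K) := by
    rw [RingOfIntegers.rank]
    exact Module.finrank_pos
  exact (Int.pow_dvd_pow_iff h2.ne').mp h1

/-- the sums over residue classes vanish. -/
theorem Tt_dvd {ζ : 𝓞 K} (hζ : IsPrimitiveRoot ζ m)
    {p N : ℕ} (hp : p.Prime) (h2 : p ≠ 2) (hpm : ¬ p ∣ m) (hN : 2 ≤ N)
    (h : ∀ j, W p N (1 - ζ ^ j)) (t : ℕ) : (p : ℤ) ∣ Tt m p t := by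
  have hp0 : (p : 𝓞 K) ≠ 0 := by exact_mod_cast hp.ne_zero
  have h1 : ∀ j, (p : 𝓞 K) ∣ T p (ζ ^ j) := by
    intro j
    apply T_dvd hp h2 _ hN (h j)
    · rw [← pow_mul]
      exact h (j * p)
    · intro z hz
      exact (mul_eq_zero.mp hz).resolve_left hp0
  have h3 := fourier (NeZero.pos m) hζ p t
  have h4 : (p : 𝓞 K) ∣ ((m * Tt m p t : ℤ) : 𝓞 K) := by
    have e : ((m * Tt m p t : ℤ) : 𝓞 K) = (m : 𝓞 K) * ((Tt m p t : ℤ) : 𝓞 K) := by
      simp only [Int.cast_mul, Int.cast_natCast]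
    rw [e, ← h3]
    apply Finset.dvd_sum
    intro j _
    exact dvd_mul_of_dvd_right (h1 j) _
  have h5 := int_dvd hp h4
  rcases (Nat.prime_iff_prime_int.mp hp).dvd_or_dvd h5 with h6 | h6
  · exact absurd (by exact_mod_cast h6) hpm
  · exact h6

omit [NeZero m] [IsCyclotomicExtension {m} ℚ K] in
theorem absNorm_above {p : ℕ} (hp : p.Prime) (P : Ideal (𝓞 K)) (hP : P.IsPrime)
    (hpP : (p : 𝓞 K) ∈ P) : ∃ f : ℕ, 0 < f ∧ f ≤ Module.finrank ℤ (𝓞 K) ∧
      Ideal.absNorm P = p ^ f := by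
  have e2 : Algebra.norm ℤ ((p : ℕ) : 𝓞 K) = (p : ℤ) ^ (Module.finrank ℤ (𝓞 K)) := by
    have := Algebra.norm_algebraMap (S := 𝓞 K) (p : ℤ)
    simpa using this
  have h1 := Ideal.absNorm_dvd_absNorm_of_le ((Ideal.span_singleton_le_iff_mem P).mpr hpP)
  rw [Ideal.absNorm_span_singleton, e2, Int.natAbs_pow, Int.natAbs_natCast] at h1
  obtain ⟨f, hf, hf'⟩ := (Nat.dvd_prime_pow hp).mp h1
  refine ⟨f, ?_, hf, hf'⟩
  rw [Nat.pos_iff_ne_zero]
  rintro rfl
  rw [pow_zero, Ideal.absNorm_eq_one_iff] at hf'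
  exact hP.ne_top hf'

/-- if `1 - ζ` is Wieferich at all the primes above `p`. -/
theorem W_of_all {ζ : 𝓞 K} (hζ : IsPrimitiveRoot ζ m) {p : ℕ} (hp : p.Prime) (hpm : ¬ p ∣ m)
    (h : ∀ P : Ideal (𝓞 K), P.IsPrime → (p : 𝓞 K) ∈ P →
      (1 - ζ) ^ (Ideal.absNorm P - 1) - 1 ∈ P ^ 2) : ∃ N, 2 ≤ N ∧ W p N (1 - ζ) := by
  set n := Module.finrank ℤ (𝓞 K) with hn
  set N := 2 * n.factorial * m.totient with hN
  have hn1 : 0 < n.factorial := Nat.factorial_pos n
  have hm1 : 0 < m.totient := Nat.totient_pos.mpr (NeZero.pos m)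
  have hN2 : 2 ≤ N := by
    have := Nat.mul_pos hn1 hm1
    calc 2 = 2 * 1 := rfl
      _ ≤ 2 * (n.factorial * m.totient) := Nat.mul_le_mul_left 2 this
      _ = N := by rw [hN]; ring
  have hζN : ζ ^ p ^ N = ζ := by
    have h1 : p ^ N ≡ 1 [MOD m] := by
      rw [hN, mul_comm, pow_mul]
      have h2 := Nat.ModEq.pow_totient ((Nat.Prime.coprime_iff_not_dvd hp).mpr hpm)
      have h3 := h2.pow (2 * n.factorial)
      rwa [one_pow] at h3
    have h2 : ζ ^ p ^ N = ζ ^ 1 := pow_of_modEq hζ h1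
    rw [h2, pow_one]
  refine ⟨N, hN2, ?_⟩
  unfold W
  have hp0 : (p : 𝓞 K) ≠ 0 := by exact_mod_cast hp.ne_zero
  apply sq_dvd_of_mem hp0
  · intro β k hβ
    exact red hζ hp (by omega) hζN β k hβ
  · intro P hP hpP
    obtain ⟨f, hf0, hfn, hf⟩ := absNorm_above hp P hP hpP
    have h1 := h P hP hpP
    rw [hf] at h1
    have h2 : p ^ f - 1 ∣ p ^ N - 1 := by
      apply Nat.pow_sub_one_dvd_pow_sub_one
      have : f ∣ n.factorial := Nat.dvd_factorial hf0 hfn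
      rw [hN]
      exact dvd_mul_of_dvd_left (dvd_mul_of_dvd_right this _) _
    obtain ⟨e, he⟩ := h2
    have h3 : (1 - ζ) ^ (p ^ N - 1) - 1 ∈ P ^ 2 := by
      rw [he, pow_mul]
      have h4 := sub_dvd_pow_sub_pow ((1 - ζ) ^ (p ^ f - 1)) 1 e
      rw [one_pow] at h4
      exact Ideal.mem_of_dvd _ h4 h1
    have h4 : (1 - ζ) ^ p ^ N - (1 - ζ) = (1 - ζ) * ((1 - ζ) ^ (p ^ N - 1) - 1) := by
      have h5 : p ^ N = (p ^ N - 1) + 1 := by
        have := pow_pos hp.pos N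
        omega
      conv_lhs => rw [h5, pow_succ]
      ring
    rw [h4]
    exact Ideal.mul_mem_left _ _ h3

/-- **The arithmetic input**: if `1 - ζ` is Wieferich at all the primes above `p`, then
`H_k ≡ 0` for all `k < p` with `p ∣ m k + 1`. -/
theorem harm_of_wief {q n : ℕ} (hq : q.Prime) (hm : m = q ^ n) {ζ : 𝓞 K}
    (hζ : IsPrimitiveRoot ζ m) {p : ℕ} (hp : p.Prime) (hm2 : 2 ≤ m) (hmp : m < p)
    (h : ∀ P : Ideal (𝓞 K), P.IsPrime → (p : 𝓞 K) ∈ P →
      (1 - ζ) ^ (Ideal.absNorm P - 1) - 1 ∈ P ^ 2) {k : ℕ} (hk : k < p) (hd : p ∣ m * k + 1) :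
    Sm p (harmonic k) := by
  have hpm : ¬ p ∣ m := fun h1 => by
    have := Nat.le_of_dvd (by omega) h1
    omega
  obtain ⟨N, hN2, hW⟩ := W_of_all hζ hp hpm h
  have h1 := W_all hq hm hζ hp hW
  apply harm_of_S hp hm2 hmp hk hd
  intro t
  exact S_sm hp (Tt_dvd hζ hp (by omega) hpm hN2 h1 t)

end Field

end Run7.h510.G.Cyc
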